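import Mathlib
import Pool.Agent.Lib.MP_6d896a_gt.UC.Defs

/-!
Project UR (the Kannan-Lovasz-Simonovits inequality for log-concave measures invariant under
hyperplane reflections): definitions.
-/

set_option autoImplicit false

namespace Pool.Agent.Lib.MP_6d896a_gt.UC.UR

open MeasureTheory Filter Topology Set
open scoped ENNReal NNReal ContDiff

variable {n : ℕ}

/-- strongly convex potentials of centred probability densities with covariance at most `S` -/
structure GP (V : Eu n → ℝ) (κ Λ S : ℝ) : Prop where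
  kpos : 0 < κ
  Spos : 0 < S
  cd : ContDiff ℝ 2 V
  conv : ∀ x v, κ * ‖v‖ ^ 2 ≤ fderiv ℝ (fderiv ℝ V) x v v
  bd : ∀ x v, fderiv ℝ (fderiv ℝ V) x v v ≤ Λ * ‖v‖ ^ 2
  int : Integrable (fun x => Real.exp (-V x))
  mass : Ex V (fun _ => 1) = 1
  momi : Integrable (fun x : Eu n => ‖x‖ ^ 2 * Real.exp (-V x))
  cen : ∀ w : Eu n, Ex V (fun x => inner ℝ x w) = 0
  mom : ∀ w : Eu n, Ex V (fun x => inner ℝ x w ^ 2) ≤ S * ‖w‖ ^ 2

/-- Poincare inequality for test functions -/
def HP (V : Eu n → ℝ) (c : ℝ) : Prop :=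
  ∀ f : Eu n → ℝ, TT f → Ex V (fun x => f x ^ 2) - (Ex V f) ^ 2 ≤ c * Df V f f

/-- even in the coordinate `i` -/
def Ei (i : Fin n) (f : Eu n → ℝ) : Prop := ∀ x, f (Rf i x) = f x

/-- weights which do not depend on the coordinate `i` if `w i = 0` -/
noncomputable def om (S : ℝ) (w : Eu n) (x : Eu n) : ℝ := Real.sqrt (S + inner ℝ x w ^ 2)

/-- the class of functions in the iteration -/
structure GR (i : Fin n) (g : Eu n → ℝ) : Prop where
  tt : TT g
  ev : Ei i g
  nn : ∀ x, 0 ≤ g x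
  z : ∀ x, x i = 0 → g x = 0

/-- the reflection in the hyperplane orthogonal to `a` (the identity if `a = 0`) -/
noncomputable def RA (a : Eu n) : Eu n ≃ₗᵢ[ℝ] Eu n := (Submodule.span ℝ {a})ᗮ.reflection

end Pool.Agent.Lib.MP_6d896a_gt.UC.UR
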