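import Mathlib
import Pool.Agent.Lib.MP_6d896a_gt.UR.Defs
import Pool.Agent.Lib.MP_6d896a_gt.UC.Basic

/-!
Project UR, piece R10: isometries.
-/

set_option autoImplicit false
set_option linter.all false

namespace Pool.Agent.Lib.MP_6d896a_gt.UC.UR

open MeasureTheory Filter Topology Set ProbabilityTheory
open scoped ENNReal NNReal ContDiff

variable {n : ℕ} {V f g u : Eu n → ℝ} {κ Λ S : ℝ} {i j : Fin n}

lemma RA_apply (a x : Eu n) : RA a x = x - (2 * inner ℝ a x / ‖a‖ ^ 2) • a := by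
  unfold RA
  rw [Submodule.reflection_orthogonal_apply, Submodule.reflection_singleton_apply]
  simp only [RCLike.ofReal_real_eq_id, id_eq]
  rw [neg_sub]
  congr 1
  rw [← Nat.cast_smul_eq_nsmul ℝ, smul_smul]
  congr 1
  push_cast
  ring

lemma RA_RA (a x : Eu n) : RA a (RA a x) = x := Submodule.reflection_reflection _ x

lemma RA_self (a : Eu n) : RA a a = - a :=
  Submodule.reflection_orthogonalComplement_singleton_eq_neg a

lemma RA_ej (i : Fin n) (x : Eu n) : RA (ej i) x = Rf i x := by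
  rw [RA_apply]
  ext k
  rw [Rf_apply]
  have h1 : inner ℝ (ej i) x = x i := by
    simp [ej, EuclideanSpace.inner_single_left]
  have h2 : ‖ej i‖ = 1 := by simp [ej]
  rw [h1, h2]
  by_cases hk : k = i
  · subst hk; simp [ej]; ring
  · simp [ej, hk]

lemma RA_smul {t : ℝ} (ht : t ≠ 0) (a x : Eu n) : RA (t • a) x = RA a x := by
  unfold RA
  have h : Submodule.span ℝ {t • a} = Submodule.span ℝ {a} :=
    Submodule.span_singleton_smul_eq (IsUnit.mk0 t ht) a
  simp only [h]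

private lemma iso_RA (O : Eu n ≃ₗᵢ[ℝ] Eu n) (b x : Eu n) : O (RA b x) = RA (O b) (O x) := by
  rw [RA_apply, RA_apply, map_sub, map_smul, O.inner_map_map, O.norm_map]

lemma TT_iso (O : Eu n ≃ₗᵢ[ℝ] Eu n) (hf : TT f) : TT (fun x => f (O x)) :=
  ⟨hf.cd.comp O.toContinuousLinearEquiv.contDiff, hf.cs.comp_homeomorph O.toHomeomorph⟩

private lemma int_iso (O : Eu n ≃ₗᵢ[ℝ] Eu n) (F : Eu n → ℝ) : ∫ x, F (O x) = ∫ x, F x :=
  O.measurePreserving.integral_comp O.toHomeomorph.measurableEmbedding F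

private lemma intble_iso (O : Eu n ≃ₗᵢ[ℝ] Eu n) {F : Eu n → ℝ} (h : Integrable F) :
    Integrable (fun x => F (O x)) :=
  (O.measurePreserving.integrable_comp_emb O.toHomeomorph.measurableEmbedding).2 h

lemma Ex_iso (O : Eu n ≃ₗᵢ[ℝ] Eu n) (V f : Eu n → ℝ) :
    Ex (fun x => V (O x)) (fun x => f (O x)) = Ex V f :=
  int_iso O (fun x => f x * Real.exp (-V x))

private lemma fderiv_iso (O : Eu n ≃ₗᵢ[ℝ] Eu n) (hf : Differentiable ℝ f) (x : Eu n) :
    fderiv ℝ (fun x => f (O x)) x =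
      (fderiv ℝ f (O x)).comp (O.toContinuousLinearEquiv : Eu n →L[ℝ] Eu n) := by
  have h1 : HasFDerivAt f (fderiv ℝ f (O x)) (O x) := (hf _).hasFDerivAt
  have h2 : HasFDerivAt (fun x => O x) (O.toContinuousLinearEquiv : Eu n →L[ℝ] Eu n) x :=
    O.toContinuousLinearEquiv.hasFDerivAt
  exact (h1.comp x h2).fderiv

lemma Df_iso (O : Eu n ≃ₗᵢ[ℝ] Eu n) (hV : Continuous V) (hf : TT f) :
    Df (fun x => V (O x)) (fun x => f (O x)) (fun x => f (O x)) = Df V f f := by
  have hV' : Continuous (fun x => V (O x)) := hV.comp O.continuous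
  rw [Df_eq V hf hV, Df_eq (fun x => V (O x)) (TT_iso O hf) hV',
    ← int_iso O (fun x => ‖fderiv ℝ f x‖ ^ 2 * Real.exp (-V x))]
  congr 1; funext x
  rw [fderiv_iso O hf.differentiable]
  congr 2
  exact ContinuousLinearMap.opNorm_comp_linearIsometryEquiv _ O

private lemma fderiv2_iso (O : Eu n ≃ₗᵢ[ℝ] Eu n) (hV : ContDiff ℝ 2 V) (x v w : Eu n) :
    fderiv ℝ (fderiv ℝ (fun x => V (O x))) x v w = fderiv ℝ (fderiv ℝ V) (O x) (O v) (O w) := by
  have hd : Differentiable ℝ V := hV.differentiable (by norm_num)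
  have hd2 : Differentiable ℝ (fderiv ℝ V) :=
    (hV.fderiv_right (m := 1) (by norm_num)).differentiable (by norm_num)
  have hW : ContDiff ℝ 2 (fun x => V (O x)) := hV.comp O.toContinuousLinearEquiv.contDiff
  have hdW2 : Differentiable ℝ (fderiv ℝ (fun x => V (O x))) :=
    (hW.fderiv_right (m := 1) (by norm_num)).differentiable (by norm_num)
  have e1 : fderiv ℝ (fderiv ℝ (fun x => V (O x))) x v w =
      fderiv ℝ (fun y => fderiv ℝ (fun x => V (O x)) y w) x v := by
    rw [fderiv_clm_apply (hdW2 x) (differentiableAt_const _)]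
    simp
  have e2 : (fun y => fderiv ℝ (fun x => V (O x)) y w) = fun y => fderiv ℝ V (O y) (O w) := by
    funext y
    rw [fderiv_iso O hd]
    rfl
  have e3 : fderiv ℝ (fderiv ℝ V) (O x) (O v) (O w) =
      fderiv ℝ (fun z => fderiv ℝ V z (O w)) (O x) (O v) := by
    rw [fderiv_clm_apply (hd2 (O x)) (differentiableAt_const _)]
    simp
  have hd3 : Differentiable ℝ (fun z => fderiv ℝ V z (O w)) := by
    intro z
    exact (hd2 z).clm_apply (differentiableAt_const _)
  rw [e1, e2, e3, fderiv_iso (f := fun z => fderiv ℝ V z (O w)) O hd3]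
  rfl

lemma GP_iso (O : Eu n ≃ₗᵢ[ℝ] Eu n) (hU : GP V κ Λ S) : GP (fun x => V (O x)) κ Λ S where
  kpos := hU.kpos
  Spos := hU.Spos
  cd := hU.cd.comp O.toContinuousLinearEquiv.contDiff
  conv := by
    intro x v
    rw [fderiv2_iso O hU.cd, ← O.norm_map v]
    exact hU.conv _ _
  bd := by
    intro x v
    rw [fderiv2_iso O hU.cd, ← O.norm_map v]
    exact hU.bd _ _
  int := intble_iso O hU.int
  mass := by
    exact (Ex_iso O V (fun _ => 1)).trans hU.mass
  momi := by
    have h := intble_iso O hU.momi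
    refine h.congr (Filter.Eventually.of_forall fun x => ?_)
    simp only [O.norm_map]
  cen := by
    intro w
    rw [← hU.cen (O w), ← Ex_iso O V]
    congr 1; funext x
    rw [O.inner_map_map]
  mom := by
    intro w
    have h := hU.mom (O w)
    rw [O.norm_map, ← Ex_iso O V] at h
    have e : (fun x => inner ℝ (O x) (O w) ^ 2) = fun x : Eu n => inner ℝ x w ^ 2 := by
      funext x; rw [O.inner_map_map]
    rw [e] at h
    exact h

lemma HP_iso (O : Eu n ≃ₗᵢ[ℝ] Eu n) (hV : Continuous V) {c : ℝ} (hP : HP V c) :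
    HP (fun x => V (O x)) c := by
  intro f hf
  have hF : TT (fun x => f (O.symm x)) := TT_iso O.symm hf
  have h := hP _ hF
  rw [← Df_iso O hV hF, ← Ex_iso O V, ← Ex_iso O V (fun x => f (O.symm x))] at h
  simp only [LinearIsometryEquiv.symm_apply_apply] at h
  exact h

/-- `gapA` from `gapR` (hypothesis `hgap`); see GapA.lean -/
theorem gapA_of {c : ℝ} (hgap : ∀ (W : Eu n → ℝ) (i : Fin n), GP W κ Λ S → Ei i W → HP W c →
      ∃ c', 0 < c' ∧ c' < c ∧ ∀ f : Eu n → ℝ, TT f →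
      (∀ x, f (Rf i x) = - f x) → Ex W (fun x => f x ^ 2) ≤ c' * Df W f f)
    (hU : GP V κ Λ S) {a : Eu n} (ha : a ≠ 0) (hVa : ∀ x, V (RA a x) = V x) (hP : HP V c) :
    ∃ c', 0 < c' ∧ c' < c ∧ ∀ f : Eu n → ℝ, TT f →
      (∀ x, f (RA a x) = - f x) → Ex V (fun x => f x ^ 2) ≤ c' * Df V f f := by
  have hi : ∃ i, a i ≠ 0 := by
    by_contra hcon
    refine ha ?_
    ext k
    by_contra hk
    exact hcon ⟨k, by simpa using hk⟩
  obtain ⟨i, -⟩ := hi
  have hna : ‖a‖ ≠ 0 := norm_ne_zero_iff.2 ha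
  set e : Eu n := ‖a‖⁻¹ • a with he
  have hne : ‖(ej i : Eu n)‖ = ‖e‖ := by
    rw [he, norm_smul, norm_inv, norm_norm, inv_mul_cancel₀ hna]
    simp [ej]
  set O : Eu n ≃ₗᵢ[ℝ] Eu n := RA (ej i - e) with hO
  have hOe : O (ej i) = e := Submodule.reflection_sub hne
  have hcomm : ∀ x, O (Rf i x) = RA a (O x) := by
    intro x
    rw [← RA_ej, iso_RA, hOe, he, RA_smul (inv_ne_zero hna)]
  have hVi : Ei i (fun x => V (O x)) := by
    intro x
    show V (O (Rf i x)) = V (O x)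
    rw [hcomm, hVa]
  have hV : Continuous V := hU.cd.continuous
  obtain ⟨c', h1, h2, h3⟩ := hgap _ i (GP_iso O hU) hVi (HP_iso O hV hP)
  refine ⟨c', h1, h2, fun f hf hodd => ?_⟩
  have h4 := h3 (fun x => f (O x)) (TT_iso O hf) (by
    intro x
    show f (O (Rf i x)) = - f (O x)
    rw [hcomm, hodd])
  rw [Df_iso O hV hf] at h4
  have h5 := Ex_iso O V (fun x => f x ^ 2)
  rw [← h5]
  exact h4

end Pool.Agent.Lib.MP_6d896a_gt.UC.UR
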