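import Mathlib
import Pool.Agent.Lib.MP_6d896a_gt.UR.Defs
import Pool.Agent.Lib.MP_6d896a_gt.UC.Basic
import Pool.Agent.Lib.MP_6d896a_gt.Lite
import Pool.Agent.Lib.MP_6d896a_gt.TgtInt
import Pool.Agent.Lib.MP_6d896a_gt.FP.PostPL
import Pool.Agent.Lib.MP_6d896a_gt.FP.PoincSC

/-!
The Gaussian smoothing of a log-concave measure with bounded support: symmetries, strong
convexity of the potential and an a priori Poincare inequality.
-/

set_option autoImplicit false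

namespace Pool.Agent.Lib.MP_6d896a_gt.UC.UR

open MeasureTheory Filter Topology Set ProbabilityTheory
open scoped ENNReal NNReal ContDiff

variable {n : ℕ}

section vp
variable {m : Measure (Eu n)} [IsFiniteMeasure m] {d R s : ℝ}

omit [IsFiniteMeasure m] in
private lemma vg_fG (O : Eu n ≃ₗᵢ[ℝ] Eu n) (hm : m.map O = m) (x : Eu n) :
    FP.fG m d (O x) = FP.fG m d x := by
  unfold FP.fG
  have hc : Continuous (O : Eu n → Eu n) := O.continuous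
  have hk : Continuous (fun z : Eu n => gk d (O x - z)) :=
    (gk_continuous d).comp (continuous_const.sub continuous_id)
  conv_lhs => rw [← hm]
  rw [integral_map hc.measurable.aemeasurable hk.aestronglyMeasurable]
  congr 1
  funext z
  unfold gk
  rw [← map_sub, LinearIsometryEquiv.norm_map]

theorem Vp_iso (O : Eu n ≃ₗᵢ[ℝ] Eu n) (hm : m.map O = m) (hd : 0 < d) (hm0 : m ≠ 0)
    (hR : ∀ᵐ z ∂m, ‖z‖ ≤ R) (hs : 0 < s) (x : Eu n) :
    FP.Vp m d s 0 (O x) = FP.Vp m d s 0 x := by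
  have h1 := FP.exp_neg_Vp hd hm0 hR hs 0 (O x)
  have h2 := FP.exp_neg_Vp hd hm0 hR hs 0 x
  rw [vg_fG O hm] at h1
  have h3 : gk s (O x - 0) = gk s (x - 0) := by
    unfold gk
    rw [sub_zero, sub_zero, LinearIsometryEquiv.norm_map]
  rw [h3, ← h2] at h1
  have := Real.exp_injective h1
  linarith

private lemma vg_Qp_lower (hd : 0 < d) (hm0 : m ≠ 0) (hR : ∀ᵐ z ∂m, ‖z‖ ≤ R) (hpl : FP.PLm m)
    (x v : Eu n) : 2 * s * ‖v‖ ^ 2 ≤ FP.Qp m d s x v v := by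
  have h1 := FP.line_deriv (FP.Pp_hasFDerivAt hd hm0 hR s 0) x v 0
  have h2 : HasDerivAt (fun t : ℝ => FP.Pp m d s 0 (x + t • v) v) (FP.Qp m d s x v v) 0 := by
    have h3 := h1.clm_apply (hasDerivAt_const (0 : ℝ) v)
    simpa using h3
  have h4 := h2.tendsto_slope_zero_right
  apply ge_of_tendsto h4
  filter_upwards [self_mem_nhdsWithin] with t ht
  have ht' : (0 : ℝ) < t := ht
  have h5 := FP.Pp_mono hd hm0 hR hpl s 0 (x + t • v) x
  have e : x + t • v - x = t • v := by abel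
  rw [e, map_smul, norm_smul, Real.norm_eq_abs, mul_pow, sq_abs, smul_eq_mul] at h5
  simp only [zero_add, zero_smul, add_zero, smul_eq_mul]
  rw [← _root_.sub_apply, ← div_eq_inv_mul, le_div_iff₀ ht']
  have h6 : t * (2 * s * ‖v‖ ^ 2 * t) ≤
      t * ((FP.Pp m d s 0 (x + t • v) - FP.Pp m d s 0 x) v) := by
    linarith
  exact le_of_mul_le_mul_left h6 ht'

/-- the normalised potential -/
private noncomputable def vgV (m : Measure (Eu n)) (d s : ℝ) (x : Eu n) : ℝ :=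
  FP.Vp m d s 0 x + Real.log ((tgt (FP.Vp m d s 0)).real Set.univ)

private lemma vg_fd (hd : 0 < d) (hm0 : m ≠ 0) (hR : ∀ᵐ z ∂m, ‖z‖ ≤ R) :
    fderiv ℝ (vgV m d s) = FP.Pp m d s 0 :=
  funext fun x => ((FP.Vp_hasFDerivAt hd hm0 hR s 0 x).add_const _).fderiv

private lemma vg_fd2 (hd : 0 < d) (hm0 : m ≠ 0) (hR : ∀ᵐ z ∂m, ‖z‖ ≤ R) :
    fderiv ℝ (fderiv ℝ (vgV m d s)) = FP.Qp m d s := by
  rw [vg_fd hd hm0 hR]
  exact funext fun x => (FP.Pp_hasFDerivAt hd hm0 hR s 0 x).fderiv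

private lemma vg_cd (hd : 0 < d) (hm0 : m ≠ 0) (hR : ∀ᵐ z ∂m, ‖z‖ ≤ R) :
    ContDiff ℝ 2 (vgV m d s) := by
  have hV := FP.Vp_hasFDerivAt hd hm0 hR s 0
  have hP := FP.Pp_hasFDerivAt hd hm0 hR s 0
  have hQc : Continuous (FP.Qp m d s) := by
    have hk : ∀ x y : Eu n, dist (FP.Qp m d s x) (FP.Qp m d s y) ≤
        (6 * ((2 * d * R) * ((2 * d * R) * (2 * d * R)))) * dist x y := by
      intro x y
      have h1 := FP.Qp_lip hd hm0 hR s x y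
      have h2 := dist_eq_norm (E := Eu n →L[ℝ] Eu n →L[ℝ] ℝ) (FP.Qp m d s x) (FP.Qp m d s y)
      rw [h2, dist_eq_norm x y]
      exact h1
    exact (LipschitzWith.of_dist_le' hk).continuous
  have hP1 : ContDiff ℝ 1 (FP.Pp m d s 0) := by
    rw [contDiff_one_iff_fderiv]
    refine ⟨fun x => (hP x).differentiableAt, ?_⟩
    have : fderiv ℝ (FP.Pp m d s 0) = FP.Qp m d s := funext fun x => (hP x).fderiv
    rw [this]
    exact hQc
  rw [show (2 : WithTop ℕ∞) = 1 + 1 from by norm_num, contDiff_succ_iff_fderiv]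
  refine ⟨fun x => ((hV x).add_const _).differentiableAt, by simp, ?_⟩
  rw [vg_fd hd hm0 hR]
  exact hP1

private lemma vg_int4 (hd : 0 < d) (hm0 : m ≠ 0) (hR : ∀ᵐ z ∂m, ‖z‖ ≤ R) (hs : 0 < s)
    (hpl : FP.PLm m) (hR0 : 0 ≤ R) :
    Integrable (fun x : Eu n => Real.exp (-FP.Vp m d s 0 x) * (1 + ‖x‖) ^ 4) := by
  have hpot := FP.Vp_pot hd hm0 hR0 hR hpl hs (0 : Eu n)
  have hcV := hpot.cV
  refine ⟨(Continuous.aestronglyMeasurable (by fun_prop)), ?_⟩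
  rw [hasFiniteIntegral_iff_ofReal (ae_of_all _ fun x => by positivity)]
  exact hpot.mom

private lemma vg_int0 (hd : 0 < d) (hm0 : m ≠ 0) (hR : ∀ᵐ z ∂m, ‖z‖ ≤ R) (hs : 0 < s)
    (hpl : FP.PLm m) (hR0 : 0 ≤ R) :
    Integrable (fun x : Eu n => Real.exp (-FP.Vp m d s 0 x)) := by
  have hcV := (FP.Vp_pot hd hm0 hR0 hR hpl hs (0 : Eu n)).cV
  refine (vg_int4 hd hm0 hR hs hpl hR0).mono' (Continuous.aestronglyMeasurable (by fun_prop))
    (ae_of_all _ fun x => ?_)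
  rw [Real.norm_eq_abs, abs_of_pos (Real.exp_pos _)]
  have h1 : (1 : ℝ) ≤ (1 + ‖x‖) ^ 4 := one_le_pow₀ (by linarith [norm_nonneg x])
  exact le_mul_of_one_le_right (Real.exp_pos _).le h1

private lemma vg_int2 (hd : 0 < d) (hm0 : m ≠ 0) (hR : ∀ᵐ z ∂m, ‖z‖ ≤ R) (hs : 0 < s)
    (hpl : FP.PLm m) (hR0 : 0 ≤ R) :
    Integrable (fun x : Eu n => ‖x‖ ^ 2 * Real.exp (-FP.Vp m d s 0 x)) := by
  have hcV := (FP.Vp_pot hd hm0 hR0 hR hpl hs (0 : Eu n)).cV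
  refine (vg_int4 hd hm0 hR hs hpl hR0).mono' (Continuous.aestronglyMeasurable (by fun_prop))
    (ae_of_all _ fun x => ?_)
  rw [Real.norm_eq_abs, abs_of_nonneg (by positivity), mul_comm]
  refine mul_le_mul_of_nonneg_left ?_ (Real.exp_pos _).le
  have h2 : ‖x‖ ^ 2 ≤ (1 + ‖x‖) ^ 2 :=
    pow_le_pow_left₀ (norm_nonneg _) (by linarith [norm_nonneg x]) 2
  have h3 : (1 + ‖x‖) ^ 2 ≤ (1 + ‖x‖) ^ 4 :=
    pow_le_pow_right₀ (by linarith [norm_nonneg x]) (by norm_num)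
  exact h2.trans h3

private lemma vg_mass (hd : 0 < d) (hm0 : m ≠ 0) (hR : ∀ᵐ z ∂m, ‖z‖ ≤ R) (hs : 0 < s)
    (hpl : FP.PLm m) (hR0 : 0 ≤ R) :
    (tgt (FP.Vp m d s 0)).real Set.univ = ∫ y, Real.exp (-FP.Vp m d s 0 y) := by
  have hcV := (FP.Vp_pot hd hm0 hR0 hR hpl hs (0 : Eu n)).cV
  have h1 : (tgt (FP.Vp m d s 0)).real Set.univ = ∫ _y, (1 : ℝ) ∂(tgt (FP.Vp m d s 0)) := by
    simp
  rw [h1, integral_tgt hcV]
  simp

private lemma vg_M (hd : 0 < d) (hm0 : m ≠ 0) (hR : ∀ᵐ z ∂m, ‖z‖ ≤ R) (hs : 0 < s)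
    (hpl : FP.PLm m) (hR0 : 0 ≤ R) : 0 < (tgt (FP.Vp m d s 0)).real Set.univ := by
  rw [vg_mass hd hm0 hR hs hpl hR0]
  exact integral_exp_pos (vg_int0 hd hm0 hR hs hpl hR0)

private lemma vg_exp (hd : 0 < d) (hm0 : m ≠ 0) (hR : ∀ᵐ z ∂m, ‖z‖ ≤ R) (hs : 0 < s)
    (hpl : FP.PLm m) (hR0 : 0 ≤ R) (x : Eu n) : Real.exp (-vgV m d s x) =
      ((tgt (FP.Vp m d s 0)).real Set.univ)⁻¹ * Real.exp (-FP.Vp m d s 0 x) := by
  unfold vgV
  rw [neg_add, Real.exp_add, Real.exp_neg (Real.log _),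
    Real.exp_log (vg_M hd hm0 hR hs hpl hR0)]
  ring

private lemma vg_total (hd : 0 < d) (hm0 : m ≠ 0) (hR : ∀ᵐ z ∂m, ‖z‖ ≤ R) (hs : 0 < s)
    (hpl : FP.PLm m) (hR0 : 0 ≤ R) : ∫ x, Real.exp (-vgV m d s x) = 1 := by
  have hM := vg_M hd hm0 hR hs hpl hR0
  simp only [vg_exp hd hm0 hR hs hpl hR0]
  rw [integral_const_mul, ← vg_mass hd hm0 hR hs hpl hR0, inv_mul_cancel₀ hM.ne']

theorem Vp_GP (hd : 0 < d) (hm0 : m ≠ 0) (hR : ∀ᵐ z ∂m, ‖z‖ ≤ R) (hs : 0 < s)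
    (hpl : FP.PLm m) (hR0 : 0 ≤ R) {S : ℝ} (hS : 0 < S)
    (hcen : ∀ w : Eu n, ∫ y, inner ℝ y w ∂(tgt (FP.Vp m d s 0)) = 0)
    (hvar : ∀ w : Eu n, ∫ y, inner ℝ y w ^ 2 ∂(tgt (FP.Vp m d s 0)) ≤
      S * ‖w‖ ^ 2 * (tgt (FP.Vp m d s 0)).real Set.univ) :
    GP (fun x => FP.Vp m d s 0 x + Real.log ((tgt (FP.Vp m d s 0)).real Set.univ)) (2 * s)
      (2 * s + (2 * d + 2 * ((2 * d * R) * (2 * d * R)))) S := by
  have hcV := (FP.Vp_pot hd hm0 hR0 hR hpl hs (0 : Eu n)).cV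
  have hM := vg_M hd hm0 hR hs hpl hR0
  have hexp := vg_exp hd hm0 hR hs hpl hR0
  have hEx : ∀ F : Eu n → ℝ, Ex (vgV m d s) F =
      ((tgt (FP.Vp m d s 0)).real Set.univ)⁻¹ * ∫ y, F y ∂(tgt (FP.Vp m d s 0)) := by
    intro F
    rw [integral_tgt hcV, ← integral_const_mul]
    unfold Ex
    congr 1
    funext x
    rw [hexp]
    ring
  show GP (vgV m d s) _ _ _
  refine ⟨by positivity, hS, vg_cd hd hm0 hR, ?_, ?_, ?_, ?_, ?_, ?_, ?_⟩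
  · intro x v
    rw [vg_fd2 hd hm0 hR]
    exact vg_Qp_lower hd hm0 hR hpl x v
  · intro x v
    rw [vg_fd2 hd hm0 hR]
    have h1 : ‖FP.Qp m d s x v v‖ ≤ ‖FP.Qp m d s x‖ * ‖v‖ * ‖v‖ :=
      ContinuousLinearMap.le_opNorm₂ _ _ _
    have h2 := FP.Qp_bound hd hm0 hR hs x
    rw [Real.norm_eq_abs] at h1
    calc FP.Qp m d s x v v ≤ ‖FP.Qp m d s x‖ * ‖v‖ * ‖v‖ := (le_abs_self _).trans h1
      _ = ‖FP.Qp m d s x‖ * ‖v‖ ^ 2 := by ring
      _ ≤ _ := mul_le_mul_of_nonneg_right h2 (sq_nonneg _)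
  · simp only [hexp]
    exact (vg_int0 hd hm0 hR hs hpl hR0).const_mul _
  · unfold Ex
    simp only [one_mul]
    exact vg_total hd hm0 hR hs hpl hR0
  · have := (vg_int2 hd hm0 hR hs hpl hR0).const_mul
      ((tgt (FP.Vp m d s 0)).real Set.univ)⁻¹
    refine this.congr (ae_of_all _ fun x => ?_)
    simp only [hexp]
    ring
  · intro w
    rw [hEx, hcen, mul_zero]
  · intro w
    rw [hEx, inv_mul_le_iff₀ hM, mul_comm _ (S * ‖w‖ ^ 2)]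
    exact hvar w

private lemma vg_sq_mid (x y : Eu n) : ‖(1 / 2 : ℝ) • (x + y)‖ ^ 2 + 1 / 4 * ‖x - y‖ ^ 2 =
    (‖x‖ ^ 2 + ‖y‖ ^ 2) / 2 := by
  have h1 := parallelogram_law_with_norm ℝ x y
  rw [norm_smul, Real.norm_eq_abs, abs_of_pos (by norm_num : (0 : ℝ) < 1 / 2)]
  nlinarith

private lemma vg_mid (hd : 0 < d) (hm0 : m ≠ 0) (hR : ∀ᵐ z ∂m, ‖z‖ ≤ R)
    (hpl : FP.PLm m) (x y : Eu n) :
    vgV m d s ((1 / 2 : ℝ) • (x + y)) + (s / 4) * ‖x - y‖ ^ 2 ≤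
      (vgV m d s x + vgV m d s y) / 2 := by
  have h1 := FP.Wp_convex hd hm0 hR hpl x y (l := 1 / 2) (by norm_num) (by norm_num)
  have e1 : (1 - 1 / 2 : ℝ) • x + (1 / 2 : ℝ) • y = (1 / 2 : ℝ) • (x + y) := by
    rw [smul_add]; norm_num
  rw [e1] at h1
  have h2 : s * ‖(1 / 2 : ℝ) • (x + y)‖ ^ 2 + s / 4 * ‖x - y‖ ^ 2 =
      (s * ‖x‖ ^ 2 + s * ‖y‖ ^ 2) / 2 := by
    have h3 : s * (‖(1 / 2 : ℝ) • (x + y)‖ ^ 2 + 1 / 4 * ‖x - y‖ ^ 2) =
        s * ((‖x‖ ^ 2 + ‖y‖ ^ 2) / 2) := by rw [vg_sq_mid x y]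
    linarith
  unfold vgV
  obtain ⟨L, hL⟩ : ∃ L, L = Real.log ((tgt (FP.Vp m d s 0)).real Set.univ) := ⟨_, rfl⟩
  rw [← hL]
  unfold FP.Vp
  simp only [sub_zero]
  linarith

private lemma vg_nice (hd : 0 < d) (hm0 : m ≠ 0) (hR : ∀ᵐ z ∂m, ‖z‖ ≤ R) (hs : 0 < s)
    (hpl : FP.PLm m) : FP.Nice (vgV m d s) := by
  refine ⟨vg_cd hd hm0 hR, ?_, ?_, ?_⟩
  · refine ⟨2 * s + (2 * d + 2 * ((2 * d * R) * (2 * d * R))), fun x => ?_⟩
    rw [vg_fd2 hd hm0 hR]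
    exact FP.Qp_bound hd hm0 hR hs x
  · refine ⟨6 * ((2 * d * R) * ((2 * d * R) * (2 * d * R))), fun x y => ?_⟩
    rw [vg_fd2 hd hm0 hR]
    exact FP.Qp_lip hd hm0 hR s x y
  · exact ⟨s / 4, by positivity, vg_mid hd hm0 hR hpl⟩

/-- an a priori Poincare inequality (any constant is enough, `1 / (2 s)` is the natural one) -/
theorem Vp_apriori (hd : 0 < d) (hm0 : m ≠ 0) (hR : ∀ᵐ z ∂m, ‖z‖ ≤ R) (hs : 0 < s)
    (hpl : FP.PLm m) (hR0 : 0 ≤ R) : ∃ c0 : ℝ, 0 < c0 ∧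
    HP (fun x => FP.Vp m d s 0 x + Real.log ((tgt (FP.Vp m d s 0)).real Set.univ)) c0 := by
  have hn := vg_nice (s := s) hd hm0 hR hs hpl
  have hVc : Continuous (vgV m d s) := hn.cd.continuous
  have htot := vg_total hd hm0 hR hs hpl hR0
  have hint : Integrable (fun x => Real.exp (-vgV m d s x)) := by
    simp only [vg_exp hd hm0 hR hs hpl hR0]
    exact (vg_int0 hd hm0 hR hs hpl hR0).const_mul _
  have hgib : FP.gibbs (vgV m d s) = tgt (vgV m d s) := by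
    have h1 : ∫⁻ x, ENNReal.ofReal (Real.exp (-vgV m d s x)) = 1 := by
      rw [← ofReal_integral_eq_lintegral_ofReal hint (ae_of_all _ fun x => (Real.exp_pos _).le),
        htot, ENNReal.ofReal_one]
    unfold FP.gibbs tgt
    rw [h1, inv_one, one_smul]
  have hprob : IsProbabilityMeasure (tgt (vgV m d s)) := by
    rw [← hgib]; exact FP.gibbs_prob hn
  refine ⟨1 / (2 * (s / 4)), by positivity, ?_⟩
  intro f hf
  have h1 := FP.poinc_sc (ContinuousLinearEquiv.refl ℝ (Eu n)) hn (s := s / 4) (by positivity)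
    (fun x y => by simpa using vg_mid hd hm0 hR hpl x y) (f := f) (hf.cd.of_le (by norm_num))
    (by
      have hc := hf.cs.fderiv (𝕜 := ℝ)
      obtain ⟨C, hC⟩ := (hf.cd.continuous_fderiv (by norm_num)).bounded_above_of_compact_support hc
      exact ⟨C, hC⟩)
  have e1 : (FP.gibbs (vgV m d s)).map (ContinuousLinearEquiv.refl ℝ (Eu n)).symm =
      tgt (vgV m d s) := by
    rw [hgib]
    exact Measure.map_id
  rw [e1] at h1
  have hmem : MemLp f 2 (tgt (vgV m d s)) := by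
    obtain ⟨C, hC⟩ := hf.cd.continuous.bounded_above_of_compact_support hf.cs
    exact MemLp.of_bound hf.cd.continuous.aestronglyMeasurable C (ae_of_all _ hC)
  rw [variance_eq_sub hmem] at h1
  simp only [Pi.pow_apply] at h1
  rw [integral_tgt hVc, integral_tgt hVc, integral_tgt hVc, ← Df_eq _ hf hVc] at h1
  exact h1

end vp

end Pool.Agent.Lib.MP_6d896a_gt.UC.UR
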