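import Mathlib
import Pool.Agent.Lib.MP_6d896a_gt.UR.Defs
import Pool.Agent.Lib.MP_6d896a_gt.UC.Basic
import Pool.Agent.Lib.MP_6d896a_gt.UC.Ibp
import Pool.Agent.Lib.MP_6d896a_gt.UC.Esa

/-!
Project UR, piece R1: Bochner inequality with the convexity term, density of the range of `l - L`
in the class of functions even in some coordinates, and the regularisation step.
-/

set_option autoImplicit false
set_option linter.unusedVariables false

namespace Pool.Agent.Lib.MP_6d896a_gt.UC.UR

open MeasureTheory Filter Topology Set ProbabilityTheory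
open scoped ENNReal NNReal ContDiff

variable {n : ℕ} {V f g u : Eu n → ℝ} {κ Λ S : ℝ} {i j : Fin n}

private lemma sr_boch_pd_cd {m : ℕ∞} {f : Eu n → ℝ} {k : ℕ∞} (hf : ContDiff ℝ k f)
    (h : m + 1 ≤ k) (i : Fin n) : ContDiff ℝ m (pd i f) := by
  have h1 : ContDiff ℝ m (fderiv ℝ f) := hf.fderiv_right (by exact_mod_cast h)
  exact h1.clm_apply contDiff_const

/-- second derivatives of the potential -/
private lemma sr_boch_pd2 (hV : ContDiff ℝ 2 V) (i j : Fin n) (x : Eu n) :
    pd i (pd j V) x = fderiv ℝ (fderiv ℝ V) x (ej i) (ej j) := by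
  have h1 : DifferentiableAt ℝ (fderiv ℝ V) x :=
    ((hV.fderiv_right (m := 1) (by norm_num)).differentiable (by norm_num)) x
  have h2 := (h1.hasFDerivAt.clm_apply (hasFDerivAt_const (ej j) x)).fderiv
  show fderiv ℝ (fun y => fderiv ℝ V y (ej j)) x (ej i) = _
  rw [h2]
  simp

private lemma sr_boch_cd2 {f : Eu n → ℝ} (hf : TT f) : ContDiff ℝ 2 f := by
  have := contDiff_infty.1 hf.cd 2
  exact_mod_cast this

private lemma sr_boch_pd_sum {ι : Type*} (s : Finset ι) {F : ι → Eu n → ℝ}
    (h : ∀ k ∈ s, Differentiable ℝ (F k)) (i : Fin n) (x : Eu n) :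
    pd i (fun x => ∑ k ∈ s, F k x) x = ∑ k ∈ s, pd i (F k) x := by
  unfold pd
  rw [fderiv_fun_sum fun k hk => (h k hk) x]
  simp

private lemma sr_boch_quad (hV : ContDiff ℝ 2 V) (a : Fin n → ℝ) (x : Eu n) :
    ∑ i, ∑ j, pd i (pd j V) x * (a j * a i) =
      fderiv ℝ (fderiv ℝ V) x (∑ i, a i • ej i) (∑ j, a j • ej j) := by
  simp only [map_sum, map_smul, _root_.sum_apply, _root_.smul_apply,
    smul_eq_mul, Finset.mul_sum]
  rw [Finset.sum_comm]
  refine Finset.sum_congr rfl fun i _ => Finset.sum_congr rfl fun j _ => ?_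
  rw [sr_boch_pd2 hV]
  ring


private lemma sr_norm_sq (a : Fin n → ℝ) : ‖∑ i, a i • ej i‖ ^ 2 = ∑ i, a i ^ 2 := by
  rw [EuclideanSpace.norm_sq_eq]
  refine Finset.sum_congr rfl fun k _ => ?_
  have : (∑ i, a i • ej i : EuclideanSpace ℝ (Fin n)) k = a k := by
    have h1 := map_sum (EuclideanSpace.proj (𝕜 := ℝ) k : Eu n →L[ℝ] ℝ)
      (fun i => a i • ej i) Finset.univ
    have h2 : (∑ i, a i • ej i : EuclideanSpace ℝ (Fin n)) k =
        ∑ i, (EuclideanSpace.proj (𝕜 := ℝ) k : Eu n →L[ℝ] ℝ) (a i • ej i) := h1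
    rw [h2, Finset.sum_eq_single k]
    · simp [ej]
    · intro b _ hb
      simp [ej, hb]
    · intro h; exact absurd (Finset.mem_univ k) h
  rw [this, Real.norm_eq_abs, sq_abs]

/-- Bochner's inequality with the convexity term -/
theorem bochR (hV : ContDiff ℝ 2 V)
    (hc : ∀ x v, κ * ‖v‖ ^ 2 ≤ fderiv ℝ (fderiv ℝ V) x v v) (hu : TT u) :
    ∑ j, Df V (pd j u) (pd j u) + κ * Df V u u ≤ Ex V (fun x => LL V u x ^ 2) := by
  have hV1 : ContDiff ℝ 1 V := hV.of_le (by norm_num)
  have hVc : Continuous V := hV.continuous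
  have hVd : ∀ j, ContDiff ℝ 1 (pd j V) := fun j =>
    sr_boch_pd_cd (m := 1) (k := 2) hV (by norm_num) j
  have hVdd : ∀ j, Differentiable ℝ (pd j V) := fun j => (hVd j).differentiable (by norm_num)
  have hud : ∀ j, Differentiable ℝ (pd j u) := fun j => (hu.pd j).differentiable
  have hudd : ∀ j k, Differentiable ℝ (pd k (pd j u)) := fun j k =>
    ((hu.pd j).pd k).differentiable
  -- `w = LL V u` is `C¹` with compact support
  have hw1 : ContDiff ℝ 1 (LL V u) := by
    have h1 : ContDiff ℝ 1 (fun x => ∑ j, pd j (pd j u) x) :=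
      ContDiff.sum fun j _ => (((hu.pd j).pd j).cd).of_le (by exact_mod_cast le_top)
    have h2 : ContDiff ℝ 1 (fun x => ∑ j, pd j V x * pd j u x) :=
      ContDiff.sum fun j _ => (hVd j).mul (((hu.pd j).cd).of_le (by exact_mod_cast le_top))
    exact h1.sub h2
  have hLc := LL_cont hV1 hu
  -- derivative of `w`
  have hpw : ∀ i x, pd i (LL V u) x =
      LL V (pd i u) x - ∑ j, pd i (pd j V) x * pd j u x := by
    intro i x
    have e1 : LL V u = fun x => (fun x => ∑ j, pd j (pd j u) x) x -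
        (fun x => ∑ j, pd j V x * pd j u x) x := rfl
    have d1 : Differentiable ℝ (fun x => ∑ j, pd j (pd j u) x) := by
      exact Differentiable.fun_sum fun j _ => hudd j j
    have d2 : Differentiable ℝ (fun x => ∑ j, pd j V x * pd j u x) :=
      Differentiable.fun_sum fun j _ => (hVdd j).mul (hud j)
    have d3 := sr_boch_pd_sum (F := fun j x => pd j V x * pd j u x) Finset.univ
      (fun j _ => (hVdd j).mul (hud j)) i x
    rw [e1, pd_sub d1 d2, sr_boch_pd_sum _ (fun j _ => hudd j j), d3]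
    have e2 : ∀ j, pd i (pd j (pd j u)) x = pd j (pd j (pd i u)) x := by
      intro j
      have h1 : pd i (pd j (pd j u)) = pd j (pd i (pd j u)) :=
        pd_comm (sr_boch_cd2 (hu.pd j)) i j
      have h2 : pd i (pd j u) = pd j (pd i u) :=
        pd_comm (sr_boch_cd2 hu) i j
      rw [h1, h2]
    have e3 : ∀ j, pd i (fun x => pd j V x * pd j u x) x =
        pd i (pd j V) x * pd j u x + pd j V x * pd j (pd i u) x := by
      intro j
      rw [pd_mul (hVdd j) (hud j)]
      have h2 : pd i (pd j u) = pd j (pd i u) :=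
        pd_comm (sr_boch_cd2 hu) i j
      rw [h2]
    simp only [e2, e3, Finset.sum_add_distrib, LL]
    ring
  -- integration by parts
  have hibp : ∀ i, Ex V (fun x => pd i (LL V u) x * pd i u x) =
      - Ex V (fun x => LL V u x * (pd i (pd i u) x - pd i V x * pd i u x)) := fun i =>
    ibp hV1 hw1 ((hu.pd i).cd.of_le (by exact_mod_cast le_top)) (hu.pd i).cs i
  have hcont : ∀ {f : Eu n → ℝ}, Continuous f → HasCompactSupport f →
      Integrable (fun x => f x * Real.exp (-V x)) := fun hf hcs => int_cs hVc hf hcs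
  have hint1 : ∀ i, Integrable (fun x => (LL V u x *
      (pd i (pd i u) x - pd i V x * pd i u x)) * Real.exp (-V x)) := by
    intro i
    refine hcont ?_ ?_
    · exact hLc.1.mul ((((hu.pd i).pd i).continuous).sub
        ((hVd i).continuous.mul (hu.pd i).continuous))
    · exact hLc.2.mul_right
  have hsum : Ex V (fun x => LL V u x ^ 2) =
      ∑ i, Ex V (fun x => LL V u x * (pd i (pd i u) x - pd i V x * pd i u x)) := by
    unfold Ex
    rw [← integral_finsetSum _ fun i _ => hint1 i]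
    refine integral_congr_ae (Eventually.of_forall fun x => ?_)
    show LL V u x ^ 2 * Real.exp (-V x) = ∑ i, LL V u x *
      (pd i (pd i u) x - pd i V x * pd i u x) * Real.exp (-V x)
    rw [← Finset.sum_mul, ← Finset.mul_sum, Finset.sum_sub_distrib]
    show LL V u x ^ 2 * _ = LL V u x * LL V u x * _
    ring
  have hintL : ∀ i, Integrable (fun x => (LL V (pd i u) x * pd i u x) * Real.exp (-V x)) :=
    fun i => hcont ((LL_cont hV1 (hu.pd i)).1.mul (hu.pd i).continuous)
      (LL_cont hV1 (hu.pd i)).2.mul_right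
  have hpd2c : ∀ i j, Continuous (pd i (pd j V)) := fun i j =>
    (sr_boch_pd_cd (m := 0) (k := 1) (hVd j) (by norm_num) i).continuous
  have hintQ : ∀ i, Integrable (fun x => ((∑ j, pd i (pd j V) x * pd j u x) * pd i u x) *
      Real.exp (-V x)) := by
    intro i
    refine hcont ?_ ?_
    · exact (continuous_finsetSum _ fun j _ => (hpd2c i j).mul (hu.pd j).continuous).mul
        (hu.pd i).continuous
    · exact (hu.pd i).cs.mul_left
  have hterm : ∀ i, - Ex V (fun x => pd i (LL V u) x * pd i u x) =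
      Df V (pd i u) (pd i u) +
        Ex V (fun x => (∑ j, pd i (pd j V) x * pd j u x) * pd i u x) := by
    intro i
    have e1 : (fun x => pd i (LL V u) x * pd i u x) = fun x =>
        LL V (pd i u) x * pd i u x - (∑ j, pd i (pd j V) x * pd j u x) * pd i u x := by
      funext x
      rw [hpw i x]
      ring
    rw [e1, Ex_sub (hintL i) (hintQ i), green hV1 (hu.pd i) (hu.pd i)]
    ring
  have hQ : κ * Df V u u ≤
      ∑ i, Ex V (fun x => (∑ j, pd i (pd j V) x * pd j u x) * pd i u x) := by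
    have e1 : ∑ i, Ex V (fun x => (∑ j, pd i (pd j V) x * pd j u x) * pd i u x) =
        ∫ x, (∑ i, (∑ j, pd i (pd j V) x * pd j u x) * pd i u x * Real.exp (-V x)) := by
      unfold Ex
      rw [integral_finsetSum _ fun i _ => hintQ i]
    have hintD : ∀ i, Integrable (fun x => (pd i u x * pd i u x) * Real.exp (-V x)) := fun i =>
      hcont ((hu.pd i).continuous.mul (hu.pd i).continuous) (hu.pd i).cs.mul_left
    have e0 : κ * Df V u u = ∫ x, κ * (∑ i, (pd i u x * pd i u x) * Real.exp (-V x)) := by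
      unfold Df Ex
      rw [integral_const_mul, integral_finsetSum _ fun i _ => hintD i]
    rw [e1, e0]
    refine integral_mono ((integrable_finsetSum _ fun i _ => hintD i).const_mul κ)
      (integrable_finsetSum _ fun i _ => hintQ i) fun x => ?_
    show κ * (∑ i, (pd i u x * pd i u x) * Real.exp (-V x)) ≤
      ∑ i, (∑ j, pd i (pd j V) x * pd j u x) * pd i u x * Real.exp (-V x)
    rw [← Finset.sum_mul, ← Finset.sum_mul, ← mul_assoc]
    refine mul_le_mul_of_nonneg_right ?_ (Real.exp_pos _).le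
    have e2 : ∑ i, (∑ j, pd i (pd j V) x * pd j u x) * pd i u x =
        ∑ i, ∑ j, pd i (pd j V) x * (pd j u x * pd i u x) := by
      refine Finset.sum_congr rfl fun i _ => ?_
      rw [Finset.sum_mul]
      exact Finset.sum_congr rfl fun j _ => by ring
    rw [e2, sr_boch_quad hV (fun j => pd j u x) x]
    have h3 := hc x (∑ i, pd i u x • ej i)
    rw [sr_norm_sq] at h3
    refine le_trans (le_of_eq ?_) h3
    congr 1
    exact Finset.sum_congr rfl fun j _ => by ring
  have hfin : Ex V (fun x => LL V u x ^ 2) = ∑ j, Df V (pd j u) (pd j u) +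
      ∑ i, Ex V (fun x => (∑ j, pd i (pd j V) x * pd j u x) * pd i u x) := by
    rw [hsum, ← Finset.sum_add_distrib]
    refine Finset.sum_congr rfl fun i _ => ?_
    rw [← hterm i, hibp i, neg_neg]
  linarith


theorem ExR (hVi : Ei i V) (f : Eu n → ℝ) : Ex V (fun x => f (Rf i x)) = Ex V f := by
  have hme : MeasurableEmbedding (Rf i : Eu n → Eu n) := (Rf i).toHomeomorph.measurableEmbedding
  have h1 := ((Rf i).measurePreserving).integral_comp hme (fun x => f x * Real.exp (-V x))
  unfold Ex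
  rw [← h1]
  congr 1; funext x
  show f (Rf i x) * Real.exp (-V x) = f (Rf i x) * Real.exp (-V (Rf i x))
  rw [hVi x]

/-- the generator commutes with the reflection -/
private lemma sr_LL_comp_Rf (hV : Differentiable ℝ V) (hVe : Ei i V) (hf : TT f) (x : Eu n) :
    LL V (fun x => f (Rf i x)) x = LL V f (Rf i x) := by

  have hV' : ∀ j, pd j V x = (if j = i then -1 else 1) * pd j V (Rf i x) := by
    intro j
    have h := pd_comp_Rf hV i j x
    have h2 : (fun x => V (Rf i x)) = V := funext fun x => hVe x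
    rwa [h2] at h
  have h1 : ∀ j, pd j (fun x => f (Rf i x)) =
      fun x => (if j = i then (-1 : ℝ) else 1) * pd j f (Rf i x) := fun j =>
    funext fun x => pd_comp_Rf hf.differentiable i j x
  have h2 : ∀ j, pd j (pd j (fun x => f (Rf i x))) x = pd j (pd j f) (Rf i x) := by
    intro j
    rw [h1, pd_const_mul ((hf.pd j).comp_Rf i).differentiable,
      pd_comp_Rf (hf.pd j).differentiable i j x]
    split_ifs <;> ring
  unfold LL
  congr 1
  · exact Finset.sum_congr rfl fun j _ => h2 j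
  · refine Finset.sum_congr rfl fun j _ => ?_
    rw [h1, hV']
    dsimp only
    split_ifs <;> ring


theorem esaRi (hV : ContDiff ℝ 2 V) (I : Finset (Fin n)) (hVe : ∀ i ∈ I, Ei i V) {l : ℝ}
    (hl : 0 < l) (hg : TT g) (hge : ∀ i ∈ I, Ei i g) {ε : ℝ} (hε : 0 < ε) :
    ∃ u : Eu n → ℝ, TT u ∧ (∀ i ∈ I, Ei i u) ∧
      Ex V (fun x => (l * u x - LL V u x - g x) ^ 2) ≤ ε := by
  have hV1 : ContDiff ℝ 1 V := hV.of_le (by norm_num)
  have key : ∀ s : Finset (Fin n), s ⊆ I → ∃ u : Eu n → ℝ, TT u ∧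
      (∀ i ∈ s, ∀ x, u (Rf i x) = u x) ∧
      Ex V (fun x => (l * u x - LL V u x - g x) ^ 2) ≤ ε := by
    intro s
    induction s using Finset.induction_on with
    | empty =>
      intro _
      obtain ⟨u, hu, h⟩ := esa hV hl hg hε
      exact ⟨u, hu, by simp, h⟩
    | insert i s hi ih =>
      intro hsI
      have hiI : i ∈ I := hsI (Finset.mem_insert_self i s)
      obtain ⟨u, hu, hs, h⟩ := ih fun j hj => hsI (Finset.mem_insert_of_mem hj)
      have hw : TT (fun x => (1 / 2 : ℝ) * (u x + u (Rf i x))) :=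
        (hu.add (hu.comp_Rf i)).const_mul _
      refine ⟨_, hw, ?_, ?_⟩
      · intro j hj x
        rcases Finset.mem_insert.1 hj with rfl | hj
        · rw [Rf_Rf, add_comm]
        · rw [Rf_comm i j, hs j hj, hs j hj]
      · set r : Eu n → ℝ := fun x => l * u x - LL V u x - g x with hr
        have hrc : Continuous r :=
          ((continuous_const.mul hu.continuous).sub (esa_LL_cont hV1 hu)).sub hg.continuous
        have hrs : HasCompactSupport r := by
          refine HasCompactSupport.intro (K := tsupport u ∪ tsupport (LL V u) ∪ tsupport g)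
            ((hu.cs.isCompact.union (esa_LL_cs V hu).isCompact).union hg.cs.isCompact) ?_
          intro x hx
          simp only [mem_union, not_or] at hx
          rw [hr]
          dsimp only
          rw [image_eq_zero_of_notMem_tsupport hx.1.1, image_eq_zero_of_notMem_tsupport hx.1.2,
            image_eq_zero_of_notMem_tsupport hx.2]
          simp
        have hsq : ∀ {p : Eu n → ℝ}, Continuous p → HasCompactSupport p →
            Integrable (fun x => p x ^ 2 * Real.exp (-V x)) := by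
          intro p hp hps
          refine int_cs hV1.continuous (hp.pow 2) ?_
          have : (fun x => p x ^ 2) = fun x => p x * p x := funext fun x => sq _
          rw [this]
          exact hps.mul_left
        have hrRc : Continuous (fun x => r (Rf i x)) := hrc.comp (Rf i).continuous
        have hrRs : HasCompactSupport (fun x => r (Rf i x)) :=
          hrs.comp_homeomorph (Rf i).toHomeomorph
        have hid : ∀ x, l * ((1 / 2 : ℝ) * (u x + u (Rf i x))) -
            LL V (fun x => (1 / 2 : ℝ) * (u x + u (Rf i x))) x - g x =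
            (1 / 2) * (r x + r (Rf i x)) := by
          intro x
          rw [esa_LL_const_mul V (hu.add (hu.comp_Rf i)), esa_LL_add V hu (hu.comp_Rf i),
            sr_LL_comp_Rf (hV1.differentiable (by norm_num)) (hVe i hiI) hu, hr]
          dsimp only
          rw [hge i hiI x]
          ring
        have h2 : Ex V (fun x => r (Rf i x) ^ 2) = Ex V (fun x => r x ^ 2) :=
          ExR (hVe i hiI) (fun x => r x ^ 2)
        calc Ex V (fun x => (l * ((1 / 2 : ℝ) * (u x + u (Rf i x))) -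
            LL V (fun x => (1 / 2 : ℝ) * (u x + u (Rf i x))) x - g x) ^ 2)
            ≤ Ex V (fun x => (1 / 2) * (r x ^ 2 + r (Rf i x) ^ 2)) := by
              have hsum : Continuous (fun x => (1 / 2 : ℝ) * (r x + r (Rf i x))) :=
                continuous_const.mul (hrc.add hrRc)
              have hsums : HasCompactSupport (fun x => (1 / 2 : ℝ) * (r x + r (Rf i x))) :=
                (hrs.add hrRs).mul_left
              refine Ex_mono ?_ ?_ ?_
              · simp_rw [hid]
                exact hsq hsum hsums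
              · have h3 : (fun x => (1 / 2 : ℝ) * (r x ^ 2 + r (Rf i x) ^ 2) * Real.exp (-V x)) =
                    fun x => (1 / 2 : ℝ) * (r x ^ 2 * Real.exp (-V x) +
                      r (Rf i x) ^ 2 * Real.exp (-V x)) := by
                  funext x
                  ring
                rw [h3]
                exact ((hsq hrc hrs).add (hsq hrRc hrRs)).const_mul _
              · intro x
                rw [hid]
                nlinarith [sq_nonneg (r x - r (Rf i x))]
          _ = (1 / 2) * (Ex V (fun x => r x ^ 2) + Ex V (fun x => r (Rf i x) ^ 2)) := by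
              rw [Ex_const_mul, Ex_add (hsq hrc hrs) (hsq hrRc hrRs)]
          _ ≤ ε := by
              rw [h2]
              linarith
  obtain ⟨u, hu, hs, h⟩ := key I (Finset.Subset.refl I)
  exact ⟨u, hu, fun i hi x => hs i hi x, h⟩


/-- continuous functions with compact support -/
private def SrCC (f : Eu n → ℝ) : Prop := Continuous f ∧ HasCompactSupport f

private lemma SrCC.of (hf : TT f) : SrCC f := ⟨hf.continuous, hf.cs⟩

private lemma SrCC.add (hf : SrCC f) (hg : SrCC g) : SrCC (fun x => f x + g x) :=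
  ⟨hf.1.add hg.1, hf.2.add hg.2⟩

private lemma SrCC.cmul (hf : SrCC f) (c : ℝ) : SrCC (fun x => c * f x) :=
  ⟨continuous_const.mul hf.1, hf.2.mul_left⟩

private lemma SrCC.sub (hf : SrCC f) (hg : SrCC g) : SrCC (fun x => f x - g x) := by
  have h := hf.add (hg.cmul (-1))
  have e : (fun x => f x + -1 * g x) = fun x => f x - g x := by
    funext x; ring
  rw [e] at h
  exact h

private lemma SrCC.mul (hf : SrCC f) (hg : SrCC g) : SrCC (fun x => f x * g x) :=
  ⟨hf.1.mul hg.1, hf.2.mul_right⟩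

private lemma SrCC.sq (hf : SrCC f) : SrCC (fun x => f x ^ 2) := by
  have h := hf.mul hf
  have e : (fun x => f x * f x) = fun x => f x ^ 2 := by
    funext x; ring
  rw [e] at h
  exact h

private lemma SrCC.int (hf : SrCC f) (hV : Continuous V) :
    Integrable (fun x => f x * Real.exp (-V x)) := int_cs hV hf.1 hf.2

private lemma sr_add (hV : Continuous V) (hf : SrCC f) (hg : SrCC g) :
    Ex V (fun x => f x + g x) = Ex V f + Ex V g := Ex_add (hf.int hV) (hg.int hV)

private lemma sr_sub (hV : Continuous V) (hf : SrCC f) (hg : SrCC g) :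
    Ex V (fun x => f x - g x) = Ex V f - Ex V g := Ex_sub (hf.int hV) (hg.int hV)

/-- Cauchy-Schwarz -/
private lemma sr_cs (hV : Continuous V) (hf : SrCC f) (hg : SrCC g) :
    |Ex V (fun x => f x * g x)| ≤
      Real.sqrt (Ex V (fun x => f x ^ 2)) * Real.sqrt (Ex V (fun x => g x ^ 2)) := by
  rw [← Real.sqrt_mul (Ex_nonneg fun x => sq_nonneg _)]
  exact Real.abs_le_sqrt (Ex_cs (hf.sq.int hV) (hg.sq.int hV) ((hf.mul hg).int hV))

/-- the square of the mean -/
private lemma sr_mean (hU : GP V κ Λ S) (hf : SrCC f) :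
    (Ex V f) ^ 2 ≤ Ex V (fun x => f x ^ 2) := by
  have hV : Continuous V := hU.cd.continuous
  have h := Ex_cs (V := V) (f := f) (g := fun _ => (1 : ℝ)) (hf.sq.int hV)
    (by simpa using hU.int) (by simpa using hf.int hV)
  have e1 : (fun x : Eu n => (fun _ : Eu n => (1 : ℝ)) x ^ 2) = fun _ => 1 := by
    funext x; norm_num
  have e2 : (fun x : Eu n => f x * (fun _ : Eu n => (1 : ℝ)) x) = f := by
    funext x; simp
  rw [e1, e2, hU.mass, mul_one] at h
  exact h

private lemma sr_mean' (hU : GP V κ Λ S) (hf : SrCC f) :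
    |Ex V f| ≤ Real.sqrt (Ex V (fun x => f x ^ 2)) := Real.abs_le_sqrt (sr_mean hU hf)

/-- the real numbers of the regularisation step -/
private lemma sr_real {l ε δ B mu mg mr uu gg gu ru rg rr a cc e Q : ℝ} (hl : 0 < l)
    (hR0 : mr = l * mu - 2 * l * mg) (hRu : ru = l * uu + a - 2 * l * gu)
    (hRg : rg = l * gu + cc - 2 * l * gg)
    (hQ : Q = l ^ 2 * uu + 4 * l ^ 2 * gg + rr - 4 * l ^ 2 * gu - 2 * l * ru + 4 * l * rg)
    (hX2 : l * (gg - 2 * gu + uu - (mg - mu) ^ 2) ≤ e - 2 * cc + a)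
    (hX1 : l * (uu - mu ^ 2) ≤ a)
    (hV : (mg - mu) ^ 2 ≤ gg - 2 * gu + uu)
    (hru : |ru| ≤ δ * B) (hmr : |mr| ≤ δ) (hmu : |mu| ≤ B) (hmg : |mg| ≤ B)
    (hrg : |rg| ≤ δ * B) (hrr : rr ≤ δ ^ 2) (hδ : 0 < δ) (hB : 0 < B)
    (hε : δ * (8 * B + 8 * l * B + 1) ≤ ε) (hδ1 : δ ≤ 1) :
    e - 2 * cc + a ≤ e - l * (gg - mg ^ 2) + ε ∧
      Q - l * a ≤ l * (e - l * (gg - mg ^ 2)) + ε ∧
      a ≤ l * gg + ε := by
  have h1 : |mr * mu| ≤ δ * B := by
    rw [abs_mul]; exact mul_le_mul hmr hmu (abs_nonneg _) hδ.le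
  have h2 : |mr * mg| ≤ δ * B := by
    rw [abs_mul]; exact mul_le_mul hmr hmg (abs_nonneg _) hδ.le
  rw [abs_le] at h1 h2 hru hrg
  have hδB : 0 < δ * B := mul_pos hδ hB
  have hlδB : 0 < l * (δ * B) := mul_pos hl hδB
  have hV' : 0 ≤ l * (gg - 2 * gu + uu - (mg - mu) ^ 2) :=
    mul_nonneg hl.le (by linarith)
  -- covariances
  obtain ⟨R1, hR1⟩ : ∃ R1, R1 = ru - mr * mu := ⟨_, rfl⟩
  obtain ⟨R2, hR2⟩ : ∃ R2, R2 = rg - mr * mg := ⟨_, rfl⟩
  have b1 : R1 ≤ 2 * (δ * B) := by rw [hR1]; linarith [h1.1, hru.2]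
  have b1' : -(2 * (δ * B)) ≤ R1 := by rw [hR1]; linarith [h1.2, hru.1]
  have b2 : R2 ≤ 2 * (δ * B) := by rw [hR2]; linarith [h2.1, hrg.2]
  have b2' : -(2 * (δ * B)) ≤ R2 := by rw [hR2]; linarith [h2.2, hrg.1]
  have hε' : 8 * (δ * B) + 8 * (l * (δ * B)) + δ ≤ ε := by
    calc 8 * (δ * B) + 8 * (l * (δ * B)) + δ = δ * (8 * B + 8 * l * B + 1) := by ring
      _ ≤ ε := hε
  refine ⟨?_, ?_, ?_⟩
  · have id1 : 2 * cc - a - l * (gg - mg ^ 2) =
        3 * (l * (gg - 2 * gu + uu - (mg - mu) ^ 2)) + (a - l * (uu - mu ^ 2))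
          + 2 * R2 - 2 * R1 := by
      rw [hR1, hR2, hRu, hRg, hR0]; ring
    linarith
  · have id2 : Q - l * a = l * (e - l * (gg - mg ^ 2))
        - l * ((e - 2 * cc + a) - l * (gg - 2 * gu + uu - (mg - mu) ^ 2))
          + 2 * (l * R2) - 2 * (l * R1) + (rr - mr ^ 2) := by
      rw [hQ, hR1, hR2, hRu, hRg, hR0]; ring
    have c1 : l * R2 ≤ l * (2 * (δ * B)) := mul_le_mul_of_nonneg_left b2 hl.le
    have c2 : l * (-(2 * (δ * B))) ≤ l * R1 := mul_le_mul_of_nonneg_left b1' hl.le
    have c3 : 0 ≤ l * ((e - 2 * cc + a) - l * (gg - 2 * gu + uu - (mg - mu) ^ 2)) :=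
      mul_nonneg hl.le (by linarith)
    have c4 : δ ^ 2 ≤ δ := by nlinarith
    have c5 : 0 ≤ mr ^ 2 := sq_nonneg _
    have c6 : l * (2 * (δ * B)) = 2 * (l * (δ * B)) := by ring
    have c7 : l * (-(2 * (δ * B))) = -(2 * (l * (δ * B))) := by ring
    rw [c6] at c1
    rw [c7] at c2
    linarith
  · have id3 : a = l * (gg - mg ^ 2) - l * (gg - 2 * gu + uu - (mg - mu) ^ 2) + R1 := by
      rw [hR1, hRu, hR0]; ring
    have c5 : 0 ≤ l * mg ^ 2 := mul_nonneg hl.le (sq_nonneg _)
    have c6 : l * (gg - mg ^ 2) = l * gg - l * mg ^ 2 := by ring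
    rw [c6] at id3
    linarith


/-- the last clause of the regularisation step -/
private lemma sr_last (hU : GP V κ Λ S) {l δ : ℝ} (hδ : 0 < δ) (hg : TT g) (hu : TT u)
    {r : Eu n → ℝ} (hr : r = fun x => l * u x - LL V u x - 2 * l * g x)
    (hrr : Ex V (fun x => r x ^ 2) ≤ δ ^ 2) (j : Fin n) :
    |Ex V (pd j u) - l * Ex V (fun x => x j * (2 * g x - u x))| ≤ Real.sqrt S * δ := by
  have hV : Continuous V := hU.cd.continuous
  have hV1 : ContDiff ℝ 1 V := hU.cd.of_le (by norm_num)
  have hS : 0 < S := hU.Spos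
  have cu : SrCC u := SrCC.of hu
  have cg : SrCC g := SrCC.of hg
  have cL : SrCC (LL V u) := LL_cont hV1 hu
  have cr : SrCC r := by
    rw [hr]; exact ((cu.cmul l).sub cL).sub (cg.cmul (2 * l))
  -- the coordinate function
  have hxc : Continuous fun x : Eu n => x j := by fun_prop
  have hxd : ContDiff ℝ 1 fun x : Eu n => x j := by fun_prop
  have hpx : ∀ k (x : Eu n), pd k (fun x : Eu n => x j) x = if k = j then 1 else 0 := by
    intro k x
    have h1 : HasFDerivAt (fun x : Eu n => x j)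
        (EuclideanSpace.proj (𝕜 := ℝ) j : Eu n →L[ℝ] ℝ) x :=
      (EuclideanSpace.proj (𝕜 := ℝ) j : Eu n →L[ℝ] ℝ).hasFDerivAt
    unfold pd
    rw [h1.fderiv]
    by_cases hk : k = j
    · subst hk; simp [ej]
    · simp [ej, hk, Ne.symm hk]
  have hmul : ∀ {h : Eu n → ℝ}, SrCC h → SrCC (fun x : Eu n => x j * h x) := fun hh =>
    ⟨hxc.mul hh.1, hh.2.mul_left⟩
  have hpdV : ∀ k, Continuous (pd k V) := fun k =>
    (pd_contDiff (m := 0) hV1 (by norm_num) k).continuous
  have cpd : ∀ k, SrCC (fun x => pd k (pd k u) x - pd k V x * pd k u x) := fun k =>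
    ⟨((hu.pd k).pd k).continuous.sub ((hpdV k).mul (hu.pd k).continuous),
      ((hu.pd k).pd k).cs.sub (hu.pd k).cs.mul_left⟩
  -- integration by parts
  have hib : Ex V (pd j u) = - Ex V (fun x => x j * LL V u x) := by
    have h1 : ∀ k, Ex V (fun x => pd k (fun x : Eu n => x j) x * pd k u x) =
        - Ex V (fun x => x j * (pd k (pd k u) x - pd k V x * pd k u x)) := fun k =>
      ibp hV1 hxd ((hu.pd k).cd.of_le (by exact_mod_cast le_top)) (hu.pd k).cs k
    have h2 : ∑ k, Ex V (fun x => pd k (fun x : Eu n => x j) x * pd k u x) = Ex V (pd j u) := by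
      rw [Finset.sum_eq_single j]
      · congr 1
        funext x
        rw [hpx]; simp
      · intro k _ hk
        have : (fun x => pd k (fun x : Eu n => x j) x * pd k u x) = fun _ => (0 : ℝ) := by
          funext x
          rw [hpx]; simp [hk]
        rw [this]
        unfold Ex
        simp
      · intro h; exact absurd (Finset.mem_univ j) h
    rw [← h2]
    rw [Finset.sum_congr rfl fun k _ => h1 k, Finset.sum_neg_distrib]
    congr 1
    rw [← Ex_sum (V := V) Finset.univ
      (F := fun k x => x j * (pd k (pd k u) x - pd k V x * pd k u x))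
      fun k _ => (hmul (cpd k)).int hV]
    congr 1
    funext x
    rw [← Finset.mul_sum, Finset.sum_sub_distrib]
    rfl
  have e1 : (fun x : Eu n => x j * LL V u x) =
      fun x => (l * (x j * u x) - 2 * l * (x j * g x)) - x j * r x := by
    funext x
    rw [hr]
    ring
  have e2 : (fun x : Eu n => x j * (2 * g x - u x)) =
      fun x => 2 * (x j * g x) - x j * u x := by
    funext x; ring
  have c1 : SrCC (fun x : Eu n => x j * u x) := hmul cu
  have c2 : SrCC (fun x : Eu n => x j * g x) := hmul cg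
  have c3 : SrCC (fun x : Eu n => x j * r x) := hmul cr
  have h3 : Ex V (pd j u) - l * Ex V (fun x => x j * (2 * g x - u x)) =
      Ex V (fun x => x j * r x) := by
    rw [hib, e1, e2, sr_sub hV ((c1.cmul l).sub (c2.cmul (2 * l))) c3,
      sr_sub hV (c1.cmul l) (c2.cmul (2 * l)), sr_sub hV (c2.cmul 2) c1, Ex_const_mul,
      Ex_const_mul, Ex_const_mul]
    ring
  rw [h3]
  -- Cauchy-Schwarz
  have hx2 : Integrable (fun x : Eu n => x j ^ 2 * Real.exp (-V x)) := by
    refine hU.momi.mono' ?_ (Eventually.of_forall fun x => ?_)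
    · exact ((hxc.pow 2).mul (Real.continuous_exp.comp hV.neg)).aestronglyMeasurable
    · rw [Real.norm_of_nonneg (by positivity)]
      refine mul_le_mul_of_nonneg_right ?_ (Real.exp_pos _).le
      have := EuclideanSpace.norm_sq_eq x
      rw [this]
      have h4 := Finset.single_le_sum (f := fun k => ‖x k‖ ^ 2) (fun k _ => sq_nonneg _)
        (Finset.mem_univ j)
      simpa using h4
  have hcs := Ex_cs (V := V) (f := fun x : Eu n => x j) (g := r) hx2 (cr.sq.int hV) (c3.int hV)
  have hm : Ex V (fun x : Eu n => x j ^ 2) ≤ S := by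
    have h5 := hU.mom (ej j)
    have h6 : (fun x : Eu n => inner ℝ x (ej j) ^ 2) = fun x => x j ^ 2 := by
      funext x
      simp [ej, EuclideanSpace.inner_single_right]
    rw [h6, ej_norm] at h5
    simpa using h5
  have h7 : (Ex V (fun x => x j * r x)) ^ 2 ≤ (Real.sqrt S * δ) ^ 2 := by
    refine hcs.trans ?_
    rw [mul_pow, Real.sq_sqrt hS.le]
    exact mul_le_mul hm hrr (Ex_nonneg fun x => sq_nonneg _) hS.le
  have h8 : 0 ≤ Real.sqrt S * δ := mul_nonneg (Real.sqrt_nonneg _) hδ.le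
  exact abs_le_of_sq_le_sq h7 h8

/-- the regularisation step, `l = 1 / c` -/
theorem stepR (hU : GP V κ Λ S) {c : ℝ} (hc : 0 < c) (hP : HP V c) (I : Finset (Fin n))
    (hVe : ∀ i ∈ I, Ei i V) (hg : TT g) (hge : ∀ i ∈ I, Ei i g) {ε : ℝ} (hε : 0 < ε) :
    ∃ u : Eu n → ℝ, TT u ∧ (∀ i ∈ I, Ei i u) ∧
      Df V (fun x => g x - u x) (fun x => g x - u x) ≤ Sf V (1 / c) g + ε ∧
      (∑ j, (Df V (pd j u) (pd j u) - (1 / c) * Ex V (fun x => pd j u x ^ 2))) + κ * Df V u u ≤
        (1 / c) * Sf V (1 / c) g + ε ∧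
      Df V u u ≤ (1 / c) * Ex V (fun x => g x ^ 2) + ε ∧
      ∀ j, |Ex V (pd j u) - (1 / c) * Ex V (fun x => x j * (2 * g x - u x))| ≤ ε := by
  have hV : Continuous V := hU.cd.continuous
  have hV1 : ContDiff ℝ 1 V := hU.cd.of_le (by norm_num)
  set l : ℝ := 1 / c with hldef
  have hl : 0 < l := by rw [hldef]; positivity
  have hlc : l * c = 1 := by rw [hldef]; field_simp
  obtain ⟨G, hG⟩ : ∃ G, G = Real.sqrt (Ex V (fun x => g x ^ 2)) := ⟨_, rfl⟩
  have hG0 : 0 ≤ G := by rw [hG]; exact Real.sqrt_nonneg _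
  obtain ⟨B, hBdef⟩ : ∃ B, B = 2 * G + 1 / l := ⟨_, rfl⟩
  have hB : 0 < B := by rw [hBdef]; positivity
  have hS : 0 < S := hU.Spos
  obtain ⟨D, hDdef⟩ : ∃ D, D = 8 * B + 8 * l * B + 1 + Real.sqrt S := ⟨_, rfl⟩
  have hD : 0 < D := by rw [hDdef]; positivity
  obtain ⟨δ, hδdef⟩ : ∃ δ, δ = ε / (D + ε) := ⟨_, rfl⟩
  have hδ : 0 < δ := by rw [hδdef]; positivity
  have hδ1 : δ ≤ 1 := by
    rw [hδdef, div_le_one (by positivity)]; linarith
  have hδε : δ * D ≤ ε := by
    rw [hδdef, div_mul_eq_mul_div, div_le_iff₀ (by positivity)]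
    nlinarith
  have hg2 : TT (fun x => 2 * l * g x) := hg.const_mul (2 * l)
  have hge2 : ∀ i ∈ I, Ei i (fun x => 2 * l * g x) := fun i hi x => by
    show 2 * l * g (Rf i x) = 2 * l * g x
    rw [hge i hi x]
  obtain ⟨u, hu, hue, hres⟩ := esaRi hU.cd I hVe hl hg2 hge2 (pow_pos hδ 2)
  obtain ⟨r, hr⟩ : ∃ r : Eu n → ℝ, r = fun x => l * u x - LL V u x - 2 * l * g x := ⟨_, rfl⟩
  have cu : SrCC u := SrCC.of hu
  have cg : SrCC g := SrCC.of hg
  have cL : SrCC (LL V u) := LL_cont hV1 hu
  have cr : SrCC r := by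
    rw [hr]; exact ((cu.cmul l).sub cL).sub (cg.cmul (2 * l))
  -- the mean of r
  have hLL0 : Ex V (LL V u) = 0 := Ex_LL hV1 hu
  have hR0 : Ex V r = l * Ex V u - 2 * l * Ex V g := by
    rw [hr, sr_sub hV ((cu.cmul l).sub cL) (cg.cmul (2 * l)), sr_sub hV (cu.cmul l) cL,
      Ex_const_mul, Ex_const_mul, hLL0]
    ring
  -- green
  have hgr : ∀ ψ : Eu n → ℝ, TT ψ → Ex V (fun x => r x * ψ x) =
      l * Ex V (fun x => u x * ψ x) + Df V u ψ - 2 * l * Ex V (fun x => g x * ψ x) := by
    intro ψ hψ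
    have cψ : SrCC ψ := SrCC.of hψ
    have e1 : (fun x => r x * ψ x) = fun x => (l * (u x * ψ x) - LL V u x * ψ x)
        - 2 * l * (g x * ψ x) := by
      funext x; rw [hr]; ring
    rw [e1, sr_sub hV (((cu.mul cψ).cmul l).sub (cL.mul cψ)) ((cg.mul cψ).cmul (2 * l)),
      sr_sub hV ((cu.mul cψ).cmul l) (cL.mul cψ), Ex_const_mul, Ex_const_mul,
      green hV1 hu hψ]
    ring
  have hRu : Ex V (fun x => r x * u x) = l * Ex V (fun x => u x ^ 2) + Df V u u
      - 2 * l * Ex V (fun x => g x * u x) := by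
    have h := hgr u hu
    have e1 : (fun x => u x * u x) = fun x => u x ^ 2 := by funext x; ring
    rw [e1] at h
    exact h
  have hRg : Ex V (fun x => r x * g x) = l * Ex V (fun x => g x * u x) + Df V g u
      - 2 * l * Ex V (fun x => g x ^ 2) := by
    have h := hgr g hg
    have e1 : (fun x => g x * g x) = fun x => g x ^ 2 := by funext x; ring
    have e2 : (fun x => u x * g x) = fun x => g x * u x := by funext x; ring
    rw [e1, e2, Df_comm] at h
    exact h
  have hrr : Ex V (fun x => r x ^ 2) ≤ δ ^ 2 := by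
    rw [hr]; exact hres
  -- the second moment of L u
  have hQ : Ex V (fun x => LL V u x ^ 2) = l ^ 2 * Ex V (fun x => u x ^ 2)
      + 4 * l ^ 2 * Ex V (fun x => g x ^ 2) + Ex V (fun x => r x ^ 2)
      - 4 * l ^ 2 * Ex V (fun x => g x * u x) - 2 * l * Ex V (fun x => r x * u x)
      + 4 * l * Ex V (fun x => r x * g x) := by
    have e1 : (fun x => LL V u x ^ 2) = fun x => ((((l ^ 2 * u x ^ 2 + 4 * l ^ 2 * g x ^ 2)
        + r x ^ 2) - 4 * l ^ 2 * (g x * u x)) - 2 * l * (r x * u x)) + 4 * l * (r x * g x) := by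
      funext x; rw [hr]; ring
    have c1 := cu.sq.cmul (l ^ 2)
    have c2 := cg.sq.cmul (4 * l ^ 2)
    have c3 := cr.sq
    have c4 := (cg.mul cu).cmul (4 * l ^ 2)
    have c5 := (cr.mul cu).cmul (2 * l)
    have c6 := (cr.mul cg).cmul (4 * l)
    rw [e1, sr_add hV ((((c1.add c2).add c3).sub c4).sub c5) c6,
      sr_sub hV (((c1.add c2).add c3).sub c4) c5, sr_sub hV ((c1.add c2).add c3) c4,
      sr_add hV (c1.add c2) c3, sr_add hV c1 c2, Ex_const_mul, Ex_const_mul, Ex_const_mul,
      Ex_const_mul, Ex_const_mul]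
  -- the Poincare inequality for even functions
  have hX : ∀ ψ : Eu n → ℝ, TT ψ →
      l * (Ex V (fun x => ψ x ^ 2) - (Ex V ψ) ^ 2) ≤ Df V ψ ψ := by
    intro ψ hψ
    have h := mul_le_mul_of_nonneg_left (hP ψ hψ) hl.le
    rw [← mul_assoc, hlc, one_mul] at h
    exact h
  have hgu : TT (fun x => g x - u x) := hg.sub hu
  have hvar : Ex V (fun x => (g x - u x) ^ 2) = Ex V (fun x => g x ^ 2)
      - 2 * Ex V (fun x => g x * u x) + Ex V (fun x => u x ^ 2) := by
    have e1 : (fun x => (g x - u x) ^ 2) = fun x => (g x ^ 2 - 2 * (g x * u x)) + u x ^ 2 := by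
      funext x; ring
    rw [e1, sr_add hV (cg.sq.sub ((cg.mul cu).cmul 2)) cu.sq,
      sr_sub hV cg.sq ((cg.mul cu).cmul 2), Ex_const_mul]
  have hmean : Ex V (fun x => g x - u x) = Ex V g - Ex V u := sr_sub hV cg cu
  have hX1 := hX u hu
  have hX2 := hX _ hgu
  rw [hvar, hmean, Df_sub hV hg hu] at hX2
  have hVn := sr_mean hU (cg.sub cu)
  rw [hvar, hmean] at hVn
  -- bounds
  obtain ⟨sr, hsr⟩ : ∃ s, s = Real.sqrt (Ex V (fun x => r x ^ 2)) := ⟨_, rfl⟩
  obtain ⟨su, hsu⟩ : ∃ s, s = Real.sqrt (Ex V (fun x => u x ^ 2)) := ⟨_, rfl⟩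
  have hsr0 : 0 ≤ sr := by rw [hsr]; exact Real.sqrt_nonneg _
  have hsu0 : 0 ≤ su := by rw [hsu]; exact Real.sqrt_nonneg _
  have hsrδ : sr ≤ δ := by
    rw [hsr]; exact (Real.sqrt_le_sqrt hrr).trans (by rw [Real.sqrt_sq hδ.le])
  have hsu2 : su ^ 2 = Ex V (fun x => u x ^ 2) := by
    rw [hsu]; exact Real.sq_sqrt (Ex_nonneg fun x => sq_nonneg _)
  have hru1 : |Ex V (fun x => r x * u x)| ≤ sr * su := by
    rw [hsr, hsu]; exact sr_cs hV cr cu
  have hrg1 : |Ex V (fun x => r x * g x)| ≤ sr * G := by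
    rw [hsr, hG]; exact sr_cs hV cr cg
  have hgu1 : |Ex V (fun x => g x * u x)| ≤ G * su := by
    rw [hsu, hG]; exact sr_cs hV cg cu
  have hsuB : su ≤ B := by
    by_cases h0 : su = 0
    · rw [h0]; exact hB.le
    have hpos : 0 < su := lt_of_le_of_ne hsu0 (Ne.symm h0)
    have hDf : 0 ≤ Df V u u := Df_nonneg V u
    rw [← hsu2] at hRu
    have h1 : l * su ^ 2 ≤ sr * su + 2 * l * (G * su) := by
      have h2 := le_abs_self (Ex V (fun x => r x * u x))
      have h3 := le_abs_self (Ex V (fun x => g x * u x))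
      have h4 : 2 * l * Ex V (fun x => g x * u x) ≤ 2 * l * (G * su) :=
        mul_le_mul_of_nonneg_left (h3.trans hgu1) (by positivity)
      linarith
    have h5 : l * su ≤ sr + 2 * l * G := by
      have h6 : (l * su) * su ≤ (sr + 2 * l * G) * su := by nlinarith
      exact le_of_mul_le_mul_right h6 hpos
    have h7 : l * su ≤ l * B := by
      have h8 : l * B = 2 * l * G + 1 := by
        rw [hBdef]; field_simp
      rw [h8]; linarith
    exact le_of_mul_le_mul_left h7 hl
  have hGB : G ≤ B := by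
    rw [hBdef]
    have : 0 < 1 / l := by positivity
    linarith
  have hru : |Ex V (fun x => r x * u x)| ≤ δ * B :=
    hru1.trans (mul_le_mul hsrδ hsuB hsu0 hδ.le)
  have hrg : |Ex V (fun x => r x * g x)| ≤ δ * B :=
    hrg1.trans (mul_le_mul hsrδ hGB hG0 hδ.le)
  have hmr : |Ex V r| ≤ δ := (sr_mean' hU cr).trans (by rw [← hsr]; exact hsrδ)
  have hmu : |Ex V u| ≤ B := (sr_mean' hU cu).trans (by rw [← hsu]; exact hsuB)
  have hmg : |Ex V g| ≤ B := (sr_mean' hU cg).trans (by rw [← hG]; exact hGB)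
  have hDε : δ * (8 * B + 8 * l * B + 1) ≤ ε := by
    refine le_trans (mul_le_mul_of_nonneg_left ?_ hδ.le) hδε
    rw [hDdef]
    have := Real.sqrt_nonneg S
    linarith
  have hDε2 : Real.sqrt S * δ ≤ ε := by
    refine le_trans ?_ hδε
    rw [mul_comm δ D]
    refine mul_le_mul_of_nonneg_right ?_ hδ.le
    rw [hDdef]
    have h8 : 0 < 8 * l * B := by positivity
    linarith
  have hfin := sr_real hl hR0 hRu hRg hQ hX2 hX1 hVn hru hmr hmu hmg hrg hrr hδ hB
    hDε hδ1
  obtain ⟨f1, f2, f3⟩ := hfin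
  refine ⟨u, hu, hue, ?_, ?_, f3, ?_⟩
  · rw [Df_sub hV hg hu]
    exact f1
  · have hb := bochR hU.cd hU.conv hu
    have e1 : ∑ j, (Df V (pd j u) (pd j u) - l * Ex V (fun x => pd j u x ^ 2)) =
        ∑ j, Df V (pd j u) (pd j u) - l * Df V u u := by
      rw [Finset.sum_sub_distrib, ← Finset.mul_sum, Df]
      congr 2
      refine Finset.sum_congr rfl fun j _ => ?_
      congr 1
      funext x
      ring
    rw [e1]
    have f2' : Ex V (fun x => LL V u x ^ 2) - l * Df V u u ≤ l * Sf V l g + ε := f2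
    linarith
  · intro j
    exact (sr_last hU hδ hg hu hr hrr j).trans hDε2

end Pool.Agent.Lib.MP_6d896a_gt.UC.UR
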