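import Mathlib

/-!
Project UR, piece R6: absorption (pure real analysis).
-/

set_option autoImplicit false
set_option linter.unusedVariables false

namespace Pool.Agent.Lib.MP_6d896a_gt.UC.UR

open MeasureTheory Filter Topology Set

private lemma geoR {r : ℝ} (hr0 : 0 ≤ r) (hr : r ≤ 1 / 2) (n : ℕ) :
    ∑ k ∈ Finset.range n, r ^ k ≤ 2 - 2 * (1 / 2) ^ n := by
  induction n with
  | zero => simp
  | succ n ih =>
    rw [Finset.sum_range_succ]
    have h1 : r ^ n ≤ (1 / 2) ^ n := pow_le_pow_left₀ hr0 hr n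
    have h2 : (1 / 2 : ℝ) ^ (n + 1) = (1 / 2) ^ n / 2 := by rw [pow_succ]; ring
    rw [h2]
    linarith

private lemma geoR' {r : ℝ} (hr0 : 0 ≤ r) (hr : r ≤ 1 / 2) (i m : ℕ) :
    ∑ j ∈ Finset.Ico i m, r ^ (j - i + 1) ≤ 2 * r := by
  rw [Finset.sum_Ico_eq_sum_range]
  have h1 : ∀ k, r ^ (i + k - i + 1) = r * r ^ k := fun k => by
    rw [Nat.add_sub_cancel_left, pow_succ]; ring
  simp only [h1]
  rw [← Finset.mul_sum, mul_comm 2 r]
  refine mul_le_mul_of_nonneg_left ?_ hr0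
  refine (geoR hr0 hr (m - i)).trans ?_
  have : (0 : ℝ) ≤ (1 / 2) ^ (m - i) := by positivity
  linarith

/-- one step of the absorption -/
private lemma absorbR_step {K δ s0 N a0 : ℝ} (hK : 1 ≤ K) (hδ0 : 0 < δ)
    (hδ : 64 * Real.sqrt K * δ ≤ 1) (hs00 : 0 ≤ s0) (hN : 0 ≤ N) (ha0 : 0 ≤ a0) (m : ℕ) {τ : ℝ}
    (hτ : 0 < τ) (a s : ℕ → ℝ) (ha : a0 ≤ a 0) (hs0 : s 0 = s0) (han : ∀ j, 0 ≤ a j)
    (hsn : ∀ j, 0 ≤ s j)
    (hs : ∀ j, j < m → s (j + 1) ≤ 4 * (s j + a j ^ 2 + a (j + 1) ^ 2) + τ)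
    (hi : ∀ i, i ≤ m → a i ≤ Real.sqrt K * (∑ j ∈ Finset.Ico i m, δ ^ (j - i + 1) *
        (Real.sqrt (s j + τ) + τ) + δ ^ (m - i) * Real.sqrt (N + τ))) :
    a0 ≤ (Real.sqrt s0 + (Real.sqrt τ + τ)) / 16 +
      2 * Real.sqrt K * (1 / 4) ^ m * Real.sqrt (N + τ) := by
  have hS1 : 1 ≤ Real.sqrt K := by
    rw [← Real.sqrt_one]; exact Real.sqrt_le_sqrt hK
  set S := Real.sqrt K with hSdef
  have hδ8 : δ ≤ 1 / 64 := by nlinarith
  -- the maximum
  obtain ⟨i0, hi0m, hmax⟩ := Finset.exists_max_image (Finset.range (m + 1))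
    (fun i => (1 / 4 : ℝ) ^ i * a i) ⟨0, Finset.mem_range.2 (Nat.succ_pos m)⟩
  set M : ℝ := (1 / 4 : ℝ) ^ i0 * a i0 with hM
  have hM0 : 0 ≤ M := mul_nonneg (by positivity) (han i0)
  have hbM : ∀ i ≤ m, a i ≤ 4 ^ i * M := by
    intro i hi'
    have h1 := hmax i (Finset.mem_range.2 (Nat.lt_succ_of_le hi'))
    have h2 : (4 : ℝ) ^ i * ((1 / 4 : ℝ) ^ i * a i) = a i := by
      rw [← mul_assoc, ← mul_pow]; norm_num
    rw [← h2]
    exact mul_le_mul_of_nonneg_left h1 (by positivity)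
  set σ : ℝ := Real.sqrt s0 with hσ
  have hσ0 : 0 ≤ σ := Real.sqrt_nonneg _
  set t : ℝ := Real.sqrt τ with ht
  have ht0 : 0 ≤ t := Real.sqrt_nonneg _
  have ht2 : t ^ 2 = τ := Real.sq_sqrt hτ.le
  have hsj : ∀ j ≤ m, Real.sqrt (s j) ≤ 2 ^ j * σ + 5 * 4 ^ j * M + (2 ^ j - 1) * t := by
    intro j
    induction j with
    | zero =>
      intro _
      rw [hs0]
      simp only [pow_zero, one_mul, mul_one, sub_self, zero_mul, add_zero]
      linarith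
    | succ j ih =>
      intro hj
      have h1 := hs j hj
      have h2 := ih (Nat.le_of_succ_le hj)
      have h3 := hbM j (Nat.le_of_succ_le hj)
      have h4 := hbM (j + 1) hj
      have h5 : Real.sqrt (s (j + 1)) ≤
          2 * Real.sqrt (s j) + 2 * a j + 2 * a (j + 1) + t := by
        have g1 := Real.sqrt_nonneg (s j)
        have g2 := han j
        have g3 := han (j + 1)
        have g4 := Real.sq_sqrt (hsn j)
        rw [Real.sqrt_le_left (by positivity)]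
        nlinarith [mul_nonneg g1 g2, mul_nonneg g1 g3, mul_nonneg g2 g3, mul_nonneg g1 ht0,
          mul_nonneg g2 ht0, mul_nonneg g3 ht0]
      have e1 : (2 : ℝ) ^ (j + 1) = 2 * 2 ^ j := by rw [pow_succ]; ring
      have e2 : (4 : ℝ) ^ (j + 1) = 4 * 4 ^ j := by rw [pow_succ]; ring
      rw [e2] at h4
      rw [e1, e2]
      linarith
  have hsq : ∀ j < m, Real.sqrt (s j + τ) + τ ≤
      2 ^ j * (σ + t) + 5 * 4 ^ j * M + τ := by
    intro j hj
    have h1 := hsj j hj.le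
    have h2 : Real.sqrt (s j + τ) ≤ Real.sqrt (s j) + t := by
      have g1 := Real.sqrt_nonneg (s j)
      have g4 := Real.sq_sqrt (hsn j)
      rw [Real.sqrt_le_left (by positivity)]
      nlinarith [mul_nonneg g1 ht0]
    linarith
  -- the main inequality at the maximum
  have hi0 : i0 ≤ m := Nat.lt_succ_iff.1 (Finset.mem_range.1 hi0m)
  have hmain := hi i0 hi0
  have hsum : ∑ j ∈ Finset.Ico i0 m, δ ^ (j - i0 + 1) * (Real.sqrt (s j + τ) + τ) ≤
      2 * δ * (2 ^ i0 * (σ + t)) + 10 * δ * (4 ^ i0 * M) + 2 * δ * τ := by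
    calc ∑ j ∈ Finset.Ico i0 m, δ ^ (j - i0 + 1) * (Real.sqrt (s j + τ) + τ)
        ≤ ∑ j ∈ Finset.Ico i0 m, ((2 * δ) ^ (j - i0 + 1) * (2 ^ i0 * (σ + t) / 2) +
          (4 * δ) ^ (j - i0 + 1) * (5 * (4 ^ i0 * M) / 4) + δ ^ (j - i0 + 1) * τ) := by
          refine Finset.sum_le_sum fun j hj => ?_
          obtain ⟨hj1, hj2⟩ := Finset.mem_Ico.1 hj
          have h1 := hsq j hj2
          have h2 : (2 : ℝ) ^ j = 2 ^ (j - i0 + 1) * 2 ^ i0 / 2 := by
            rw [← pow_add]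
            have : j - i0 + 1 + i0 = j + 1 := by omega
            rw [this, pow_succ]
            ring
          have h2' : (4 : ℝ) ^ j = 4 ^ (j - i0 + 1) * 4 ^ i0 / 4 := by
            rw [← pow_add]
            have : j - i0 + 1 + i0 = j + 1 := by omega
            rw [this, pow_succ]
            ring
          have h3 : (0 : ℝ) ≤ δ ^ (j - i0 + 1) := by positivity
          calc δ ^ (j - i0 + 1) * (Real.sqrt (s j + τ) + τ)
              ≤ δ ^ (j - i0 + 1) * (2 ^ j * (σ + t) + 5 * 4 ^ j * M + τ) :=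
                mul_le_mul_of_nonneg_left h1 h3
            _ = _ := by rw [h2, h2', mul_pow, mul_pow]; ring
      _ = (∑ j ∈ Finset.Ico i0 m, (2 * δ) ^ (j - i0 + 1)) * (2 ^ i0 * (σ + t) / 2) +
          (∑ j ∈ Finset.Ico i0 m, (4 * δ) ^ (j - i0 + 1)) * (5 * (4 ^ i0 * M) / 4) +
          (∑ j ∈ Finset.Ico i0 m, δ ^ (j - i0 + 1)) * τ := by
          rw [Finset.sum_add_distrib, Finset.sum_add_distrib, Finset.sum_mul, Finset.sum_mul,
            Finset.sum_mul]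
      _ ≤ (2 * (2 * δ)) * (2 ^ i0 * (σ + t) / 2) + (2 * (4 * δ)) * (5 * (4 ^ i0 * M) / 4) +
          (2 * δ) * τ := by
          have h1 := geoR' hδ0.le (by linarith) i0 m
          have h2 := geoR' (r := 2 * δ) (by linarith) (by linarith) i0 m
          have h3 := geoR' (r := 4 * δ) (by linarith) (by linarith) i0 m
          have h4 : 0 ≤ 2 ^ i0 * (σ + t) / 2 := by positivity
          have h5 : 0 ≤ 5 * (4 ^ i0 * M) / 4 := by positivity
          exact add_le_add (add_le_add (mul_le_mul_of_nonneg_right h2 h4)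
            (mul_le_mul_of_nonneg_right h3 h5)) (mul_le_mul_of_nonneg_right h1 hτ.le)
      _ = _ := by ring
  have hNs : 0 ≤ Real.sqrt (N + τ) := Real.sqrt_nonneg _
  have hpow : (1 / 4 : ℝ) ^ i0 * δ ^ (m - i0) ≤ (1 / 4) ^ m := by
    have h1 : δ ^ (m - i0) ≤ (1 / 4 : ℝ) ^ (m - i0) :=
      pow_le_pow_left₀ hδ0.le (by linarith) _
    calc (1 / 4 : ℝ) ^ i0 * δ ^ (m - i0) ≤ (1 / 4) ^ i0 * (1 / 4) ^ (m - i0) :=
          mul_le_mul_of_nonneg_left h1 (by positivity)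
      _ = (1 / 4) ^ m := by rw [← pow_add]; congr 1; omega
  have hp1 : (1 / 4 : ℝ) ^ i0 ≤ 1 := pow_le_one₀ (by norm_num) (by norm_num)
  have hp2 : (1 / 4 : ℝ) ^ i0 * 2 ^ i0 ≤ 1 := by
    rw [← mul_pow]
    exact pow_le_one₀ (by norm_num) (by norm_num)
  have hp4 : (1 / 4 : ℝ) ^ i0 * 4 ^ i0 = 1 := by
    rw [← mul_pow]
    norm_num
  have hst : 0 ≤ σ + t := by positivity
  have hM1 : M ≤ S * (2 * δ * (σ + t) + 10 * δ * M + 2 * δ * τ +
      (1 / 4) ^ m * Real.sqrt (N + τ)) := by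
    calc M ≤ (1 / 4 : ℝ) ^ i0 * (S * ((2 * δ * (2 ^ i0 * (σ + t)) + 10 * δ * (4 ^ i0 * M) +
          2 * δ * τ) + δ ^ (m - i0) * Real.sqrt (N + τ))) := by
          refine mul_le_mul_of_nonneg_left (hmain.trans ?_) (by positivity)
          exact mul_le_mul_of_nonneg_left (by linarith) (by linarith)
      _ = S * (2 * δ * (((1 / 4 : ℝ) ^ i0 * 2 ^ i0) * (σ + t)) +
          10 * δ * (((1 / 4 : ℝ) ^ i0 * 4 ^ i0) * M) + 2 * δ * ((1 / 4 : ℝ) ^ i0 * τ) +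
          ((1 / 4 : ℝ) ^ i0 * δ ^ (m - i0)) * Real.sqrt (N + τ)) := by ring
      _ ≤ _ := by
          rw [hp4, one_mul]
          refine mul_le_mul_of_nonneg_left ?_ (by linarith)
          have g1 : ((1 / 4 : ℝ) ^ i0 * 2 ^ i0) * (σ + t) ≤ σ + t := by nlinarith
          have g2 : (1 / 4 : ℝ) ^ i0 * τ ≤ τ := by nlinarith
          have g3 := mul_le_mul_of_nonneg_right hpow hNs
          have g4 := mul_le_mul_of_nonneg_left g1 (by positivity : 0 ≤ 2 * δ)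
          have g5 := mul_le_mul_of_nonneg_left g2 (by positivity : 0 ≤ 2 * δ)
          linarith
  have hSδ : S * δ ≤ 1 / 64 := by linarith
  have hM2 : M ≤ (σ + (t + τ)) / 32 + M / 4 + S * ((1 / 4) ^ m * Real.sqrt (N + τ)) := by
    have h2 : S * (2 * δ * (σ + t) + 10 * δ * M + 2 * δ * τ + (1 / 4) ^ m * Real.sqrt (N + τ)) =
        (S * δ) * (2 * (σ + t) + 10 * M + 2 * τ) + S * ((1 / 4) ^ m * Real.sqrt (N + τ)) := by
      ring
    have h3 : (S * δ) * (2 * (σ + t) + 10 * M + 2 * τ) ≤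
        1 / 64 * (2 * (σ + t) + 10 * M + 2 * τ) :=
      mul_le_mul_of_nonneg_right hSδ (by positivity)
    linarith [hM1]
  have hbz : a0 ≤ M := by
    have h1 := hmax 0 (Finset.mem_range.2 (Nat.succ_pos m))
    simp only [pow_zero, one_mul] at h1
    exact ha.trans h1
  have h7 : 0 ≤ S * ((1 / 4) ^ m * Real.sqrt (N + τ)) := by positivity
  have : 2 * S * (1 / 4) ^ m * Real.sqrt (N + τ) = 2 * (S * ((1 / 4) ^ m * Real.sqrt (N + τ))) := by
    ring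
  rw [this]
  linarith

theorem absorbR {K δ s0 N a0 : ℝ} (hK : 1 ≤ K) (hδ0 : 0 < δ) (hδ : 64 * Real.sqrt K * δ ≤ 1)
    (hs0 : 0 ≤ s0) (hN : 0 ≤ N) (ha0 : 0 ≤ a0)
    (h : ∀ m : ℕ, ∀ τ : ℝ, 0 < τ → ∃ a s : ℕ → ℝ, a0 ≤ a 0 ∧ s 0 = s0 ∧ (∀ j, 0 ≤ a j) ∧
      (∀ j, 0 ≤ s j) ∧
      (∀ j, j < m → s (j + 1) ≤ 4 * (s j + a j ^ 2 + a (j + 1) ^ 2) + τ) ∧
      (∀ i, i ≤ m → a i ≤ Real.sqrt K * (∑ j ∈ Finset.Ico i m, δ ^ (j - i + 1) *
        (Real.sqrt (s j + τ) + τ) + δ ^ (m - i) * Real.sqrt (N + τ)))) :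
    a0 ^ 2 ≤ s0 / 4 := by
  have key : ∀ (m : ℕ) (τ : ℝ), 0 < τ → a0 ≤ (Real.sqrt s0 + (Real.sqrt τ + τ)) / 16 +
      2 * Real.sqrt K * (1 / 4) ^ m * Real.sqrt (N + τ) := by
    intro m τ hτ
    obtain ⟨a, s, h1, h2, h3, h4, h5, h6⟩ := h m τ hτ
    exact absorbR_step hK hδ0 hδ hs0 hN ha0 m hτ a s h1 h2 h3 h4 h5 h6
  -- `τ → 0`
  have key2 : ∀ m : ℕ, a0 ≤ Real.sqrt s0 / 16 + 2 * Real.sqrt K * (1 / 4) ^ m * Real.sqrt N := by
    intro m
    have hc : Continuous (fun τ : ℝ => (Real.sqrt s0 + (Real.sqrt τ + τ)) / 16 +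
        2 * Real.sqrt K * (1 / 4) ^ m * Real.sqrt (N + τ)) := by fun_prop
    have ht : Tendsto (fun τ : ℝ => (Real.sqrt s0 + (Real.sqrt τ + τ)) / 16 +
        2 * Real.sqrt K * (1 / 4) ^ m * Real.sqrt (N + τ)) (𝓝[>] 0)
        (𝓝 ((Real.sqrt s0 + (Real.sqrt 0 + 0)) / 16 +
        2 * Real.sqrt K * (1 / 4) ^ m * Real.sqrt (N + 0))) :=
      (hc.tendsto 0).mono_left nhdsWithin_le_nhds
    have h1 := ge_of_tendsto ht (b := a0) (by
      filter_upwards [self_mem_nhdsWithin] with τ hτ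
      exact key m τ hτ)
    simpa using h1
  have key3 : a0 ≤ Real.sqrt s0 / 16 := by
    have ht : Tendsto (fun m : ℕ => Real.sqrt s0 / 16 +
        2 * Real.sqrt K * (1 / 4) ^ m * Real.sqrt N) atTop
        (𝓝 (Real.sqrt s0 / 16 + 2 * Real.sqrt K * 0 * Real.sqrt N)) := by
      refine tendsto_const_nhds.add ((Tendsto.const_mul _ ?_).mul_const _)
      exact tendsto_pow_atTop_nhds_zero_of_lt_one (by norm_num) (by norm_num)
    have h1 := ge_of_tendsto ht (b := a0) (Eventually.of_forall key2)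
    simpa using h1
  have h1 : a0 ^ 2 ≤ (Real.sqrt s0 / 16) ^ 2 := pow_le_pow_left₀ ha0 key3 2
  have h2 : (Real.sqrt s0 / 16) ^ 2 = s0 / 256 := by
    rw [div_pow, Real.sq_sqrt hs0]; norm_num
  rw [h2] at h1
  linarith

end Pool.Agent.Lib.MP_6d896a_gt.UC.UR
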