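import Mathlib
import Pool.Agent.Lib.MP_6d896a_gt.UR.Defs
import Pool.Agent.Lib.MP_6d896a_gt.UC.FibQ

/-!
Project UR, piece R3: iterated integrals of the density in the direction of a reflected coordinate,
and their square integrals with a factor which is constant on the fibres.
-/

set_option autoImplicit false
set_option linter.all false

namespace Pool.Agent.Lib.MP_6d896a_gt.UC.UR

open MeasureTheory Filter Topology Set ProbabilityTheory
open scoped ENNReal NNReal ContDiff

variable {n : ℕ} {V f g u : Eu n → ℝ} {κ Λ S : ℝ} {i j : Fin n}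

/-- `V` is convex on the lines -/
private lemma fibR_line_convex (hU : GP V κ Λ S) (x v : Eu n) :
    ConvexOn ℝ univ (fun t : ℝ => V (x + t • v)) := by
  have hVd : Differentiable ℝ V := hU.cd.differentiable two_ne_zero
  have hVd2 : Differentiable ℝ (fderiv ℝ V) :=
    (hU.cd.fderiv_right (m := 1) (by norm_num)).differentiable one_ne_zero
  have hl : ∀ t : ℝ, HasDerivAt (fun t : ℝ => x + t • v) v t := by
    intro t
    have h := ((hasDerivAt_id t).smul_const v).const_add x
    simpa using h
  have hd1 : ∀ t : ℝ, HasDerivAt (fun t : ℝ => V (x + t • v)) (fderiv ℝ V (x + t • v) v) t :=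
    fun t => (hVd _).hasFDerivAt.comp_hasDerivAt t (hl t)
  have hd2 : ∀ t : ℝ, HasDerivAt (fun t : ℝ => fderiv ℝ V (x + t • v) v)
      (fderiv ℝ (fderiv ℝ V) (x + t • v) v v) t := by
    intro t
    have h1 : HasDerivAt (fun t : ℝ => fderiv ℝ V (x + t • v))
        (fderiv ℝ (fderiv ℝ V) (x + t • v) v) t :=
      (hVd2 _).hasFDerivAt.comp_hasDerivAt t (hl t)
    have h2 := h1.clm_apply (hasDerivAt_const t v)
    simpa using h2
  have e1 : deriv (fun t : ℝ => V (x + t • v)) = fun t => fderiv ℝ V (x + t • v) v :=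
    funext fun t => (hd1 t).deriv
  refine convexOn_univ_of_deriv2_nonneg (fun t => (hd1 t).differentiableAt) ?_ ?_
  · rw [e1]
    exact fun t => (hd2 t).differentiableAt
  · intro t
    have e2 : deriv^[2] (fun t : ℝ => V (x + t • v)) t = fderiv ℝ (fderiv ℝ V) (x + t • v) v v := by
      show deriv (deriv (fun t : ℝ => V (x + t • v))) t = _
      rw [e1]
      exact (hd2 t).deriv
    rw [e2]
    refine le_trans ?_ (hU.conv _ _)
    have := hU.kpos
    positivity

/-- increments of `V` in a direction increase along this direction -/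
private lemma fibR_line_incr (hU : GP V κ Λ S) (x v : Eu n) {s t : ℝ} (hs : 0 ≤ s) (ht : 0 ≤ t) :
    V (x + t • v) + V (x + s • v) ≤ V (x + (s + t) • v) + V x := by
  rcases eq_or_lt_of_le (add_nonneg hs ht) with h0 | h0
  · have h1 : s = 0 := by linarith
    have h2 : t = 0 := by linarith
    subst h1 h2
    simp
  have hc := (fibR_line_convex hU x v).2 (mem_univ (s + t)) (mem_univ (0 : ℝ))
  have h1 := hc (a := t / (s + t)) (b := s / (s + t)) (by positivity) (by positivity)
    (by field_simp; ring)
  have h2 := hc (a := s / (s + t)) (b := t / (s + t)) (by positivity) (by positivity)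
    (by field_simp)
  simp only [smul_eq_mul, mul_zero, add_zero, zero_smul] at h1 h2
  have e1 : t / (s + t) * (s + t) = t := by field_simp
  have e2 : s / (s + t) * (s + t) = s := by field_simp
  rw [e1] at h1
  rw [e2] at h2
  have e3 : t / (s + t) = 1 - s / (s + t) := by field_simp; ring
  rw [e3] at h1 h2
  linarith

/-- log-concavity on the lines -/
theorem TkR_mono (hU : GP V κ Λ S) (hVi : Ei i V) (k : ℕ) {x : Eu n} (hx : 0 ≤ x i) :
    Tk V i k x * ENNReal.ofReal (Real.exp (V x)) ≤
      Tk V i k (x - x i • ej i) * ENNReal.ofReal (Real.exp (V (x - x i • ej i))) := by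
  cases k with
  | zero =>
    have h1 : ∀ y : Eu n, Tk V i 0 y * ENNReal.ofReal (Real.exp (V y)) = 1 := by
      intro y
      show ENNReal.ofReal (Real.exp (-V y)) * _ = 1
      rw [← ENNReal.ofReal_mul (Real.exp_pos _).le, ← Real.exp_add, neg_add_cancel, Real.exp_zero,
        ENNReal.ofReal_one]
    rw [h1, h1]
  | succ k =>
    have hVc : Continuous V := hU.cd.continuous
    have h1 : ∀ y : Eu n, Tk V i (k + 1) y * ENNReal.ofReal (Real.exp (V y)) =
        ∫⁻ t in Ioi (0 : ℝ), ENNReal.ofReal (t ^ k / (k.factorial : ℝ) *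
          Real.exp (-(V (y + t • ej i) - V y))) := by
      intro y
      rw [Tk_eq hVc, ← lintegral_mul_const]
      · refine setLIntegral_congr_fun measurableSet_Ioi fun t ht => ?_
        have ht' : (0 : ℝ) < t := ht
        show ENNReal.ofReal _ * ENNReal.ofReal _ = ENNReal.ofReal _
        rw [← ENNReal.ofReal_mul (by positivity), mul_assoc, ← Real.exp_add]
        congr 3
        ring
      · have hc : Continuous (fun t : ℝ => t ^ k / (k.factorial : ℝ) *
          Real.exp (-V (y + t • ej i))) := by fun_prop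
        exact ENNReal.measurable_ofReal.comp hc.measurable
    rw [h1, h1]
    refine setLIntegral_mono' measurableSet_Ioi fun t ht => ?_
    have ht' : (0 : ℝ) < t := ht
    refine ENNReal.ofReal_le_ofReal (mul_le_mul_of_nonneg_left ?_ (by positivity))
    refine Real.exp_le_exp.2 (neg_le_neg ?_)
    have h2 := fibR_line_incr hU (x - x i • ej i) (ej i) hx ht'.le
    rw [add_smul, ← add_assoc, sub_add_cancel] at h2
    linarith

/-- `V` is at least its value on the hyperplane -/
private lemma fibR_V_ge (hU : GP V κ Λ S) (hVi : Ei i V) {x : Eu n} (hx : x i = 0) (t : ℝ) :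
    V x ≤ V (x + t • ej i) := by
  have hc := (fibR_line_convex hU x (ej i)).2 (mem_univ t) (mem_univ (-t))
  have h1 := hc (a := 1 / 2) (b := 1 / 2) (by norm_num) (by norm_num) (by norm_num)
  simp only [smul_eq_mul] at h1
  have e1 : (1 / 2 : ℝ) * t + 1 / 2 * -t = 0 := by ring
  rw [e1, zero_smul, add_zero] at h1
  have e2 : Rf i (x + t • ej i) = x + (-t) • ej i := by
    rw [map_add, map_smul, Rf_ej, smul_neg, ← neg_smul]
    congr 1
    ext k
    rw [Rf_apply]
    by_cases hk : k = i
    · subst hk
      rw [if_pos rfl, hx, neg_zero]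
    · rw [if_neg hk]
  have e3 := hVi (x + t • ej i)
  rw [e2] at e3
  rw [e3] at h1
  linarith

/-- the one-dimensional inequality, no finiteness needed -/
private lemma UR_oneD (p : ℝ → ℝ≥0∞) (hp : Measurable p) (hp1 : ∀ t, p t ≤ 1)
    (k : ℕ) :
    (∫⁻ t in Ioi (0 : ℝ), ENNReal.ofReal (t ^ k) * p t) ^ 2 * (∫⁻ t in Ioi (0 : ℝ), p t) ≤
      8 * ∫⁻ t in Ioi (0 : ℝ), ENNReal.ofReal (t ^ (2 * (k + 1))) * p t := by
  by_cases hfin : ∫⁻ t in Ioi (0 : ℝ), p t = ⊤
  · have h1 : ∫⁻ t in Ioc (0 : ℝ) 1, p t ≤ 1 := by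
      calc ∫⁻ t in Ioc (0 : ℝ) 1, p t ≤ ∫⁻ t in Ioc (0 : ℝ) 1, 1 := lintegral_mono hp1
        _ = 1 := by simp
    have h2 : ∫⁻ t in Ioi (0 : ℝ), p t =
        (∫⁻ t in Ioc (0 : ℝ) 1, p t) + ∫⁻ t in Ioi (1 : ℝ), p t := by
      rw [← Ioc_union_Ioi_eq_Ioi (zero_le_one' ℝ),
        lintegral_union measurableSet_Ioi (Ioc_disjoint_Ioi le_rfl)]
    have h3 : ∫⁻ t in Ioi (1 : ℝ), p t = ⊤ := by
      rw [hfin] at h2
      rcases ENNReal.add_eq_top.1 h2.symm with h | h
      · rw [h] at h1
        exact absurd h1 (by simp)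
      · exact h
    have h4 : ∫⁻ t in Ioi (1 : ℝ), p t ≤
        ∫⁻ t in Ioi (0 : ℝ), ENNReal.ofReal (t ^ (2 * (k + 1))) * p t := by
      refine le_trans ?_ (lintegral_mono_set (Ioi_subset_Ioi (zero_le_one' ℝ)))
      refine setLIntegral_mono' measurableSet_Ioi fun t ht => ?_
      have ht' : (1 : ℝ) ≤ t := le_of_lt ht
      calc p t = 1 * p t := (one_mul _).symm
        _ ≤ _ := by
            refine mul_le_mul_left ?_ _
            rw [← ENNReal.ofReal_one]
            exact ENNReal.ofReal_le_ofReal (one_le_pow₀ ht')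
    rw [h3, top_le_iff] at h4
    rw [h4, ENNReal.mul_top (by norm_num)]
    exact le_top
  · exact oneD p hp hp1 hfin k

/-- square integrals of the weights, with a factor constant on the fibres -/
theorem QkR_bound (hU : GP V κ Λ S) (hVi : Ei i V) {p : Eu n → ℝ} (hp : Continuous p)
    (hp0 : ∀ x, 0 ≤ p x) (hpi : ∀ (x : Eu n) (t : ℝ), p (x + t • ej i) = p x) (k : ℕ) :
    ∫⁻ x in {x : Eu n | 0 < x i}, ENNReal.ofReal (p x) *
        (Tk V i (k + 1) x ^ 2 * ENNReal.ofReal (Real.exp (V x))) ≤
      ENNReal.ofReal (8 / ((k.factorial : ℝ) ^ 2)) *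
        ∫⁻ x in {x : Eu n | 0 < x i},
          ENNReal.ofReal (p x) * ENNReal.ofReal (x i ^ (2 * (k + 1)) * Real.exp (-V x)) := by
  set w : Eu n → ℝ≥0∞ := fun x => ENNReal.ofReal (p x) with hw
  have hwm : Measurable w := ENNReal.measurable_ofReal.comp hp.measurable
  have hwi : ∀ (x : Eu n) (t : ℝ), w (x + t • ej i) = w x := by
    intro x t
    show ENNReal.ofReal (p (x + t • ej i)) = ENNReal.ofReal (p x)
    rw [hpi]
  have hVc : Continuous V := hU.cd.continuous
  have hTm := Tk_meas hVc i (k + 1)
  set H : Set (Eu n) := {x : Eu n | 0 < x i} with hH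
  have hHm : MeasurableSet H := fib_meas_half i
  have hEm : Measurable (fun x : Eu n => ENNReal.ofReal (Real.exp (V x))) :=
    ENNReal.measurable_ofReal.comp (Real.measurable_exp.comp hVc.measurable)
  have hGm0 : Measurable (fun x : Eu n => ENNReal.ofReal (x i ^ (2 * (k + 1)) *
      Real.exp (-V x))) :=
    ENNReal.measurable_ofReal.comp (((fib_meas_coord i).pow_const _).mul
      (Real.measurable_exp.comp hVc.measurable.neg))
  show ∫⁻ x in H, w x * (Tk V i (k + 1) x ^ 2 * ENNReal.ofReal (Real.exp (V x))) ≤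
      ENNReal.ofReal (8 / ((k.factorial : ℝ) ^ 2)) *
        ∫⁻ x in H, w x * ENNReal.ofReal (x i ^ (2 * (k + 1)) * Real.exp (-V x))
  have hwG : Measurable (fun x : Eu n => w x * ENNReal.ofReal (x i ^ (2 * (k + 1)) *
      Real.exp (-V x))) := hwm.mul hGm0
  rw [← lintegral_const_mul _ hwG, ← lintegral_indicator hHm, ← lintegral_indicator hHm]
  refine line_le i ((hwm.mul ((hTm.pow_const 2).mul hEm)).indicator hHm)
    ((hwG.const_mul _).indicator hHm) fun x => ?_
  -- translate to the point `x₀` on the hyperplane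
  set x₀ : Eu n := x - x i • ej i with hx₀
  have hx₀i : x₀ i = 0 := by rw [hx₀, fib_coord_sub, sub_self]
  have htr : ∀ F : Eu n → ℝ≥0∞, ∫⁻ t : ℝ, F (x + t • ej i) = ∫⁻ t : ℝ, F (x₀ + t • ej i) := by
    intro F
    rw [← lintegral_add_right_eq_self (fun t : ℝ => F (x₀ + t • ej i)) (x i)]
    refine lintegral_congr fun t => ?_
    congr 1
    rw [hx₀, add_smul]
    abel
  rw [htr, htr]
  set T₀ := Tk V i (k + 1) x₀ with hT₀
  set q : ℝ → ℝ≥0∞ := fun t => ENNReal.ofReal (Real.exp (-(V (x₀ + t • ej i) - V x₀))) with hq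
  have hpm : Measurable q := by
    have hc : Continuous (fun t : ℝ => Real.exp (-(V (x₀ + t • ej i) - V x₀))) := by fun_prop
    exact ENNReal.measurable_ofReal.comp hc.measurable
  have hp1 : ∀ t, q t ≤ 1 := by
    intro t
    show ENNReal.ofReal (Real.exp (-(V (x₀ + t • ej i) - V x₀))) ≤ 1
    rw [← ENNReal.ofReal_one]
    refine ENNReal.ofReal_le_ofReal ?_
    rw [← Real.exp_zero]
    exact Real.exp_le_exp.2 (by linarith [fibR_V_ge hU hVi hx₀i t])
  have hcoord : ∀ t : ℝ, (x₀ + t • ej i) i = t := by
    intro t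
    rw [fib_coord, hx₀i, zero_add]
  have hA : T₀ * ENNReal.ofReal (Real.exp (V x₀)) = ENNReal.ofReal ((k.factorial : ℝ)⁻¹) *
      ∫⁻ t in Ioi (0 : ℝ), ENNReal.ofReal (t ^ k) * q t := by
    rw [hT₀, Tk_eq hVc, ← lintegral_mul_const, ← lintegral_const_mul]
    · refine setLIntegral_congr_fun measurableSet_Ioi fun t ht => ?_
      have ht' : (0 : ℝ) < t := ht
      show ENNReal.ofReal _ * ENNReal.ofReal _ = ENNReal.ofReal _ * (ENNReal.ofReal _ *
        ENNReal.ofReal _)
      rw [← ENNReal.ofReal_mul (by positivity), ← ENNReal.ofReal_mul (by positivity),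
        ← ENNReal.ofReal_mul (by positivity)]
      congr 1
      have e1 : Real.exp (-(V (x₀ + t • ej i) - V x₀)) =
          Real.exp (-V (x₀ + t • ej i)) * Real.exp (V x₀) := by
        rw [← Real.exp_add]; congr 1; ring
      rw [e1]
      ring
    · exact (ENNReal.measurable_ofReal.comp (measurable_id.pow_const k)).mul hpm
    · have hc : Continuous (fun t : ℝ => t ^ k / (k.factorial : ℝ) *
        Real.exp (-V (x₀ + t • ej i))) := by fun_prop
      exact ENNReal.measurable_ofReal.comp hc.measurable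
  -- the bound on the line
  have hone := UR_oneD q hpm hp1 k
  have e2 : ENNReal.ofReal (Real.exp (-V x₀)) * ENNReal.ofReal (Real.exp (V x₀)) = 1 := by
    rw [← ENNReal.ofReal_mul (Real.exp_pos _).le, ← Real.exp_add, neg_add_cancel, Real.exp_zero,
      ENNReal.ofReal_one]
  calc ∫⁻ t : ℝ, H.indicator (fun x => w x * (Tk V i (k + 1) x ^ 2 *
        ENNReal.ofReal (Real.exp (V x)))) (x₀ + t • ej i)
      ≤ ∫⁻ t in Ioi (0 : ℝ), w x₀ * ((T₀ * ENNReal.ofReal (Real.exp (V x₀))) ^ 2 *
          (ENNReal.ofReal (Real.exp (-V x₀)) * q t)) := by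
        rw [← lintegral_indicator measurableSet_Ioi]
        refine lintegral_mono fun t => ?_
        by_cases ht : t ∈ Ioi (0 : ℝ)
        · have ht' : (0 : ℝ) < t := ht
          have hmem : x₀ + t • ej i ∈ H := by
            show 0 < (x₀ + t • ej i) i
            rw [hcoord]
            exact ht'
          rw [indicator_of_mem ht, indicator_of_mem hmem, hwi]
          refine mul_le_mul_right ?_ _
          set y : Eu n := x₀ + t • ej i with hy
          have hm := TkR_mono hU hVi (k + 1) (x := y) (by rw [hcoord]; exact ht'.le)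
          have e3 : y - y i • ej i = x₀ := by rw [hcoord, hy, add_sub_cancel_right]
          rw [e3, ← hT₀] at hm
          have e4 : ENNReal.ofReal (Real.exp (V y)) * (ENNReal.ofReal (Real.exp (-V x₀)) * q t) =
              1 := by
            show ENNReal.ofReal (Real.exp (V y)) * (ENNReal.ofReal (Real.exp (-V x₀)) *
              ENNReal.ofReal (Real.exp (-(V y - V x₀)))) = 1
            rw [← ENNReal.ofReal_mul (Real.exp_pos _).le, ← ENNReal.ofReal_mul (Real.exp_pos _).le,
              ← Real.exp_add, ← Real.exp_add]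
            have : V y + (-V x₀ + -(V y - V x₀)) = 0 := by ring
            rw [this, Real.exp_zero, ENNReal.ofReal_one]
          calc Tk V i (k + 1) y ^ 2 * ENNReal.ofReal (Real.exp (V y))
              = Tk V i (k + 1) y ^ 2 * ENNReal.ofReal (Real.exp (V y)) *
                (ENNReal.ofReal (Real.exp (V y)) *
                  (ENNReal.ofReal (Real.exp (-V x₀)) * q t)) := by rw [e4, mul_one]
            _ = (Tk V i (k + 1) y * ENNReal.ofReal (Real.exp (V y))) ^ 2 *
                (ENNReal.ofReal (Real.exp (-V x₀)) * q t) := by ring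
            _ ≤ _ := mul_le_mul_left (pow_le_pow_left' hm 2) _
        · have hmem : x₀ + t • ej i ∉ H := by
            intro h
            have : 0 < (x₀ + t • ej i) i := h
            rw [hcoord] at this
            exact ht this
          rw [indicator_of_notMem ht, indicator_of_notMem hmem]
    _ = w x₀ * (ENNReal.ofReal (Real.exp (-V x₀)) * (ENNReal.ofReal ((k.factorial : ℝ)⁻¹)) ^ 2 *
          ((∫⁻ t in Ioi (0 : ℝ), ENNReal.ofReal (t ^ k) * q t) ^ 2 *
            ∫⁻ t in Ioi (0 : ℝ), q t)) := by
        rw [lintegral_const_mul _ ((hpm.const_mul _).const_mul _),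
          lintegral_const_mul _ (hpm.const_mul _), lintegral_const_mul _ hpm, hA]
        ring
    _ ≤ w x₀ * (ENNReal.ofReal (Real.exp (-V x₀)) * (ENNReal.ofReal ((k.factorial : ℝ)⁻¹)) ^ 2 *
          (8 * ∫⁻ t in Ioi (0 : ℝ), ENNReal.ofReal (t ^ (2 * (k + 1))) * q t)) :=
        mul_le_mul_right (mul_le_mul_right hone _) _
    _ = ∫⁻ t : ℝ, H.indicator (fun x => ENNReal.ofReal (8 / ((k.factorial : ℝ) ^ 2)) *
          (w x * ENNReal.ofReal (x i ^ (2 * (k + 1)) * Real.exp (-V x)))) (x₀ + t • ej i) := by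
        have hmm : Measurable (fun t : ℝ => ENNReal.ofReal (t ^ (2 * (k + 1))) * q t) :=
          (ENNReal.measurable_ofReal.comp (measurable_id.pow_const _)).mul hpm
        rw [← lintegral_const_mul _ hmm, ← lintegral_const_mul _ (hmm.const_mul _),
          ← lintegral_const_mul _ ((hmm.const_mul _).const_mul _),
          ← lintegral_indicator measurableSet_Ioi]
        refine lintegral_congr fun t => ?_
        by_cases ht : t ∈ Ioi (0 : ℝ)
        · have ht' : (0 : ℝ) < t := ht
          have hmem : x₀ + t • ej i ∈ H := by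
            show 0 < (x₀ + t • ej i) i
            rw [hcoord]
            exact ht'
          rw [indicator_of_mem ht, indicator_of_mem hmem, hwi, hcoord,
            mul_left_comm (ENNReal.ofReal (8 / ((k.factorial : ℝ) ^ 2))) (w x₀)]
          congr 1
          have h8 : (8 : ℝ≥0∞) = ENNReal.ofReal 8 := by norm_num
          show ENNReal.ofReal _ * (ENNReal.ofReal _) ^ 2 * (8 * (ENNReal.ofReal _ *
            ENNReal.ofReal (Real.exp (-(V (x₀ + t • ej i) - V x₀))))) =
            ENNReal.ofReal _ * ENNReal.ofReal _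
          rw [h8, ← ENNReal.ofReal_pow (by positivity), ← ENNReal.ofReal_mul (by positivity),
            ← ENNReal.ofReal_mul (by positivity), ← ENNReal.ofReal_mul (by positivity),
            ← ENNReal.ofReal_mul (by positivity), ← ENNReal.ofReal_mul (by positivity)]
          congr 1
          have e1 : Real.exp (-V (x₀ + t • ej i)) =
              Real.exp (-V x₀) * Real.exp (-(V (x₀ + t • ej i) - V x₀)) := by
            rw [← Real.exp_add]; congr 1; ring
          rw [e1]
          field_simp
        · have hmem : x₀ + t • ej i ∉ H := by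
            intro h
            have : 0 < (x₀ + t • ej i) i := h
            rw [hcoord] at this
            exact ht this
          rw [indicator_of_notMem ht, indicator_of_notMem hmem]

end Pool.Agent.Lib.MP_6d896a_gt.UC.UR
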