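import Mathlib
import Pool.Agent.Lib.MP_6d896a_gt.UR.Defs
import Pool.Agent.Lib.MP_6d896a_gt.UR.FibR
import Pool.Agent.Lib.MP_6d896a_gt.TgtInt
import Pool.Agent.Lib.MP_6d896a_gt.FP.Tail
import Pool.Agent.Lib.MP_6d896a_gt.FP.PLm

/-!
Project UR, R4: moments of the linear functionals, and the weighted square integrals.
-/

set_option autoImplicit false

namespace Pool.Agent.Lib.MP_6d896a_gt.UC.UR

open MeasureTheory Filter Topology Set ProbabilityTheory
open scoped ENNReal NNReal ContDiff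

variable {n : ℕ} {V : Eu n → ℝ} {κ Λ S : ℝ} {i : Fin n}

private lemma momR_convex (hU : GP V κ Λ S) (x y : Eu n) {l : ℝ} (h0 : 0 < l) (h1 : l < 1) :
    V ((1 - l) • x + l • y) ≤ (1 - l) * V x + l * V y := by
  set v := y - x with hv
  have hd1 : Differentiable ℝ V := hU.cd.differentiable (by norm_num)
  have hd2 : Differentiable ℝ (fderiv ℝ V) :=
    (hU.cd.fderiv_right (m := 1) (by norm_num)).differentiable (by norm_num)
  have hline : ∀ t : ℝ, HasDerivAt (fun t : ℝ => x + t • v) v t := fun t => by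
    simpa using ((hasDerivAt_id t).smul_const v).const_add x
  have h2 : ∀ t : ℝ, HasDerivAt (fun t : ℝ => V (x + t • v)) (fderiv ℝ V (x + t • v) v) t :=
    fun t => (hd1 _).hasFDerivAt.comp_hasDerivAt t (hline t)
  have h3 : ∀ t : ℝ, HasDerivAt (fun t : ℝ => fderiv ℝ V (x + t • v) v)
      (fderiv ℝ (fderiv ℝ V) (x + t • v) v v) t := by
    intro t
    have h4 : HasDerivAt (fun t : ℝ => fderiv ℝ V (x + t • v))
        (fderiv ℝ (fderiv ℝ V) (x + t • v) v) t :=
      (hd2 _).hasFDerivAt.comp_hasDerivAt t (hline t)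
    exact h4.clm_apply (hasDerivAt_const t v) |>.congr_deriv (by simp)
  have hc : ConvexOn ℝ Set.univ (fun t : ℝ => V (x + t • v)) := by
    apply convexOn_of_hasDerivWithinAt2_nonneg convex_univ
      (f' := fun t => fderiv ℝ V (x + t • v) v)
      (f'' := fun t => fderiv ℝ (fderiv ℝ V) (x + t • v) v v)
    · exact (continuous_iff_continuousAt.2 fun t => (h2 t).continuousAt).continuousOn
    · exact fun t _ => (h2 t).hasDerivWithinAt
    · exact fun t _ => (h3 t).hasDerivWithinAt
    · intro t _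
      exact (mul_nonneg hU.kpos.le (sq_nonneg _)).trans (hU.conv _ _)
  have h5 := hc.2 (Set.mem_univ (0 : ℝ)) (Set.mem_univ (1 : ℝ)) (by linarith : 0 ≤ 1 - l) h0.le
    (by ring)
  simp only [smul_eq_mul, mul_zero, mul_one, zero_add, zero_smul, add_zero, one_smul] at h5
  have e1 : x + l • v = (1 - l) • x + l • y := by
    rw [hv, smul_sub, sub_smul, one_smul]; abel
  have e2 : x + v = y := by rw [hv]; abel
  rwa [e1, e2] at h5

private lemma momR_plm (hU : GP V κ Λ S) : FP.PLm (tgt V) := by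
  have hm : Measurable fun x : Eu n => ENNReal.ofReal (Real.exp (-V x)) :=
    ENNReal.measurable_ofReal.comp (Real.continuous_exp.comp hU.cd.continuous.neg).measurable
  unfold tgt
  apply (FP.plm_haar volume).withDensity hm
  intro x y l h0 h1
  rw [ENNReal.ofReal_rpow_of_pos (Real.exp_pos _), ENNReal.ofReal_rpow_of_pos (Real.exp_pos _),
    ← ENNReal.ofReal_mul (by positivity), ← Real.exp_mul, ← Real.exp_mul, ← Real.exp_add]
  apply ENNReal.ofReal_le_ofReal
  apply Real.exp_le_exp.2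
  have := momR_convex hU x y h0 h1
  linarith

private lemma momR_prob (hU : GP V κ Λ S) : IsProbabilityMeasure (tgt V) := by
  constructor
  unfold tgt
  rw [withDensity_apply _ MeasurableSet.univ, Measure.restrict_univ,
    ← ofReal_integral_eq_lintegral_ofReal hU.int (Eventually.of_forall fun x => (Real.exp_pos _).le)]
  have := hU.mass
  unfold Ex at this
  simp only [one_mul] at this
  rw [this, ENNReal.ofReal_one]

private lemma momR_lint (hU : GP V κ Λ S) {f : Eu n → ℝ} (hf : Measurable f) :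
    ∫⁻ x, ENNReal.ofReal (f x * Real.exp (-V x)) = ∫⁻ x, ENNReal.ofReal (f x) ∂(tgt V) := by
  have hm : Measurable fun x : Eu n => ENNReal.ofReal (Real.exp (-V x)) :=
    ENNReal.measurable_ofReal.comp (Real.continuous_exp.comp hU.cd.continuous.neg).measurable
  unfold tgt
  rw [lintegral_withDensity_eq_lintegral_mul _ hm hf.ennreal_ofReal]
  refine lintegral_congr fun x => ?_
  rw [Pi.mul_apply, ← ENNReal.ofReal_mul (Real.exp_pos _).le, mul_comm]

/-- moments of the linear functionals -/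
theorem momR (hU : GP V κ Λ S) {w : Eu n} (hw : ‖w‖ ≤ 1) (k : ℕ) :
    ∫⁻ x, ENNReal.ofReal (inner ℝ x w ^ (2 * k) * Real.exp (-V x)) ≤
      ENNReal.ofReal (4 * ((2 * k).factorial : ℝ) * (64 * S) ^ k) := by
  have hprob := momR_prob hU
  have hmi : Measurable fun x : Eu n => (inner ℝ x w : ℝ) :=
    (continuous_id.inner continuous_const).measurable
  have hS := hU.Spos
  set r := 2 * Real.sqrt S with hr
  have hr0 : 0 < r := by positivity
  have hr2 : r ^ 2 = 4 * S := by
    rw [hr, mul_pow, Real.sq_sqrt hS.le]; norm_num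
  have hmomi : Integrable (fun x : Eu n => (inner ℝ x w : ℝ) ^ 2 * Real.exp (-V x)) := by
    refine (hU.momi).mono' ?_ (Eventually.of_forall fun x => ?_)
    · exact (((continuous_id.inner continuous_const).pow 2).mul
        (Real.continuous_exp.comp hU.cd.continuous.neg)).aestronglyMeasurable
    · rw [Real.norm_eq_abs, abs_of_nonneg (by positivity)]
      apply mul_le_mul_of_nonneg_right _ (Real.exp_pos _).le
      rw [← sq_abs]
      apply pow_le_pow_left₀ (abs_nonneg _)
      calc |(inner ℝ x w : ℝ)| ≤ ‖x‖ * ‖w‖ := abs_real_inner_le_norm x w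
        _ ≤ ‖x‖ * 1 := by gcongr
        _ = ‖x‖ := mul_one _
  -- Chebyshev
  have hK : 3 / 4 ≤ (tgt V).real {x : Eu n | |(inner ℝ x w : ℝ)| ≤ r} := by
    have hms : MeasurableSet {x : Eu n | |(inner ℝ x w : ℝ)| ≤ r} :=
      measurableSet_le hmi.abs measurable_const
    have hcompl : (tgt V).real {x : Eu n | |(inner ℝ x w : ℝ)| ≤ r}ᶜ ≤ 1 / 4 := by
      have h2 : ∫⁻ x, ENNReal.ofReal ((inner ℝ x w : ℝ) ^ 2) ∂(tgt V) ≤ ENNReal.ofReal S := by
        rw [← momR_lint hU (hmi.pow_const 2),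
          ← ofReal_integral_eq_lintegral_ofReal hmomi
            (Eventually.of_forall fun x => by positivity)]
        refine ENNReal.ofReal_le_ofReal ((hU.mom w).trans ?_)
        have : ‖w‖ ^ 2 ≤ 1 := pow_le_one₀ (norm_nonneg _) hw
        nlinarith
      have h3 : ENNReal.ofReal (r ^ 2) * tgt V {x : Eu n | |(inner ℝ x w : ℝ)| ≤ r}ᶜ ≤
          ∫⁻ x, ENNReal.ofReal ((inner ℝ x w : ℝ) ^ 2) ∂(tgt V) := by
        refine le_trans ?_ (mul_meas_ge_le_lintegral (μ := tgt V)
          (f := fun x : Eu n => ENNReal.ofReal ((inner ℝ x w : ℝ) ^ 2))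
          (hmi.pow_const 2).ennreal_ofReal (ENNReal.ofReal (r ^ 2)))
        gcongr
        intro x hx
        show ENNReal.ofReal (r ^ 2) ≤ ENNReal.ofReal ((inner ℝ x w : ℝ) ^ 2)
        apply ENNReal.ofReal_le_ofReal
        have hx' : r < |(inner ℝ x w : ℝ)| := not_le.1 hx
        rw [← sq_abs (inner ℝ x w : ℝ)]
        exact pow_le_pow_left₀ hr0.le hx'.le 2
      have h4 := ENNReal.toReal_mono ENNReal.ofReal_ne_top (h3.trans h2)
      rw [ENNReal.toReal_mul, ENNReal.toReal_ofReal (by positivity),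
        ENNReal.toReal_ofReal hS.le, hr2] at h4
      have h5 : 4 * S * (tgt V).real {x : Eu n | |(inner ℝ x w : ℝ)| ≤ r}ᶜ ≤ S := h4
      nlinarith
    have h6 := probReal_compl_eq_one_sub (μ := tgt V) hms
    linarith
  have hexp := FP.PLm.exp_moment (momR_plm hU) (ξ := fun x : Eu n => (inner ℝ x w : ℝ)) hmi
    (fun x y l => by simp [inner_add_left, inner_smul_left]) hr0 hK
  have hpt : ∀ x : Eu n, ENNReal.ofReal ((inner ℝ x w : ℝ) ^ (2 * k)) ≤
      ENNReal.ofReal (((2 * k).factorial : ℝ) * (64 * S) ^ k) *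
        ENNReal.ofReal (Real.exp (|(inner ℝ x w : ℝ)| / (4 * r))) := by
    intro x
    rw [← ENNReal.ofReal_mul (by positivity)]
    apply ENNReal.ofReal_le_ofReal
    set y : ℝ := inner ℝ x w with hy
    set t := |y| / (4 * r) with ht
    have ht0 : 0 ≤ t := by positivity
    have h1 := Real.pow_div_factorial_le_exp t ht0 (2 * k)
    rw [div_le_iff₀ (by positivity)] at h1
    have h2 : y ^ (2 * k) = t ^ (2 * k) * (64 * S) ^ k := by
      have h3 : |y| = t * (4 * r) := by rw [ht]; field_simp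
      have h4 : y ^ (2 * k) = |y| ^ (2 * k) := by
        rw [pow_mul, pow_mul, sq_abs]
      rw [h4, h3, mul_pow, pow_mul (4 * r) 2 k]
      congr 2
      rw [mul_pow, hr2]; ring
    rw [h2]
    calc t ^ (2 * k) * (64 * S) ^ k ≤ (Real.exp t * ((2 * k).factorial : ℝ)) * (64 * S) ^ k :=
          mul_le_mul_of_nonneg_right h1 (by positivity)
      _ = _ := by ring
  rw [momR_lint hU (hmi.pow_const (2 * k))]
  refine (lintegral_mono hpt).trans ?_
  rw [lintegral_const_mul _ (by fun_prop)]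
  refine (mul_le_mul_right hexp _).trans (le_of_eq ?_)
  rw [show (4 : ℝ≥0∞) = ENNReal.ofReal 4 by norm_num, ← ENNReal.ofReal_mul (by positivity)]
  congr 1
  ring

private lemma momR_sq_le (k : ℕ) : (k + 1) ^ 2 ≤ 4 * 2 ^ (k + 1) := by
  induction k with
  | zero => norm_num
  | succ k ih =>
    have h1 : (k + 1 + 1) ^ 2 = (k + 1) ^ 2 + (2 * k + 3) := by ring
    have h2 : k < 2 ^ k := Nat.lt_two_pow_self
    have h3 : 2 ^ (k + 1) = 2 * 2 ^ k := by ring
    have h4 : 2 ^ (k + 1 + 1) = 4 * 2 ^ k := by ring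
    rw [h1, h4]
    rw [h3] at ih
    omega

private lemma momR_q_le (k : ℕ) : ((k + 2) * (k + 1)) ^ 2 ≤ 29 * 2 ^ (k + 1) := by
  have key : ∀ m : ℕ, ((m + 4 + 2) * (m + 4 + 1)) ^ 2 ≤ 29 * 2 ^ (m + 4 + 1) := by
    intro m
    induction m with
    | zero => norm_num
    | succ m ih =>
      have h1 : ((m + 1 + 4 + 2) * (m + 1 + 4 + 1)) ^ 2 ≤
          2 * ((m + 4 + 2) * (m + 4 + 1)) ^ 2 := by
        have h2 : (m + 1 + 4 + 2) ^ 2 ≤ 2 * (m + 4 + 1) ^ 2 :=
          Nat.le.intro (k := m ^ 2 + 6 * m + 1) (by ring)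
        calc ((m + 1 + 4 + 2) * (m + 1 + 4 + 1)) ^ 2
            = (m + 1 + 4 + 2) ^ 2 * (m + 4 + 2) ^ 2 := by ring
          _ ≤ (2 * (m + 4 + 1) ^ 2) * (m + 4 + 2) ^ 2 := Nat.mul_le_mul_right _ h2
          _ = _ := by ring
      have h3 : 2 ^ (m + 1 + 4 + 1) = 2 * 2 ^ (m + 4 + 1) := by ring
      rw [h3]
      omega
  rcases Nat.lt_or_ge k 4 with h | h
  · interval_cases k <;> norm_num
  · obtain ⟨m, rfl⟩ := Nat.exists_eq_add_of_le' h
    exact key m

private lemma momR_cb (k : ℕ) : (2 * k).factorial ≤ 4 ^ k * k.factorial ^ 2 := by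
  have h1 : (2 * k).factorial = k.centralBinom * k.factorial ^ 2 := by
    have := Nat.choose_mul_factorial_mul_factorial (n := 2 * k) (k := k) (by omega)
    rw [show 2 * k - k = k by omega] at this
    rw [Nat.centralBinom, ← this]; ring
  have h2 : k.centralBinom ≤ 4 ^ k := by
    rw [Nat.centralBinom]
    calc (2 * k).choose k ≤ 2 ^ (2 * k) := Nat.choose_le_two_pow _ _
      _ = 4 ^ k := by rw [pow_mul]; norm_num
  rw [h1]
  exact Nat.mul_le_mul_right _ h2

private lemma momR_fac1 (k : ℕ) : ((2 * (k + 1)).factorial : ℝ) ≤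
    4 * 8 ^ (k + 1) * (k.factorial : ℝ) ^ 2 := by
  have h3 : (2 * (k + 1)).factorial ≤ (4 * 8 ^ (k + 1)) * k.factorial ^ 2 := by
    calc (2 * (k + 1)).factorial ≤ 4 ^ (k + 1) * (k + 1).factorial ^ 2 := momR_cb _
      _ = 4 ^ (k + 1) * (k + 1) ^ 2 * k.factorial ^ 2 := by
          rw [Nat.factorial_succ]; ring
      _ ≤ 4 ^ (k + 1) * (4 * 2 ^ (k + 1)) * k.factorial ^ 2 := by
          gcongr
          exact momR_sq_le k
      _ = _ := by
          rw [show (8 : ℕ) = 4 * 2 by norm_num, mul_pow]; ring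
  exact_mod_cast h3

private lemma momR_fac2 (k : ℕ) : ((2 * (k + 2)).factorial : ℝ) ≤
    116 * 8 ^ (k + 1) * (k.factorial : ℝ) ^ 2 := by
  have h3 : (2 * (k + 2)).factorial ≤ (116 * 8 ^ (k + 1)) * k.factorial ^ 2 := by
    calc (2 * (k + 2)).factorial ≤ 4 ^ (k + 2) * (k + 2).factorial ^ 2 := momR_cb _
      _ = 4 ^ (k + 2) * ((k + 2) * (k + 1)) ^ 2 * k.factorial ^ 2 := by
          rw [Nat.factorial_succ, Nat.factorial_succ]; ring
      _ ≤ 4 ^ (k + 2) * (29 * 2 ^ (k + 1)) * k.factorial ^ 2 := by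
          gcongr
          exact momR_q_le k
      _ = _ := by
          rw [show (8 : ℕ) = 4 * 2 by norm_num, mul_pow]; ring
  exact_mod_cast h3

/-- the weighted square integrals -/
theorem QR_final (hU : GP V κ Λ S) (hVi : Ei i V) {w : Eu n} (hwi : w i = 0) (hw : ‖w‖ ≤ 1)
    (k : ℕ) :
    ∫⁻ x in {x : Eu n | 0 < x i}, ENNReal.ofReal (om S w x ^ 2) *
        (Tk V i (k + 1) x ^ 2 * ENNReal.ofReal (Real.exp (V x))) ≤
      ENNReal.ofReal (10 ^ 6 * S * (512 * S) ^ (k + 1)) := by
  have hS := hU.Spos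
  have hom : ∀ x : Eu n, om S w x ^ 2 = S + (inner ℝ x w : ℝ) ^ 2 := fun x => by
    unfold om
    rw [Real.sq_sqrt (by positivity)]
  have hci : Continuous fun x : Eu n => (inner ℝ x w : ℝ) :=
    continuous_id.inner continuous_const
  have hcx : Continuous fun x : Eu n => x i := by fun_prop
  have hce : Continuous fun x : Eu n => Real.exp (-V x) :=
    Real.continuous_exp.comp hU.cd.continuous.neg
  have hp : Continuous fun x : Eu n => om S w x ^ 2 := by
    have e : (fun x : Eu n => om S w x ^ 2) = fun x => S + (inner ℝ x w : ℝ) ^ 2 :=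
      funext hom
    rw [e]
    exact continuous_const.add (hci.pow 2)
  have hxi : ∀ x : Eu n, (inner ℝ x (ej i) : ℝ) = x i := fun x => by
    simp [ej, EuclideanSpace.inner_single_right]
  have h1 := QkR_bound hU hVi (p := fun x => om S w x ^ 2) hp (fun x => sq_nonneg _)
    (fun x t => by
      simp only [hom]
      have : (inner ℝ (ej i) w : ℝ) = 0 := by rw [real_inner_comm, hxi, hwi]
      rw [inner_add_left, inner_smul_left, this]; simp) k
  refine h1.trans ?_
  have hnej : ‖(ej i : Eu n)‖ ≤ 1 := by simp [ej]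
  -- moments of the coordinate `i`
  have hm1 : ∫⁻ x : Eu n, ENNReal.ofReal (x i ^ (2 * (k + 1)) * Real.exp (-V x)) ≤
      ENNReal.ofReal (4 * ((2 * (k + 1)).factorial : ℝ) * (64 * S) ^ (k + 1)) := by
    have := momR hU hnej (k + 1)
    simpa only [hxi] using this
  have hm2 : ∫⁻ x : Eu n, ENNReal.ofReal (x i ^ (2 * (k + 2)) * Real.exp (-V x)) ≤
      ENNReal.ofReal (4 * ((2 * (k + 2)).factorial : ℝ) * (64 * S) ^ (k + 2)) := by
    have := momR hU hnej (k + 2)
    simpa only [hxi] using this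
  have hm3 := momR hU hw (k + 2)
  have hpt : ∀ x : Eu n, ENNReal.ofReal (om S w x ^ 2) *
      ENNReal.ofReal (x i ^ (2 * (k + 1)) * Real.exp (-V x)) ≤
      ENNReal.ofReal S * ENNReal.ofReal (x i ^ (2 * (k + 1)) * Real.exp (-V x)) +
        (ENNReal.ofReal ((inner ℝ x w : ℝ) ^ (2 * (k + 2)) * Real.exp (-V x)) +
          ENNReal.ofReal (x i ^ (2 * (k + 2)) * Real.exp (-V x))) := by
    intro x
    set y : ℝ := inner ℝ x w with hy
    set E := Real.exp (-V x) with hE
    have hE0 : 0 < E := Real.exp_pos _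
    have e1 : x i ^ (2 * (k + 1)) = (x i ^ 2) ^ (k + 1) := by rw [pow_mul]
    have e2 : x i ^ (2 * (k + 2)) = (x i ^ 2) ^ (k + 2) := by rw [pow_mul]
    have e3 : y ^ (2 * (k + 2)) = (y ^ 2) ^ (k + 2) := by rw [pow_mul]
    rw [hom, ← hy, e1, e2, e3]
    have ha : 0 ≤ x i ^ 2 := sq_nonneg _
    have hb : 0 ≤ y ^ 2 := sq_nonneg _
    generalize x i ^ 2 = a at ha
    generalize y ^ 2 = b at hb
    rw [← ENNReal.ofReal_mul (by positivity), ← ENNReal.ofReal_mul hS.le,
      ← ENNReal.ofReal_add (by positivity) (by positivity),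
      ← ENNReal.ofReal_add (by positivity) (by positivity)]
    apply ENNReal.ofReal_le_ofReal
    have hab : b * a ^ (k + 1) ≤ b ^ (k + 2) + a ^ (k + 2) := by
      rcases le_total a b with h | h
      · have : a ^ (k + 1) ≤ b ^ (k + 1) := pow_le_pow_left₀ ha h _
        have h2 : b * a ^ (k + 1) ≤ b * b ^ (k + 1) := mul_le_mul_of_nonneg_left this hb
        have h3 : b * b ^ (k + 1) = b ^ (k + 2) := by ring
        have h4 : 0 ≤ a ^ (k + 2) := by positivity
        linarith
      · have h2 : b * a ^ (k + 1) ≤ a * a ^ (k + 1) :=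
          mul_le_mul_of_nonneg_right h (by positivity)
        have h3 : a * a ^ (k + 1) = a ^ (k + 2) := by ring
        have h4 : 0 ≤ b ^ (k + 2) := by positivity
        linarith
    have := mul_le_mul_of_nonneg_right hab hE0.le
    nlinarith
  have hmE : Measurable fun x : Eu n => Real.exp (-V x) := hce.measurable
  have htot : ∫⁻ x in {x : Eu n | 0 < x i}, ENNReal.ofReal (om S w x ^ 2) *
      ENNReal.ofReal (x i ^ (2 * (k + 1)) * Real.exp (-V x)) ≤
      ENNReal.ofReal (S * (4 * ((2 * (k + 1)).factorial : ℝ) * (64 * S) ^ (k + 1)) +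
        (4 * ((2 * (k + 2)).factorial : ℝ) * (64 * S) ^ (k + 2) +
          4 * ((2 * (k + 2)).factorial : ℝ) * (64 * S) ^ (k + 2))) := by
    refine (setLIntegral_le_lintegral _ _).trans ((lintegral_mono hpt).trans ?_)
    have hma : Measurable fun x : Eu n =>
        ENNReal.ofReal (x i ^ (2 * (k + 1)) * Real.exp (-V x)) :=
      ((hcx.pow _).mul hce).measurable.ennreal_ofReal
    have hmb : Measurable fun x : Eu n =>
        ENNReal.ofReal ((inner ℝ x w : ℝ) ^ (2 * (k + 2)) * Real.exp (-V x)) :=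
      ((hci.pow _).mul hce).measurable.ennreal_ofReal
    rw [lintegral_add_left (hma.const_mul _), lintegral_add_left hmb,
      lintegral_const_mul _ hma,
      ENNReal.ofReal_add (by positivity) (by positivity),
      ENNReal.ofReal_add (by positivity) (by positivity),
      ENNReal.ofReal_mul hS.le]
    exact add_le_add (mul_le_mul_right hm1 _) (add_le_add hm3 hm2)
  refine (mul_le_mul_right htot _).trans ?_
  rw [← ENNReal.ofReal_mul (by positivity)]
  apply ENNReal.ofReal_le_ofReal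
  have hf0 : 0 < (k.factorial : ℝ) := by positivity
  rw [div_mul_eq_mul_div, div_le_iff₀ (by positivity)]
  have f1 := momR_fac1 k
  have f2 := momR_fac2 k
  have e512 : (512 * S) ^ (k + 1) = 8 ^ (k + 1) * (64 * S) ^ (k + 1) := by
    rw [← mul_pow]; congr 1; ring
  have e64 : (64 * S) ^ (k + 2) = 64 * S * (64 * S) ^ (k + 1) := by ring
  rw [e512, e64]
  set F := (k.factorial : ℝ) ^ 2 with hF
  set A := (8 : ℝ) ^ (k + 1) with hA
  have hP : 0 < S * (64 * S) ^ (k + 1) := by positivity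
  set B := (64 * S) ^ (k + 1) with hB
  have hFA : 0 < A * F := by positivity
  have g1 := mul_le_mul_of_nonneg_left f1 hP.le
  have g2 := mul_le_mul_of_nonneg_left f2 hP.le
  have g3 : 0 < S * B * (A * F) := mul_pos hP hFA
  nlinarith

end Pool.Agent.Lib.MP_6d896a_gt.UC.UR
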