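import Mathlib
import Pool.Agent.Lib.MP_6d896a_gt.UR.Defs
import Pool.Agent.Lib.MP_6d896a_gt.UC.Basic
import Pool.Agent.Lib.MP_6d896a_gt.UC.Fib
import Pool.Agent.Lib.MP_6d896a_gt.UR.MomR

/-!
Project UR, piece R5: the weights `om` and the real-valued package `Jk`.
-/

set_option autoImplicit false
set_option linter.all false

namespace Pool.Agent.Lib.MP_6d896a_gt.UC.UR

open MeasureTheory Filter Topology Set
open scoped ENNReal NNReal ContDiff

variable {n : ℕ} {V f g u : Eu n → ℝ} {κ Λ S : ℝ} {i j : Fin n}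

/-! ### the weights -/

lemma om_pos (hS : 0 < S) (w x : Eu n) : 0 < om S w x :=
  Real.sqrt_pos.2 (by positivity)

lemma om_ge (hS : 0 < S) (w x : Eu n) : Real.sqrt S ≤ om S w x :=
  Real.sqrt_le_sqrt (by have := sq_nonneg (inner ℝ x w); linarith)

lemma om_abs (hS : 0 < S) (w x : Eu n) : |inner ℝ x w| ≤ om S w x :=
  Real.abs_le_sqrt (by linarith)

lemma om_smooth (hS : 0 < S) (w : Eu n) : ContDiff ℝ ∞ (om S w) := by
  unfold om
  refine ContDiff.sqrt ?_ ?_
  · exact contDiff_const.add ((contDiff_id.inner ℝ contDiff_const).pow 2)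
  · intro x
    positivity

private lemma inner_ej {w : Eu n} (hwi : w i = 0) : inner ℝ (ej i : Eu n) w = 0 := by
  unfold ej
  rw [EuclideanSpace.inner_single_left, hwi]
  simp

lemma om_fib {w : Eu n} (hwi : w i = 0) (x : Eu n) (t : ℝ) :
    om S w (x + t • ej i) = om S w x := by
  unfold om
  rw [inner_add_left, inner_smul_left, inner_ej hwi]
  simp

lemma om_Rf {w : Eu n} (hwi : w i = 0) : Ei i (om S w) := by
  intro x
  have h : Rf i x = x + (-2 * x i) • ej i := by
    ext k
    rw [Rf_apply]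
    simp only [PiLp.add_apply, PiLp.smul_apply, smul_eq_mul, ej, EuclideanSpace.single_apply]
    split_ifs with hk
    · subst hk; ring
    · ring
  rw [h, om_fib hwi]

lemma om_mul_TT (hS : 0 < S) (w : Eu n) (hf : TT f) : TT (fun x => om S w x * f x) :=
  ⟨(om_smooth hS w).mul hf.cd, hf.cs.mul_left (f := om S w)⟩

lemma pd_om_mul (hS : 0 < S) {w : Eu n} (hwi : w i = 0) (hf : TT f) (x : Eu n) :
    pd i (fun x => om S w x * f x) x = om S w x * pd i f x := by
  have hd : Differentiable ℝ (om S w) := (om_smooth hS w).differentiable (by norm_num)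
  rw [pd_mul hd hf.differentiable]
  have h0 : pd i (om S w) x = 0 := by
    unfold pd
    have h1 : HasDerivAt (fun t : ℝ => om S w (x + t • ej i)) (fderiv ℝ (om S w) x (ej i)) 0 := by
      have h2 : HasFDerivAt (om S w) (fderiv ℝ (om S w) x) (x + (0 : ℝ) • ej i) := by
        rw [zero_smul, add_zero]
        exact (hd x).hasFDerivAt
      have h3 : HasDerivAt (fun t : ℝ => x + t • ej i) (ej i : Eu n) 0 := by
        simpa using ((hasDerivAt_id (0 : ℝ)).smul_const (ej i : Eu n)).const_add x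
      exact h2.comp_hasDerivAt (0 : ℝ) h3
    have h4 : (fun t : ℝ => om S w (x + t • ej i)) = fun _ => om S w x := by
      funext t
      exact om_fib hwi x t
    rw [h4] at h1
    exact h1.unique (hasDerivAt_const (0 : ℝ) (om S w x))
  rw [h0]
  ring

/-! ### the package -/

private lemma jr_bound (hU : GP V κ Λ S) (hVi : Ei i V) {w : Eu n} (hwi : w i = 0) (hw : ‖w‖ ≤ 1)
    (hf : Continuous f) (hc : HasCompactSupport f) (k : ℕ) :
    Ik V i (k + 1) (fun x => om S w x * f x) ≤ ENNReal.ofReal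
      (Real.sqrt (10 ^ 6 * S * (512 * S) ^ (k + 1)) * Real.sqrt (Ex V (fun x => f x ^ 2))) := by
  have hV : Continuous V := hU.cd.continuous
  have hT := Tk_meas hV i (k + 1)
  have hS := hU.Spos
  have hom : Continuous (om S w) := (om_smooth hS w).continuous
  set s : Set (Eu n) := {x | 0 < x i} with hs
  set A : Eu n → ℝ≥0∞ := fun x => ENNReal.ofReal (|f x| * Real.exp (-V x / 2)) with hA
  set B : Eu n → ℝ≥0∞ := fun x => ENNReal.ofReal (om S w x) *
    (Tk V i (k + 1) x * ENNReal.ofReal (Real.exp (V x / 2))) with hB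
  have hAm : Measurable A :=
    ((hf.abs.mul (Real.continuous_exp.comp (hV.neg.div_const 2))).measurable).ennreal_ofReal
  have hBm : Measurable B :=
    hom.measurable.ennreal_ofReal.mul
      (hT.mul ((Real.continuous_exp.comp (hV.div_const 2)).measurable).ennreal_ofReal)
  have hAB : ∀ x, (A * B) x = ENNReal.ofReal |om S w x * f x| * Tk V i (k + 1) x := by
    intro x
    show ENNReal.ofReal (|f x| * Real.exp (-V x / 2)) * (ENNReal.ofReal (om S w x) *
      (Tk V i (k + 1) x * ENNReal.ofReal (Real.exp (V x / 2)))) = _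
    rw [abs_mul, abs_of_pos (om_pos hS w x), ENNReal.ofReal_mul (abs_nonneg _),
      ENNReal.ofReal_mul (om_pos hS w x).le]
    have h1 : ENNReal.ofReal (Real.exp (-V x / 2)) * ENNReal.ofReal (Real.exp (V x / 2)) = 1 := by
      rw [← ENNReal.ofReal_mul (Real.exp_pos _).le, ← Real.exp_add]
      have : -V x / 2 + V x / 2 = 0 := by ring
      rw [this, Real.exp_zero, ENNReal.ofReal_one]
    calc ENNReal.ofReal |f x| * ENNReal.ofReal (Real.exp (-V x / 2)) *
        (ENNReal.ofReal (om S w x) *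
          (Tk V i (k + 1) x * ENNReal.ofReal (Real.exp (V x / 2))))
        = ENNReal.ofReal (om S w x) * ENNReal.ofReal |f x| * Tk V i (k + 1) x *
          (ENNReal.ofReal (Real.exp (-V x / 2)) * ENNReal.ofReal (Real.exp (V x / 2))) := by ring
      _ = _ := by rw [h1, mul_one]
  have hH := ENNReal.lintegral_mul_le_Lp_mul_Lq (volume.restrict s)
    (Real.holderConjugate_iff.mpr ⟨by norm_num, by norm_num⟩ : (2 : ℝ).HolderConjugate 2)
    hAm.aemeasurable hBm.aemeasurable
  have e1 : Ik V i (k + 1) (fun x => om S w x * f x) = ∫⁻ x in s, (A * B) x := by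
    unfold Ik
    exact lintegral_congr fun x => (hAB x).symm
  -- first factor
  have hi : Integrable (fun x => f x ^ 2 * Real.exp (-V x)) :=
    int_cs hV (hf.pow 2) (hc.comp_left (g := fun t : ℝ => t ^ 2) (by simp))
  have hA2 : ∫⁻ x in s, A x ^ (2 : ℝ) ≤ ENNReal.ofReal (Ex V (fun x => f x ^ 2)) := by
    have e2 : ∀ x, A x ^ (2 : ℝ) = ENNReal.ofReal (f x ^ 2 * Real.exp (-V x)) := by
      intro x
      show ENNReal.ofReal (|f x| * Real.exp (-V x / 2)) ^ (2 : ℝ) = _
      rw [ENNReal.ofReal_rpow_of_nonneg (by positivity) (by norm_num), Real.rpow_ofNat, mul_pow,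
        sq_abs, ← Real.exp_nat_mul]
      congr 3
      push_cast
      ring
    refine (setLIntegral_le_lintegral s _).trans ?_
    simp only [e2]
    unfold Ex
    rw [← ofReal_integral_eq_lintegral_ofReal hi (ae_of_all _ fun x => by positivity)]
  have hB2 : ∫⁻ x in s, B x ^ (2 : ℝ) ≤ ENNReal.ofReal (10 ^ 6 * S * (512 * S) ^ (k + 1)) := by
    have e2 : ∀ x, B x ^ (2 : ℝ) = ENNReal.ofReal (om S w x ^ 2) *
        (Tk V i (k + 1) x ^ 2 * ENNReal.ofReal (Real.exp (V x))) := by
      intro x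
      show (ENNReal.ofReal (om S w x) *
        (Tk V i (k + 1) x * ENNReal.ofReal (Real.exp (V x / 2)))) ^ (2 : ℝ) = _
      rw [show ((2 : ℝ)) = ((2 : ℕ) : ℝ) by norm_num, ENNReal.rpow_natCast, mul_pow, mul_pow,
        ← ENNReal.ofReal_pow (om_pos hS w x).le, ← ENNReal.ofReal_pow (Real.exp_pos _).le,
        ← Real.exp_nat_mul]
      congr 4
      push_cast
      ring
    simp only [e2]
    exact QR_final hU hVi hwi hw k
  rw [e1]
  refine hH.trans ?_
  refine (mul_le_mul' (ENNReal.rpow_le_rpow hA2 (by norm_num))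
    (ENNReal.rpow_le_rpow hB2 (by norm_num))).trans ?_
  have hE0 : 0 ≤ Ex V (fun x => f x ^ 2) := integral_nonneg fun x => by positivity
  rw [ENNReal.ofReal_rpow_of_nonneg hE0 (by norm_num),
    ENNReal.ofReal_rpow_of_nonneg (by positivity) (by norm_num),
    ← ENNReal.ofReal_mul (Real.rpow_nonneg hE0 _), ← Real.sqrt_eq_rpow, ← Real.sqrt_eq_rpow,
    mul_comm]

private lemma jr_ne_top (hU : GP V κ Λ S) (hVi : Ei i V) (hf : Continuous f)
    (hc : HasCompactSupport f) (k : ℕ) : Ik V i (k + 1) f ≠ ⊤ := by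
  have hS := hU.Spos
  have hom : Continuous (om S (0 : Eu n)) := (om_smooth hS 0).continuous
  have hne : ∀ x : Eu n, om S 0 x ≠ 0 := fun x => (om_pos hS 0 x).ne'
  have h1 : Continuous (fun x => f x / om S (0 : Eu n) x) := hf.div hom hne
  have h2 : HasCompactSupport (fun x => f x / om S (0 : Eu n) x) := by
    have : (fun x => f x / om S (0 : Eu n) x) = fun x => f x * (om S (0 : Eu n) x)⁻¹ := by
      funext x; rw [div_eq_mul_inv]
    rw [this]
    exact hc.mul_right (f' := fun x => (om S (0 : Eu n) x)⁻¹)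
  have h3 := jr_bound hU hVi (w := 0) (by simp) (by simp) h1 h2 k
  have h4 : (fun x => om S (0 : Eu n) x * (f x / om S (0 : Eu n) x)) = f := by
    funext x
    rw [mul_div_cancel₀ _ (hne x)]
  rw [h4] at h3
  exact ne_top_of_le_ne_top ENNReal.ofReal_ne_top h3

theorem JR_cs (hU : GP V κ Λ S) (hVi : Ei i V) {w : Eu n} (hwi : w i = 0) (hw : ‖w‖ ≤ 1)
    (hf : Continuous f) (hc : HasCompactSupport f) (k : ℕ) :
    Jk V i (k + 1) (fun x => om S w x * f x) ≤
      Real.sqrt (10 ^ 6 * S * (512 * S) ^ (k + 1)) * Real.sqrt (Ex V (fun x => f x ^ 2)) :=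
  ENNReal.toReal_le_of_le_ofReal (by positivity) (jr_bound hU hVi hwi hw hf hc k)

theorem JR_chain (hU : GP V κ Λ S) (hVi : Ei i V) (hf : TT f) (hf0 : ∀ x, x i = 0 → f x = 0)
    (k : ℕ) : Jk V i k f ≤ Jk V i (k + 1) (pd i f) := by
  have hp : TT (pd i f) := hf.pd i
  exact ENNReal.toReal_mono (jr_ne_top hU hVi hp.continuous hp.cs k)
    (Ik_chain hU.cd.continuous (hf.cd.of_le (by norm_num)) hf0 k)

private lemma jr_hyper (i : Fin n) : (volume : Measure (Eu n)) {x | x i = 0} = 0 := by
  have h := Measure.addHaar_submodule (volume : Measure (Eu n))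
    (LinearMap.ker ((EuclideanSpace.proj i : Eu n →L[ℝ] ℝ) : Eu n →ₗ[ℝ] ℝ)) (by
      intro htop
      have h1 : (ej i : Eu n) ∈
          LinearMap.ker ((EuclideanSpace.proj i : Eu n →L[ℝ] ℝ) : Eu n →ₗ[ℝ] ℝ) := by
        rw [htop]; trivial
      simp [ej] at h1)
  refine le_antisymm (le_trans (measure_mono fun x hx => ?_) h.le) bot_le
  simpa using hx

theorem JR_zero (hU : GP V κ Λ S) (hVi : Ei i V) (hf : TT f) (he : Ei i f) :
    Ex V (fun x => |f x|) = 2 * Jk V i 0 f := by
  have hV : Continuous V := hU.cd.continuous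
  have hfc : Continuous f := hf.continuous
  set F : Eu n → ℝ := fun x => |f x| * Real.exp (-V x) with hF
  have hFi : Integrable F := int_cs hV hfc.abs (hf.cs.comp_left (g := fun t : ℝ => |t|) (by simp))
  set s : Set (Eu n) := {x | 0 < x i} with hs
  have hsm : MeasurableSet s := measurableSet_lt measurable_const (by fun_prop)
  have hme : MeasurableEmbedding (Rf i : Eu n → Eu n) := (Rf i).toHomeomorph.measurableEmbedding
  have h1 := ((Rf i).measurePreserving).setIntegral_preimage_emb hme F s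
  have hFR : ∀ x, F (Rf i x) = F x := by
    intro x
    show |f (Rf i x)| * Real.exp (-V (Rf i x)) = _
    rw [he, hVi x]
  simp only [hFR] at h1
  have hpre : (Rf i : Eu n → Eu n) ⁻¹' s = {x | x i < 0} := by
    ext x
    simp [hs, Rf_apply]
  rw [hpre] at h1
  have h2 : ∫ x in sᶜ, F x = ∫ x in {x : Eu n | x i < 0}, F x := by
    refine setIntegral_congr_set ?_
    have h3 : sᶜ = {x : Eu n | x i < 0} ∪ {x | x i = 0} := by
      ext x
      simp only [hs, mem_compl_iff, mem_setOf_eq, not_lt, mem_union]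
      exact le_iff_lt_or_eq
    rw [h3]
    exact union_ae_eq_left_of_ae_eq_empty (ae_eq_empty.2 (jr_hyper i))
  have h4 : Ex V (fun x => |f x|) = ∫ x, F x := rfl
  have h5 : Jk V i 0 f = ∫ x in s, F x := by
    unfold Jk Ik
    have e2 : ∀ x, ENNReal.ofReal |f x| * Tk V i 0 x = ENNReal.ofReal (F x) := by
      intro x
      show ENNReal.ofReal |f x| * ENNReal.ofReal (Real.exp (-V x)) = _
      rw [← ENNReal.ofReal_mul (abs_nonneg _)]
    simp only [e2]
    rw [← ofReal_integral_eq_lintegral_ofReal hFi.integrableOn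
      (ae_of_all _ fun x => by positivity),
      ENNReal.toReal_ofReal (integral_nonneg fun x => by positivity)]
  rw [h4, ← integral_add_compl hsm hFi, h2, h1, h5]
  ring

theorem JR_sub (hU : GP V κ Λ S) (hVi : Ei i V) (hf : Continuous f) (hc : HasCompactSupport f)
    (hg : Continuous g) (hd : HasCompactSupport g) (k : ℕ) :
    Jk V i (k + 1) f ≤ Jk V i (k + 1) g + Jk V i (k + 1) (fun x => f x - g x) := by
  have hV : Continuous V := hU.cd.continuous
  have hT := Tk_meas hV i (k + 1)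
  have h1 := jr_ne_top hU hVi hg hd k
  have h2 : Ik V i (k + 1) (fun x => f x - g x) ≠ ⊤ := jr_ne_top hU hVi (hf.sub hg) (hc.sub hd) k
  unfold Jk
  rw [← ENNReal.toReal_add h1 h2]
  refine ENNReal.toReal_mono (ENNReal.add_ne_top.2 ⟨h1, h2⟩) ?_
  have hm : Measurable fun x => ENNReal.ofReal |g x| * Tk V i (k + 1) x :=
    hg.abs.measurable.ennreal_ofReal.mul hT
  have h3 : Ik V i (k + 1) g + Ik V i (k + 1) (fun x => f x - g x) =
      ∫⁻ x in {x : Eu n | 0 < x i}, (ENNReal.ofReal |g x| * Tk V i (k + 1) x +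
        ENNReal.ofReal |f x - g x| * Tk V i (k + 1) x) :=
    (lintegral_add_left hm _).symm
  rw [h3]
  unfold Ik
  refine lintegral_mono fun x => ?_
  show ENNReal.ofReal |f x| * Tk V i (k + 1) x ≤ ENNReal.ofReal |g x| * Tk V i (k + 1) x +
    ENNReal.ofReal |f x - g x| * Tk V i (k + 1) x
  rw [← add_mul, ← ENNReal.ofReal_add (abs_nonneg _) (abs_nonneg _)]
  refine mul_le_mul_left (ENNReal.ofReal_le_ofReal ?_) _
  have := abs_add_le (g x) (f x - g x)
  rwa [add_sub_cancel] at this

theorem JR_mono (hU : GP V κ Λ S) (hVi : Ei i V) (hg : Continuous g) (hd : HasCompactSupport g)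
    (h : ∀ x, |f x| ≤ |g x|) (k : ℕ) : Jk V i (k + 1) f ≤ Jk V i (k + 1) g := by
  refine ENNReal.toReal_mono (jr_ne_top hU hVi hg hd k) ?_
  unfold Ik
  refine lintegral_mono fun x => ?_
  exact mul_le_mul_left (ENNReal.ofReal_le_ofReal (h x)) _

end Pool.Agent.Lib.MP_6d896a_gt.UC.UR
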