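import Mathlib
import Pool.Agent.Lib.MP_6d896a_gt.UR.IterRA
import Pool.Agent.Lib.MP_6d896a_gt.UR.AbsorbR

/-!
Project UR, piece R7b: the iteration and the improved inequality.
-/

set_option autoImplicit false
set_option linter.unusedVariables false

namespace Pool.Agent.Lib.MP_6d896a_gt.UC.UR

open MeasureTheory Filter Topology Set ProbabilityTheory
open scoped ENNReal NNReal ContDiff

variable {n : ℕ} {V f g u : Eu n → ℝ} {κ Λ S : ℝ} {i : Fin n}

lemma JkR_nonneg (V : Eu n → ℝ) (i : Fin n) (k : ℕ) (f : Eu n → ℝ) : 0 ≤ Jk V i k f :=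
  ENNReal.toReal_nonneg

lemma ExR_sq_le (hU : GP V κ Λ S) (hg : TT g) : (Ex V g) ^ 2 ≤ Ex V (fun x => g x ^ 2) := by
  have hV := hU.contV
  have h1 : Integrable (fun x => (1 : ℝ) ^ 2 * Real.exp (-V x)) := by simpa using hU.int
  have h2 := Ex_cs (V := V) (f := g) (g := fun _ => (1 : ℝ)) (hg.sq.int hV) h1
    (by simpa using hg.int hV)
  have h3 : Ex V (fun _ => (1 : ℝ) ^ 2) = 1 := by simpa using hU.mass
  rw [h3, mul_one] at h2
  simpa using h2

/-- the excess is nonnegative -/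
lemma SfR_nonneg {c : ℝ} (hc : 0 < c) (hP : HP V c) (hg : TT g) :
    0 ≤ Sf V (1 / c) g := by
  unfold Sf
  have h1 := hP g hg
  have h2 : (1 / c) * (Ex V (fun x => g x ^ 2) - (Ex V g) ^ 2) ≤ (1 / c) * (c * Df V g g) :=
    mul_le_mul_of_nonneg_left h1 (by positivity)
  have h3 : (1 / c) * (c * Df V g g) = Df V g g := by field_simp
  linarith

/-- the second moment of the weight -/
lemma om_sq_int (hU : GP V κ Λ S) (w : Eu n) :
    Integrable (fun x => om S w x ^ 2 * Real.exp (-V x)) := by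
  have hV := hU.contV
  have hS := hU.Spos
  have h1 : Integrable (fun x => S * Real.exp (-V x) + ‖w‖ ^ 2 * (‖x‖ ^ 2 * Real.exp (-V x))) :=
    (hU.int.const_mul S).add (hU.momi.const_mul _)
  refine h1.mono' ?_ (ae_of_all _ fun x => ?_)
  · exact (((om_smooth hS w).continuous.pow 2).mul
      (Real.continuous_exp.comp hV.neg)).aestronglyMeasurable
  · rw [Real.norm_eq_abs, abs_of_nonneg (by positivity)]
    have h2 : om S w x ^ 2 = S + inner ℝ x w ^ 2 := Real.sq_sqrt (by positivity)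
    rw [h2]
    have h3 : inner ℝ x w ^ 2 ≤ ‖x‖ ^ 2 * ‖w‖ ^ 2 := by
      rw [← mul_pow, ← sq_abs]
      exact pow_le_pow_left₀ (abs_nonneg _) (abs_real_inner_le_norm x w) 2
    have h4 := Real.exp_pos (-V x)
    nlinarith [mul_le_mul_of_nonneg_right h3 h4.le]

lemma om_sq_le (hU : GP V κ Λ S) {w : Eu n} (hw : ‖w‖ ≤ 1) :
    Ex V (fun x => om S w x ^ 2) ≤ 2 * S := by
  have hV := hU.contV
  have hS := hU.Spos
  have e : (fun x => om S w x ^ 2) = fun x => S * 1 + inner ℝ x w ^ 2 := by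
    funext x
    rw [mul_one]
    exact Real.sq_sqrt (by positivity)
  have hi : Integrable (fun x => inner ℝ x w ^ 2 * Real.exp (-V x)) := by
    refine (om_sq_int hU w).mono' ?_ (ae_of_all _ fun x => ?_)
    · have : Continuous (fun x : Eu n => inner ℝ x w ^ 2) := by fun_prop
      exact (this.mul (Real.continuous_exp.comp hV.neg)).aestronglyMeasurable
    · rw [Real.norm_eq_abs, abs_of_nonneg (by positivity)]
      have h2 : om S w x ^ 2 = S + inner ℝ x w ^ 2 := Real.sq_sqrt (by positivity)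
      rw [h2]
      exact mul_le_mul_of_nonneg_right (by linarith) (Real.exp_pos _).le
  have hi1 : Integrable (fun x => (S * 1) * Real.exp (-V x)) := by
    simpa using hU.int.const_mul S
  rw [e, Ex_add hi1 hi]
  have h3 : Ex V (fun _ => S * 1) = S := by
    rw [Ex_const_mul, hU.mass, mul_one]
  rw [h3]
  have h4 := hU.mom w
  have h5 : ‖w‖ ^ 2 ≤ 1 := pow_le_one₀ (norm_nonneg _) hw
  nlinarith

/-- the sequences -/
theorem exists_seqR (hU : GP V κ Λ S) (hVi : Ei i V) {c : ℝ} (hc : 0 < c) (hP : HP V c)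
    {g : Eu n → ℝ} (hg : GR i g) {τ : ℝ} (hτ : 0 < τ) :
    ∃ (G : ℕ → Eu n → ℝ) (w : ℕ → Eu n), G 0 = g ∧ (∀ j, GR i (G j)) ∧
      (∀ j, w j i = 0 ∧ ‖w j‖ ≤ 1) ∧
      (∀ j, Sf V (1 / c) (G (j + 1)) ≤
        (1 / c) * Sf V (1 / c) (G j) + (1 / c) * (Ex V (G (j + 1))) ^ 2 +
        4 * (1 / c) ^ 3 * (Ex V (fun x => |inner ℝ x (w j)| * G j x)) ^ 2 +
          4 * S * (1 / c) ^ 2 * Sf V (1 / c) (G j) + τ) ∧
      (∀ j, Ex V (fun x => G (j + 1) x ^ 2) ≤ (1 / c) * Ex V (fun x => G j x ^ 2) + τ) ∧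
      ∀ (w' : Eu n), w' i = 0 → ‖w'‖ ≤ 1 → ∀ j k, Jk V i k (fun x => om S w' x * G j x) ≤
        Jk V i (k + 1) (fun x => om S w' x * G (j + 1) x) +
        Real.sqrt (10 ^ 6 * S * (512 * S) ^ (k + 1)) *
          (Real.sqrt (Sf V (1 / c) (G j) + τ) + τ) := by
  choose nx wx hnx using fun (g : {g : Eu n → ℝ // GR i g}) => one_stepR hU hVi hc hP g.2 hτ
  let step : {g : Eu n → ℝ // GR i g} → {g : Eu n → ℝ // GR i g} := fun g => ⟨nx g, (hnx g).1⟩
  let sq : ℕ → {g : Eu n → ℝ // GR i g} := fun j => step^[j] ⟨g, hg⟩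
  have hs : ∀ j, (sq (j + 1)).1 = nx (sq j) := by
    intro j
    show (step^[j + 1] ⟨g, hg⟩).1 = nx (step^[j] ⟨g, hg⟩)
    rw [Function.iterate_succ_apply']
  refine ⟨fun j => (sq j).1, fun j => wx (sq j), rfl, fun j => (sq j).2,
    fun j => ⟨(hnx (sq j)).2.1, (hnx (sq j)).2.2.1⟩, fun j => ?_, fun j => ?_, ?_⟩
  · dsimp only
    rw [hs]; exact (hnx (sq j)).2.2.2.1
  · dsimp only
    rw [hs]; exact (hnx (sq j)).2.2.2.2.1
  · intro w' h1 h2 j k
    dsimp only
    rw [hs]; exact (hnx (sq j)).2.2.2.2.2 w' h1 h2 k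

/-- the telescoped chain -/
lemma chain_sumR {E Q : ℕ → ℝ} {J : ℕ → ℕ → ℝ}
    (h : ∀ j k, J j k ≤ J (j + 1) (k + 1) + Q (k + 1) * E j) (a d k : ℕ) :
    J a k ≤ ∑ j ∈ Finset.Ico a (a + d), Q (j - a + k + 1) * E j + J (a + d) (k + d) := by
  induction d generalizing a k with
  | zero => simp
  | succ d ih =>
    have h1 := h a k
    have h2 := ih (a + 1) (k + 1)
    have e1 : a + (d + 1) = (a + 1) + d := by ring
    have e2 : k + (d + 1) = (k + 1) + d := by ring
    rw [e1, e2, Finset.sum_eq_sum_Ico_succ_bot (by omega)]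
    have e3 : ∑ j ∈ Finset.Ico (a + 1) (a + 1 + d), Q (j - a + k + 1) * E j =
        ∑ j ∈ Finset.Ico (a + 1) (a + 1 + d), Q (j - (a + 1) + (k + 1) + 1) * E j := by
      apply Finset.sum_congr rfl
      intro j hj
      rw [Finset.mem_Ico] at hj
      have : j - a + k + 1 = j - (a + 1) + (k + 1) + 1 := by omega
      rw [this]
    rw [e3]
    have e4 : a - a + k + 1 = k + 1 := by omega
    rw [e4]
    linarith

/-- the parameter of the steps -/
lemma exists_paramR {l q : ℝ} (hq : 0 < q) (hql : q ^ 2 = l) (m : ℕ) {τ : ℝ} (hτ : 0 < τ) :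
    ∃ t : ℝ, 0 < t ∧ (∀ j, j ≤ m → t ≤ τ / (m + 1) * l ^ (j + 1)) ∧
      (∀ j, j ≤ m → t ≤ τ * q ^ (j + 1)) ∧ (∀ j, j ≤ m → t ≤ τ * l ^ (j + 2)) := by
  set r := min q 1 with hr
  have hr0 : 0 < r := lt_min hq one_pos
  have hr1 : r ≤ 1 := min_le_right _ _
  have hrq : r ≤ q := min_le_left _ _
  have key : ∀ a, a ≤ 2 * m + 4 → r ^ (2 * m + 4) ≤ q ^ a := fun a ha =>
    (pow_le_pow_of_le_one hr0.le hr1 ha).trans (pow_le_pow_left₀ hr0.le hrq a)
  have hm1 : (1 : ℝ) ≤ m + 1 := by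
    have : (0 : ℝ) ≤ m := Nat.cast_nonneg m
    linarith
  have hle : τ / (m + 1) ≤ τ := div_le_self hτ.le hm1
  refine ⟨τ / (m + 1) * r ^ (2 * m + 4), by positivity, fun j hj => ?_, fun j hj => ?_,
    fun j hj => ?_⟩
  · rw [← hql, ← pow_mul]
    exact mul_le_mul_of_nonneg_left (key _ (by omega)) (by positivity)
  · exact mul_le_mul hle (key _ (by omega)) (by positivity) hτ.le
  · rw [← hql, ← pow_mul]
    exact mul_le_mul hle (key _ (by omega)) (by positivity) hτ.le

theorem improvedR (hU : GP V κ Λ S) (hVi : Ei i V) {c : ℝ} (hc : 0 < c) (hP : HP V c)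
    (hcS : 10 ^ 14 * S ≤ c) (hg : GR i g) :
    (Ex V g) ^ 2 ≤ c * Df V g g - Ex V (fun x => g x ^ 2) := by
  have hS := hU.Spos
  set l := 1 / c with hl
  have hl0 : 0 < l := by positivity
  have hlc : l * c = 1 := by rw [hl]; field_simp
  have hSl : S * l ≤ 1 / 10 ^ 14 := by
    rw [le_div_iff₀ (by norm_num)]
    have := mul_le_mul_of_nonneg_right hcS hl0.le
    nlinarith
  set q := Real.sqrt l with hq
  have hq0 : 0 < q := Real.sqrt_pos.mpr hl0
  have hq2 : q ^ 2 = l := Real.sq_sqrt hl0.le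
  set P := Real.sqrt (512 * S) with hPdef
  have hP0 : 0 < P := Real.sqrt_pos.mpr (by positivity)
  have hP2 : P ^ 2 = 512 * S := Real.sq_sqrt (by positivity)
  set σ := Real.sqrt S with hσ
  have hσ0 : 0 < σ := Real.sqrt_pos.mpr hS
  have hσ2 : σ ^ 2 = S := Real.sq_sqrt hS.le
  set δ := P * q with hδ
  have hδ0 : 0 < δ := by positivity
  set X := c * Df V g g - Ex V (fun x => g x ^ 2) with hX
  have hN0 : 0 ≤ Ex V (fun x => g x ^ 2) := Ex_nonneg fun x => sq_nonneg _
  have hEx0 : 0 ≤ Ex V g := Ex_nonneg hg.nn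
  have hSf0 : 0 ≤ Sf V l g := by rw [hl]; exact SfR_nonneg hc hP hg.tt
  have hsX : Sf V l g / l = X + Ex V g ^ 2 := by
    rw [div_eq_iff hl0.ne']
    unfold Sf
    have : (X + Ex V g ^ 2) * l =
        (l * c) * Df V g g - l * Ex V (fun x => g x ^ 2) + l * Ex V g ^ 2 := by
      rw [hX]; ring
    rw [this, hlc]
    ring
  suffices hab : (Ex V g) ^ 2 ≤ (Sf V l g / l) / 4 by
    rw [hsX] at hab
    nlinarith [sq_nonneg (Ex V g)]
  refine absorbR (K := 4 * 10 ^ 6) (δ := δ) (N := Ex V (fun x => g x ^ 2)) (by norm_num) hδ0 ?_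
    (div_nonneg hSf0 hl0.le) hN0 hEx0 ?_
  · have h1 : δ ^ 2 ≤ 512 / 10 ^ 14 := by
      rw [hδ, mul_pow, hP2, hq2]
      nlinarith
    have h2 : Real.sqrt (4 * 10 ^ 6) = 2000 := by
      rw [show (4 * 10 ^ 6 : ℝ) = 2000 ^ 2 by norm_num]
      exact Real.sqrt_sq (by norm_num)
    have h3 : δ ≤ 1 / 400000 := by
      apply le_of_sq_le_sq _ (by norm_num)
      refine h1.trans (by norm_num)
    rw [h2]
    nlinarith
  intro m τ hτ
  -- the parameter of the steps
  obtain ⟨t, ht, ht1, ht2, ht3⟩ := exists_paramR hq0 hq2 m hτ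
  obtain ⟨G, w, hG0, hG, hw, hS1, hN1, hJ1⟩ := exists_seqR hU hVi hc hP hg ht
  rw [← hl] at hS1 hN1
  simp only [← hl] at hJ1
  have hSn : ∀ j, 0 ≤ Sf V l (G j) := fun j => by
    rw [hl]; exact SfR_nonneg hc hP (hG j).tt
  have hV := hU.contV
  -- comparison of the weighted means
  have homT : ∀ j (w' : Eu n), TT (fun x => om S w' x * G j x) := fun j w' =>
    om_mul_TT hS w' (hG j).tt
  have hb : ∀ j (w' : Eu n), σ * Ex V (G j) ≤ Ex V (fun x => om S w' x * G j x) := by
    intro j w'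
    rw [← Ex_const_mul]
    refine Ex_mono (((hG j).tt.const_mul σ).int hV) ((homT j w').int hV) fun x => ?_
    exact mul_le_mul_of_nonneg_right (om_ge hS w' x) ((hG j).nn x)
  have hbw : ∀ j (w' : Eu n), Ex V (fun x => |inner ℝ x w'| * G j x) ≤
      Ex V (fun x => om S w' x * G j x) := by
    intro j w'
    refine Ex_mono ?_ ((homT j w').int hV) fun x => ?_
    · refine int_cs hV ?_ ?_
      · have : Continuous (fun x : Eu n => |inner ℝ x w'|) := by fun_prop
        exact this.mul (hG j).tt.continuous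
      · exact (hG j).tt.cs.mul_left
    · exact mul_le_mul_of_nonneg_right (om_abs hS w' x) ((hG j).nn x)
  have hom0 : ∀ j (w' : Eu n), 0 ≤ Ex V (fun x => om S w' x * G j x) := fun j w' =>
    Ex_nonneg fun x => mul_nonneg (om_pos hS w' x).le ((hG j).nn x)
  refine ⟨fun j => Ex V (fun x => om S (w j) x * G j x) / (σ * q ^ j),
    fun j => Sf V l (G j) / l ^ (j + 1), ?_, ?_, ?_, ?_, ?_, ?_⟩
  · have h1 := hb 0 (w 0)
    show Ex V g ≤ Ex V (fun x => om S (w 0) x * G 0 x) / (σ * q ^ 0)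
    rw [le_div_iff₀ (by positivity), pow_zero, mul_one]
    rw [hG0] at h1 ⊢
    linarith
  · simp [hG0]
  · intro j
    exact div_nonneg (hom0 j _) (by positivity)
  · intro j
    exact div_nonneg (hSn j) (by positivity)
  · intro j hj
    have h1 := hS1 j
    have h2 := ht3 j hj.le
    show Sf V l (G (j + 1)) / l ^ (j + 1 + 1) ≤ 4 * (Sf V l (G j) / l ^ (j + 1) +
      (Ex V (fun x => om S (w j) x * G j x) / (σ * q ^ j)) ^ 2 +
      (Ex V (fun x => om S (w (j + 1)) x * G (j + 1) x) / (σ * q ^ (j + 1))) ^ 2) + τ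
    -- the terms
    have p1 : Ex V (G (j + 1)) ^ 2 ≤
        (Ex V (fun x => om S (w (j + 1)) x * G (j + 1) x) / σ) ^ 2 := by
      have h3 := hb (j + 1) (w (j + 1))
      refine pow_le_pow_left₀ (Ex_nonneg (hG (j + 1)).nn) ?_ 2
      rw [le_div_iff₀ hσ0]
      linarith
    have p2 : (Ex V (fun x => |inner ℝ x (w j)| * G j x)) ^ 2 ≤
        S * (Ex V (fun x => om S (w j) x * G j x) / σ) ^ 2 := by
      have h3 : S * (Ex V (fun x => om S (w j) x * G j x) / σ) ^ 2 =
          (Ex V (fun x => om S (w j) x * G j x)) ^ 2 := by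
        rw [div_pow, hσ2]
        field_simp
      rw [h3]
      exact pow_le_pow_left₀ (Ex_nonneg fun x => mul_nonneg (abs_nonneg _) ((hG j).nn x))
        (hbw j (w j)) 2
    set B0 := Ex V (fun x => om S (w j) x * G j x) / σ with hB0
    set B1 := Ex V (fun x => om S (w (j + 1)) x * G (j + 1) x) / σ with hB1
    have e0 : (Ex V (fun x => om S (w j) x * G j x) / (σ * q ^ j)) ^ 2 = B0 ^ 2 / l ^ j := by
      rw [← div_div, ← hB0, div_pow, ← pow_mul, mul_comm j 2, pow_mul, hq2]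
    have e1 : (Ex V (fun x => om S (w (j + 1)) x * G (j + 1) x) / (σ * q ^ (j + 1))) ^ 2 =
        B1 ^ 2 / l ^ (j + 1) := by
      rw [← div_div, ← hB1, div_pow, ← pow_mul, mul_comm (j + 1) 2, pow_mul, hq2]
    rw [e0, e1, div_le_iff₀ (by positivity)]
    have e2 : (4 * (Sf V l (G j) / l ^ (j + 1) + B0 ^ 2 / l ^ j + B1 ^ 2 / l ^ (j + 1)) + τ) *
        l ^ (j + 1 + 1) = 4 * l * Sf V l (G j) + 4 * l ^ 2 * B0 ^ 2 + 4 * l * B1 ^ 2 +
          τ * l ^ (j + 2) := by
      have hne : l ≠ 0 := hl0.ne'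
      clear_value l
      field_simp
      ring
    rw [e2]
    have q1 : l * Ex V (G (j + 1)) ^ 2 ≤ l * B1 ^ 2 := mul_le_mul_of_nonneg_left p1 hl0.le
    have q2 : 4 * l ^ 3 * (Ex V (fun x => |inner ℝ x (w j)| * G j x)) ^ 2 ≤
        4 * l ^ 3 * (S * B0 ^ 2) := mul_le_mul_of_nonneg_left p2 (by positivity)
    have q3 : 4 * l ^ 3 * (S * B0 ^ 2) = (4 * l ^ 2 * B0 ^ 2) * (S * l) := by ring
    have q4 : (4 * l ^ 2 * B0 ^ 2) * (S * l) ≤ (4 * l ^ 2 * B0 ^ 2) * 1 :=
      mul_le_mul_of_nonneg_left (hSl.trans (by norm_num)) (by positivity)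
    have q5 : 4 * S * l ^ 2 * Sf V l (G j) = (4 * (l * Sf V l (G j))) * (S * l) := by ring
    have q6 : (4 * (l * Sf V l (G j))) * (S * l) ≤ (4 * (l * Sf V l (G j))) * (1 / 2) :=
      mul_le_mul_of_nonneg_left (hSl.trans (by norm_num))
        (by have := mul_nonneg hl0.le (hSn j); linarith)
    have q7 : 0 ≤ l * B1 ^ 2 := by positivity
    have q8 := mul_nonneg hl0.le (hSn j)
    linarith
  · intro a ha
    show Ex V (fun x => om S (w a) x * G a x) / (σ * q ^ a) ≤
      Real.sqrt (4 * 10 ^ 6) * (∑ j ∈ Finset.Ico a m, δ ^ (j - a + 1) *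
        (Real.sqrt (Sf V l (G j) / l ^ (j + 1) + τ) + τ) +
        δ ^ (m - a) * Real.sqrt (Ex V (fun x => g x ^ 2) + τ))
    obtain ⟨hwi, hw1⟩ := hw a
    -- second moments
    have hNj : ∀ j, j ≤ m → Ex V (fun x => G j x ^ 2) / l ^ j ≤
        Ex V (fun x => g x ^ 2) + j * (τ / (m + 1)) := by
      intro j
      induction j with
      | zero => intro _; simp [hG0]
      | succ j ih =>
        intro hj
        have h1 := ih (by omega)
        have h2 := hN1 j
        have h3 := ht1 j (by omega)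
        rw [div_le_iff₀ (by positivity)] at h1 ⊢
        push_cast
        rw [pow_succ]
        rw [pow_succ] at h3
        nlinarith [mul_le_mul_of_nonneg_left h1 hl0.le]
    have hNm : Ex V (fun x => G m x ^ 2) ≤ (Ex V (fun x => g x ^ 2) + τ) * (q ^ m) ^ 2 := by
      have h1 := hNj m le_rfl
      rw [div_le_iff₀ (by positivity)] at h1
      have e : (q ^ m) ^ 2 = l ^ m := by rw [← pow_mul, mul_comm, pow_mul, hq2]
      rw [e]
      refine h1.trans ?_
      apply mul_le_mul_of_nonneg_right _ (by positivity)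
      have h2 : (m : ℝ) * (τ / (m + 1)) ≤ τ := by
        rw [mul_div_assoc', div_le_iff₀ (by positivity)]
        nlinarith
      linarith
    have hNs : Real.sqrt (Ex V (fun x => G m x ^ 2)) ≤
        Real.sqrt (Ex V (fun x => g x ^ 2) + τ) * q ^ m := by
      apply Real.sqrt_le_iff.mpr
      refine ⟨by positivity, ?_⟩
      rw [mul_pow, Real.sq_sqrt (by positivity)]
      exact hNm
    have h2000 : Real.sqrt (4 * 10 ^ 6) = 2000 := by
      rw [show (4 * 10 ^ 6 : ℝ) = 2000 ^ 2 by norm_num]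
      exact Real.sqrt_sq (by norm_num)
    have hQ : ∀ k : ℕ, Real.sqrt (10 ^ 6 * S * (512 * S) ^ k) = 1000 * σ * P ^ k := by
      intro k
      rw [Real.sqrt_eq_iff_mul_self_eq (by positivity) (by positivity)]
      have : 1000 * σ * P ^ k * (1000 * σ * P ^ k) = 10 ^ 6 * σ ^ 2 * (P ^ 2) ^ k := by
        rw [← pow_mul, mul_comm 2 k, pow_mul]; ring
      rw [this, hσ2, hP2]
    rcases ha.eq_or_lt with rfl | ha'
    · simp only [Finset.Ico_self, Finset.sum_empty, zero_add, Nat.sub_self, pow_zero, one_mul]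
      rw [div_le_iff₀ (by positivity), h2000]
      have h1 : Ex V (fun x => om S (w a) x * G a x) ≤
          Real.sqrt (2 * S) * Real.sqrt (Ex V (fun x => G a x ^ 2)) := by
        have hcs := Ex_cs (V := V) (f := om S (w a)) (g := G a) (om_sq_int hU (w a))
          ((hG a).tt.sq.int hV) ((homT a (w a)).int hV)
        have h5 : (Ex V (fun x => om S (w a) x * G a x)) ^ 2 ≤
            (2 * S) * Ex V (fun x => G a x ^ 2) :=
          hcs.trans (mul_le_mul_of_nonneg_right (om_sq_le hU hw1)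
            (Ex_nonneg fun x => sq_nonneg _))
        rw [← Real.sqrt_mul (by positivity)]
        exact Real.le_sqrt_of_sq_le h5
      have h6 : Real.sqrt (2 * S) ≤ 2 * σ := by
        rw [Real.sqrt_le_left (by positivity), mul_pow, hσ2]
        nlinarith
      have h7 : Real.sqrt (2 * S) * Real.sqrt (Ex V (fun x => G a x ^ 2)) ≤
          (2 * σ) * (Real.sqrt (Ex V (fun x => g x ^ 2) + τ) * q ^ a) :=
        mul_le_mul h6 hNs (Real.sqrt_nonneg _) (by positivity)
      refine h1.trans (h7.trans ?_)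
      have h8 : 0 ≤ σ * (Real.sqrt (Ex V (fun x => g x ^ 2) + τ) * q ^ a) := by positivity
      have h9 : 2000 * Real.sqrt (Ex V (fun x => g x ^ 2) + τ) * (σ * q ^ a) =
          2000 * (σ * (Real.sqrt (Ex V (fun x => g x ^ 2) + τ) * q ^ a)) := by ring
      rw [h9]
      linarith
    · have hch := chain_sumR (E := fun j => Real.sqrt (Sf V l (G j) + t) + t)
        (Q := fun k => Real.sqrt (10 ^ 6 * S * (512 * S) ^ k))
        (J := fun j k => Jk V i k (fun x => om S (w a) x * G j x))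
        (fun j k => hJ1 (w a) hwi hw1 j k) a (m - a) 0
      simp only [add_zero, zero_add] at hch
      rw [show a + (m - a) = m by omega] at hch
      have hz := JR_zero hU hVi (homT a (w a)) (fun x => by
        show om S (w a) (Rf i x) * G a (Rf i x) = om S (w a) x * G a x
        rw [om_Rf hwi x, (hG a).ev x])
      have hab : Ex V (fun x => |om S (w a) x * G a x|) = Ex V (fun x => om S (w a) x * G a x) := by
        congr 1
        funext x
        exact abs_of_nonneg (mul_nonneg (om_pos hS _ x).le ((hG a).nn x))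
      rw [hab] at hz
      obtain ⟨k, hk⟩ : ∃ k, m - a = k + 1 := ⟨m - a - 1, by omega⟩
      have hlast : Jk V i (m - a) (fun x => om S (w a) x * G m x) ≤ 1000 * σ * P ^ (m - a) *
          (Real.sqrt (Ex V (fun x => g x ^ 2) + τ) * q ^ m) := by
        rw [hk]
        refine (JR_cs hU hVi hwi hw1 (hG m).tt.continuous (hG m).tt.cs k).trans ?_
        rw [hQ]
        exact mul_le_mul_of_nonneg_left hNs (by positivity)
      have hterm : ∀ j ∈ Finset.Ico a m, Real.sqrt (10 ^ 6 * S * (512 * S) ^ (j - a + 1)) *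
          (Real.sqrt (Sf V l (G j) + t) + t) ≤ 1000 * σ * (q ^ a * (δ ^ (j - a + 1) *
          (Real.sqrt (Sf V l (G j) / l ^ (j + 1) + τ) + τ))) := by
        intro j hj
        rw [Finset.mem_Ico] at hj
        rw [hQ]
        have h1 : Real.sqrt (Sf V l (G j) + t) ≤
            q ^ (j + 1) * Real.sqrt (Sf V l (G j) / l ^ (j + 1) + τ) := by
          apply Real.sqrt_le_iff.mpr
          refine ⟨by positivity, ?_⟩
          have h0 : 0 ≤ Sf V l (G j) / l ^ (j + 1) + τ := by
            have := div_nonneg (hSn j) (by positivity : 0 ≤ l ^ (j + 1))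
            positivity
          rw [mul_pow, Real.sq_sqrt h0, ← pow_mul, mul_comm (j + 1) 2, pow_mul, hq2, mul_add,
            mul_div_cancel₀ _ (by positivity)]
          have h2 := ht1 j (by omega)
          have h3 : τ / (m + 1) * l ^ (j + 1) ≤ l ^ (j + 1) * τ := by
            rw [mul_comm]
            apply mul_le_mul_of_nonneg_left _ (by positivity)
            apply div_le_self hτ.le
            have : (0 : ℝ) ≤ m := Nat.cast_nonneg m
            linarith
          linarith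
        have h2 := ht2 j (by omega)
        have h3 : Real.sqrt (Sf V l (G j) + t) + t ≤
            q ^ (j + 1) * (Real.sqrt (Sf V l (G j) / l ^ (j + 1) + τ) + τ) := by
          rw [mul_add]
          linarith
        refine (mul_le_mul_of_nonneg_left h3 (by positivity)).trans (le_of_eq ?_)
        rw [hδ, mul_pow]
        have e : q ^ (j + 1) = q ^ a * q ^ (j - a + 1) := by
          rw [← pow_add]
          congr 1
          omega
        rw [e]
        ring
      have hsum := Finset.sum_le_sum hterm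
      rw [← Finset.mul_sum, ← Finset.mul_sum] at hsum
      rw [div_le_iff₀ (by positivity), hz, h2000]
      have hδm : δ ^ (m - a) * q ^ a = P ^ (m - a) * q ^ m := by
        rw [hδ, mul_pow, mul_assoc, ← pow_add]
        congr 2
        omega
      have e2 : 2000 * (∑ j ∈ Finset.Ico a m, δ ^ (j - a + 1) *
          (Real.sqrt (Sf V l (G j) / l ^ (j + 1) + τ) + τ) +
          δ ^ (m - a) * Real.sqrt (Ex V (fun x => g x ^ 2) + τ)) * (σ * q ^ a) =
          2 * (1000 * σ * (q ^ a * ∑ j ∈ Finset.Ico a m, δ ^ (j - a + 1) *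
          (Real.sqrt (Sf V l (G j) / l ^ (j + 1) + τ) + τ)) +
          1000 * σ * (δ ^ (m - a) * q ^ a) * Real.sqrt (Ex V (fun x => g x ^ 2) + τ)) := by
        ring
      rw [e2, hδm]
      have e3 : 1000 * σ * (P ^ (m - a) * q ^ m) * Real.sqrt (Ex V (fun x => g x ^ 2) + τ) =
          1000 * σ * P ^ (m - a) * (Real.sqrt (Ex V (fun x => g x ^ 2) + τ) * q ^ m) := by
        ring
      rw [e3]
      exact mul_le_mul_of_nonneg_left (hch.trans (add_le_add hsum hlast)) (by norm_num)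

end Pool.Agent.Lib.MP_6d896a_gt.UC.UR
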