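import Mathlib
import Pool.Agent.Lib.MP_6d896a_gt.UR.IterRB
import Pool.Agent.Lib.MP_6d896a_gt.UR.SuperR

/-!
Project UR, piece R9: a strictly better constant for functions odd in a coordinate.
-/

set_option autoImplicit false
set_option linter.unusedVariables false

namespace Pool.Agent.Lib.MP_6d896a_gt.UC.UR

open MeasureTheory Filter Topology Set ProbabilityTheory
open scoped ENNReal NNReal ContDiff

variable {n : ℕ} {V f g u : Eu n → ℝ} {κ Λ S : ℝ} {i : Fin n}

theorem gapR (hU : GP V κ Λ S) (hVi : Ei i V) {c : ℝ} (hc : 0 < c) (hP : HP V c)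
    (hcS : 10 ^ 14 * S ≤ c) : ∃ c', 0 < c' ∧ c' < c ∧ ∀ f : Eu n → ℝ, TT f →
      (∀ x, f (Rf i x) = - f x) → Ex V (fun x => f x ^ 2) ≤ c' * Df V f f := by
  have hV := hU.contV
  obtain ⟨β, hβ, hsp⟩ := superR hU (r := c / 2) (by positivity)
  refine ⟨(c / 2 + β * c) / (1 + β), by positivity, ?_, ?_⟩
  · rw [div_lt_iff₀ (by positivity)]
    nlinarith
  intro f hf ho
  set A := Ex V (fun x => |f x|) with hA
  have hA0 : 0 ≤ A := Ex_nonneg fun x => abs_nonneg _
  apply le_of_forall_pos_le_add
  intro τ hτ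
  set η : ℝ := τ / (2 * A + 1) with hη'
  have hη : 0 < η := by positivity
  have hηA : 2 * η * A ≤ τ := by
    have : η * (2 * A + 1) = τ := by rw [hη']; field_simp
    nlinarith
  set g := sab η f with hg'
  have hgT : TT g := sab_TT hη hf
  have hg : GR i g := by
    refine ⟨hgT, ?_, sab_nonneg hη f, ?_⟩
    · intro x
      show Real.sqrt (f (Rf i x) ^ 2 + η ^ 2) - η = Real.sqrt (f x ^ 2 + η ^ 2) - η
      rw [ho, neg_sq]
    · intro x hx
      exact sab_zero hη (oddR_zero ho hx)
  have hif2 : Integrable (fun x => f x ^ 2 * Real.exp (-V x)) := hf.sq.int hV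
  have hig2 : Integrable (fun x => g x ^ 2 * Real.exp (-V x)) := hgT.sq.int hV
  have hia : Integrable (fun x => |f x| * Real.exp (-V x)) :=
    int_cs hV hf.continuous.abs hf.cs.norm
  have hN2 : Ex V (fun x => f x ^ 2) ≤ Ex V (fun x => g x ^ 2) + 2 * η * A := by
    have e1 : Ex V (fun x => g x ^ 2 + 2 * η * |f x|) = Ex V (fun x => g x ^ 2) + 2 * η * A := by
      rw [Ex_add hig2 (by
        have := hia.const_mul (2 * η)
        refine this.congr (ae_of_all _ fun x => ?_)
        simp only
        ring), hA, ← Ex_const_mul]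
    rw [← e1]
    refine Ex_mono hif2 ?_ fun x => ?_
    · have := hig2.add (hia.const_mul (2 * η))
      refine this.congr (ae_of_all _ fun x => ?_)
      simp only [Pi.add_apply]
      ring
    · have a1 := sab_nonneg hη f x
      have a2 := sab_le hη f x
      have a3 := abs_le_sab (η := η) f x
      rw [← sq_abs (f x)]
      show |f x| ^ 2 ≤ sab η f x ^ 2 + 2 * η * |f x|
      nlinarith
  have h1 := hsp g hgT
  have h2 := improvedR hU hVi hc hP hcS hg
  have hab : Ex V (fun x => |g x|) = Ex V g := by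
    congr 1
    funext x
    exact abs_of_nonneg (hg.nn x)
  rw [hab] at h1
  have h3 : Ex V (fun x => g x ^ 2) ≤ (c / 2 + β * c) / (1 + β) * Df V g g := by
    rw [div_mul_eq_mul_div, le_div_iff₀ (by positivity)]
    nlinarith [mul_le_mul_of_nonneg_left h2 hβ.le]
  have hD := Df_sab hV hη hf
  rw [← hg'] at hD
  have h4 : (c / 2 + β * c) / (1 + β) * Df V g g ≤ (c / 2 + β * c) / (1 + β) * Df V f f :=
    mul_le_mul_of_nonneg_left hD (by positivity)
  linarith

end Pool.Agent.Lib.MP_6d896a_gt.UC.UR
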