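import Mathlib
import Pool.Agent.Lib.MP_6d896a_gt.UR.RotR
import Pool.Agent.Lib.MP_6d896a_gt.UR.GapR

/-!
Project UR, piece R10, last statement: `gapA` (needs GapR.lean).
-/

set_option autoImplicit false
set_option linter.all false

namespace Pool.Agent.Lib.MP_6d896a_gt.UC.UR

open MeasureTheory Filter Topology Set ProbabilityTheory
open scoped ENNReal NNReal ContDiff

variable {n : ℕ} {V f g u : Eu n → ℝ} {κ Λ S : ℝ} {i j : Fin n}

theorem gapA (hU : GP V κ Λ S) {a : Eu n} (ha : a ≠ 0) (hVa : ∀ x, V (RA a x) = V x) {c : ℝ}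
    (hc : 0 < c) (hP : HP V c) (hcS : 10 ^ 14 * S ≤ c) :
    ∃ c', 0 < c' ∧ c' < c ∧ ∀ f : Eu n → ℝ, TT f →
      (∀ x, f (RA a x) = - f x) → Ex V (fun x => f x ^ 2) ≤ c' * Df V f f :=
  gapA_of (fun _ _ hW hWi hWP => gapR hW hWi hc hWP hcS) hU ha hVa hP

end Pool.Agent.Lib.MP_6d896a_gt.UC.UR
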