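import Mathlib
import Pool.Agent.Lib.MP_6d896a_gt.UC.Basic
import Pool.Agent.Lib.MP_6d896a_gt.UR.StepR
import Pool.Agent.Lib.MP_6d896a_gt.UR.GapA

/-!
Project UR, piece R11: the Poincare inequality with a universal constant for smooth strongly convex
potentials invariant under reflections whose normals span the space.
-/

set_option autoImplicit false
set_option linter.unusedVariables false

namespace Pool.Agent.Lib.MP_6d896a_gt.UC.UR

open MeasureTheory Filter Topology Set ProbabilityTheory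
open scoped ENNReal NNReal ContDiff

variable {n : ℕ} {V f g u : Eu n → ℝ} {κ Λ S : ℝ} {i : Fin n}

/-- the sum of the squares of the scalar products with a spanning set -/
private lemma span_lower (A : Finset (Eu n))
    (hspan : Submodule.span ℝ (A : Set (Eu n)) = ⊤) :
    ∃ M : ℝ, 0 < M ∧ ∀ e : Eu n, ‖e‖ ^ 2 ≤ M * ∑ a ∈ A, inner ℝ e a ^ 2 := by
  let L : Eu n →ₗ[ℝ] (A → ℝ) := LinearMap.pi fun a => (innerₗ (Eu n)).flip (a : Eu n)
  have hL : ∀ e (a : A), L e a = inner ℝ e (a : Eu n) := fun e a => rfl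
  have hker : LinearMap.ker L = ⊥ := by
    rw [LinearMap.ker_eq_bot']
    intro e he
    have h1 : ∀ a ∈ A, inner ℝ e a = 0 := fun a ha => by
      have := congrFun he ⟨a, ha⟩
      rw [hL] at this
      exact this
    have h2 : ∀ x ∈ Submodule.span ℝ (A : Set (Eu n)), inner ℝ e x = 0 := by
      intro x hx
      induction hx using Submodule.span_induction with
      | mem x hx => exact h1 x hx
      | zero => exact inner_zero_right _
      | add x y _ _ hx hy => rw [inner_add_right, hx, hy, add_zero]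
      | smul t x _ hx => rw [inner_smul_right, hx, mul_zero]
    have h3 := h2 e (by rw [hspan]; trivial)
    exact inner_self_eq_zero.mp h3
  obtain ⟨K, hK, hKL⟩ := L.exists_antilipschitzWith hker
  refine ⟨(K : ℝ) ^ 2, by positivity, fun e => ?_⟩
  have h1 : ‖e‖ ≤ K * ‖L e‖ := by
    have := hKL.le_mul_dist e 0
    simpa using this
  have h2 : ‖L e‖ ^ 2 ≤ ∑ a ∈ A, inner ℝ e a ^ 2 := by
    have h3 : 0 ≤ ∑ a ∈ A, inner ℝ e a ^ 2 := Finset.sum_nonneg fun a _ => sq_nonneg _
    have h4 : ‖L e‖ ≤ Real.sqrt (∑ a ∈ A, inner ℝ e a ^ 2) := by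
      rw [pi_norm_le_iff_of_nonneg (Real.sqrt_nonneg _)]
      intro a
      rw [hL, Real.norm_eq_abs]
      apply Real.abs_le_sqrt
      exact Finset.single_le_sum (f := fun a => inner ℝ e a ^ 2) (fun a _ => sq_nonneg _) a.2
    calc ‖L e‖ ^ 2 ≤ (Real.sqrt (∑ a ∈ A, inner ℝ e a ^ 2)) ^ 2 :=
          pow_le_pow_left₀ (norm_nonneg _) h4 2
      _ = _ := Real.sq_sqrt h3
  calc ‖e‖ ^ 2 ≤ (K * ‖L e‖) ^ 2 := pow_le_pow_left₀ (norm_nonneg _) h1 2
    _ = (K : ℝ) ^ 2 * ‖L e‖ ^ 2 := by ring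
    _ ≤ _ := mul_le_mul_of_nonneg_left h2 (by positivity)

private lemma Df_smul (V : Eu n → ℝ) (hf : TT f) (t : ℝ) :
    Df V (fun x => t * f x) (fun x => t * f x) = t ^ 2 * Df V f f := by
  unfold Df
  rw [Finset.mul_sum]
  refine Finset.sum_congr rfl fun j _ => ?_
  rw [← Ex_const_mul]
  congr 1
  funext x
  rw [pd_const_mul hf.differentiable]
  ring

private lemma mean_sq_le (hU : GP V κ Λ S) (hg : Continuous g) (hc : HasCompactSupport g) :
    (Ex V g) ^ 2 ≤ Ex V (fun x => g x ^ 2) := by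
  have hV : Continuous V := hU.cd.continuous
  have h1 : Integrable (fun x => (1 : ℝ) ^ 2 * Real.exp (-V x)) := by simpa using hU.int
  have hs : HasCompactSupport (fun x => g x ^ 2) := by
    have : (fun x => g x ^ 2) = fun x => g x * g x := funext fun x => sq _
    rw [this]
    exact hc.mul_left
  have h2 := Ex_cs (V := V) (f := g) (g := fun _ => (1 : ℝ)) (int_cs hV (hg.pow 2) hs) h1
    (by simpa using int_cs hV hg hc)
  have h3 : Ex V (fun _ => (1 : ℝ) ^ 2) = 1 := by simpa using hU.mass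
  rw [h3, mul_one] at h2
  simpa using h2

/-- the mean of the derivative in the direction `a` of an almost extremal function -/
private lemma odd_part (hU : GP V κ Λ S) {a : Eu n} (hVa : ∀ x, V (RA a x) = V x) {c γ ε : ℝ}
    (hc : 0 < c) (hP : HP V c) (hγ : 0 < γ)
    (hgap : a ≠ 0 → ∀ f : Eu n → ℝ, TT f → (∀ x, f (RA a x) = - f x) →
      Ex V (fun x => f x ^ 2) ≤ (1 - γ) * c * Df V f f) (hf : TT f)
    (hfe : (1 - ε) * c * Df V f f ≤ Ex V (fun x => f x ^ 2) - (Ex V f) ^ 2) (hε : 0 ≤ ε) :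
    (Ex V (fun x => fderiv ℝ f x a)) ^ 2 ≤ ‖a‖ ^ 2 * (ε / γ * Df V f f) := by
  have hV : Continuous V := hU.cd.continuous
  have hD0 := Df_nonneg V f
  by_cases ha : a = 0
  · subst ha
    simp [Ex]
  have hgap := hgap ha
  set R := RA a with hR
  have hVR : (fun x => V (R x)) = V := funext hVa
  have hRR : ∀ x, R (R x) = x := RA_RA a
  have hExR : ∀ h : Eu n → ℝ, Ex V (fun x => h (R x)) = Ex V h := by
    intro h
    have := Ex_iso R V h
    rwa [hVR] at this
  set g : Eu n → ℝ := fun x => f (R x) with hg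
  have hgT : TT g := TT_iso R hf
  have hDg : Df V g g = Df V f f := by
    have := Df_iso R hV hf
    rwa [hVR] at this
  set p : Eu n → ℝ := fun x => (1 / 2) * (f x + g x) with hp
  set q : Eu n → ℝ := fun x => (1 / 2) * (f x - g x) with hq
  have hpT : TT p := (hf.add hgT).const_mul _
  have hqT : TT q := (hf.sub hgT).const_mul _
  have hqo : ∀ x, q (R x) = - q x := by
    intro x
    show (1 / 2) * (f (R x) - f (R (R x))) = - ((1 / 2) * (f x - f (R x)))
    rw [hRR]; ring
  have hDsum : Df V p p + Df V q q = Df V f f := by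
    rw [hp, hq, Df_smul V (hf.add hgT), Df_smul V (hf.sub hgT), Df_add hV hf hgT,
      Df_sub hV hf hgT, hDg]
    ring
  have hi : ∀ {h : Eu n → ℝ}, TT h → Integrable (fun x => h x * Real.exp (-V x)) := fun hh =>
    hh.int hV
  have hg2 : Ex V (fun x => g x ^ 2) = Ex V (fun x => f x ^ 2) := hExR (fun x => f x ^ 2)
  have hsq : Ex V (fun x => p x ^ 2) + Ex V (fun x => q x ^ 2) = Ex V (fun x => f x ^ 2) := by
    rw [← Ex_add (hi hpT.sq) (hi hqT.sq)]
    have e : (fun x => p x ^ 2 + q x ^ 2) = fun x => (1 / 2) * (f x ^ 2 + g x ^ 2) := by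
      funext x
      rw [hp, hq]
      ring
    rw [e, Ex_const_mul, Ex_add (hi hf.sq) (hi hgT.sq), hg2]
    ring
  have hmean : Ex V p = Ex V f := by
    rw [hp, Ex_const_mul, Ex_add (hi hf) (hi hgT)]
    have : Ex V g = Ex V f := hExR f
    rw [this]
    ring
  have h1 := hP p hpT
  rw [hmean] at h1
  have h2 := hgap q hqT hqo
  -- the odd part is small
  have h3 : γ * Df V q q ≤ ε * Df V f f := by
    have h4 : γ * c * Df V q q ≤ ε * c * Df V f f := by
      have : c * Df V p p = c * Df V f f - c * Df V q q := by rw [← hDsum]; ring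
      nlinarith
    have h5 : c * (γ * Df V q q) ≤ c * (ε * Df V f f) := by linarith
    exact le_of_mul_le_mul_left h5 hc
  have h4 : Df V q q ≤ ε / γ * Df V f f := by
    rw [div_mul_eq_mul_div, le_div_iff₀ hγ]
    linarith
  -- derivatives
  have hcd : ∀ {h : Eu n → ℝ}, TT h → Continuous (fun x => fderiv ℝ h x a) := fun hh =>
    (hh.cd.continuous_fderiv (by simp)).clm_apply continuous_const
  have hcs : ∀ {h : Eu n → ℝ}, TT h → HasCompactSupport (fun x => fderiv ℝ h x a) := fun hh =>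
    hh.cs.fderiv_apply (𝕜 := ℝ) a
  have hda : ∀ x, fderiv ℝ g x a = - fderiv ℝ f (R x) a := by
    intro x
    have h5 : HasFDerivAt f (fderiv ℝ f (R x)) (R x) := (hf.differentiable (R x)).hasFDerivAt
    have h6 : HasFDerivAt g ((fderiv ℝ f (R x)).comp
        (R.toContinuousLinearEquiv : Eu n →L[ℝ] Eu n)) x :=
      h5.comp x R.toContinuousLinearEquiv.hasFDerivAt
    rw [h6.fderiv]
    show fderiv ℝ f (R x) (R a) = _
    rw [hR, RA_self, map_neg]
  have hdq : ∀ x, fderiv ℝ q x a = (1 / 2) * (fderiv ℝ f x a + fderiv ℝ f (R x) a) := by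
    intro x
    have h5 : HasFDerivAt f (fderiv ℝ f x) x := (hf.differentiable x).hasFDerivAt
    have h6 : HasFDerivAt g (fderiv ℝ g x) x := (hgT.differentiable x).hasFDerivAt
    have h7 : HasFDerivAt q ((1 / 2 : ℝ) • (fderiv ℝ f x - fderiv ℝ g x)) x :=
      (h5.sub h6).const_mul (1 / 2)
    rw [h7.fderiv]
    show (1 / 2 : ℝ) * (fderiv ℝ f x a - fderiv ℝ g x a) = _
    rw [hda]
    ring
  have hmq : Ex V (fun x => fderiv ℝ q x a) = Ex V (fun x => fderiv ℝ f x a) := by
    have hc1 := int_cs hV (hcd hf) (hcs hf)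
    have hc2 : Integrable (fun x => fderiv ℝ f (R x) a * Real.exp (-V x)) := by
      have := int_cs hV (hcd hgT) (hcs hgT)
      refine this.neg.congr (ae_of_all _ fun x => ?_)
      simp only [Pi.neg_apply]
      rw [hda]
      ring
    have e : (fun x => fderiv ℝ q x a) =
        fun x => (1 / 2) * (fderiv ℝ f x a + fderiv ℝ f (R x) a) := funext hdq
    rw [e, Ex_const_mul, Ex_add hc1 hc2]
    have := hExR (fun x => fderiv ℝ f x a)
    rw [this]
    ring
  rw [← hmq]
  refine (mean_sq_le hU (hcd hqT) (hcs hqT)).trans ?_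
  have h8 : Ex V (fun x => fderiv ℝ q x a ^ 2) ≤ ‖a‖ ^ 2 * Df V q q := by
    rw [Df_eq V hqT hV, ← integral_const_mul]
    unfold Ex
    have hc3 : Continuous (fun x => ‖fderiv ℝ q x‖ ^ 2) :=
      ((hqT.cd.continuous_fderiv (by simp)).norm).pow 2
    have hs3 : HasCompactSupport (fun x => ‖fderiv ℝ q x‖ ^ 2) := by
      have h9 : HasCompactSupport (fun x => ‖fderiv ℝ q x‖) := (hqT.cs.fderiv (𝕜 := ℝ)).norm
      have : (fun x => ‖fderiv ℝ q x‖ ^ 2) = fun x => ‖fderiv ℝ q x‖ * ‖fderiv ℝ q x‖ :=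
        funext fun x => sq _
      rw [this]
      exact h9.mul_left
    have hs4 : HasCompactSupport (fun x => fderiv ℝ q x a ^ 2) := by
      have : (fun x => fderiv ℝ q x a ^ 2) = fun x => fderiv ℝ q x a * fderiv ℝ q x a :=
        funext fun x => sq _
      rw [this]
      exact (hcs hqT).mul_left
    refine integral_mono (int_cs hV ((hcd hqT).pow 2) hs4) ((int_cs hV hc3 hs3).const_mul _)
      fun x => ?_
    show fderiv ℝ q x a ^ 2 * Real.exp (-V x) ≤ ‖a‖ ^ 2 * (‖fderiv ℝ q x‖ ^ 2 * Real.exp (-V x))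
    rw [← mul_assoc]
    refine mul_le_mul_of_nonneg_right ?_ (Real.exp_pos _).le
    have h10 := (fderiv ℝ q x).le_opNorm a
    rw [Real.norm_eq_abs] at h10
    rw [← sq_abs, mul_comm, ← mul_pow]
    exact pow_le_pow_left₀ (abs_nonneg _) h10 2
  refine h8.trans ?_
  exact mul_le_mul_of_nonneg_left h4 (by positivity)

/-- a constant above the threshold can be improved -/
private theorem improve_constR (hU : GP V κ Λ S) {c : ℝ} (hc : 0 < c) (hP : HP V c)
    (hcS : 10 ^ 14 * S ≤ c) (A : Finset (Eu n)) (hA : ∀ a ∈ A, ∀ x, V (RA a x) = V x)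
    (hspan : Submodule.span ℝ (A : Set (Eu n)) = ⊤) :
    ∃ c', 0 < c' ∧ c' < c ∧ HP V c' := by
  classical
  have hV : Continuous V := hU.cd.continuous
  have hκ := hU.kpos
  -- a common gap
  obtain ⟨γ, hγ, hγ1, hgap⟩ : ∃ γ : ℝ, 0 < γ ∧ γ ≤ 1 ∧ ∀ a ∈ A, a ≠ 0 → ∀ f : Eu n → ℝ, TT f →
      (∀ x, f (RA a x) = - f x) → Ex V (fun x => f x ^ 2) ≤ (1 - γ) * c * Df V f f := by
    clear hspan
    induction A using Finset.induction_on with
    | empty => exact ⟨1, one_pos, le_rfl, fun a ha => absurd ha (Finset.notMem_empty a)⟩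
    | insert b A hb ih =>
      obtain ⟨γ, hγ, hγ1, h⟩ := ih fun a ha => hA a (Finset.mem_insert_of_mem ha)
      by_cases hb0 : b = 0
      · refine ⟨γ, hγ, hγ1, fun a ha ha0 => ?_⟩
        rcases Finset.mem_insert.1 ha with rfl | ha
        · exact absurd hb0 ha0
        · exact h a ha ha0
      · obtain ⟨c', hc'0, hc', h'⟩ := gapA hU hb0 (hA b (Finset.mem_insert_self b A)) hc hP hcS
        refine ⟨min γ ((c - c') / c), lt_min hγ (div_pos (by linarith) hc),
          (min_le_left _ _).trans hγ1, fun a ha ha0 f hf ho => ?_⟩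
        have hD := Df_nonneg V f
        rcases Finset.mem_insert.1 ha with rfl | ha
        · refine (h' f hf ho).trans (mul_le_mul_of_nonneg_right ?_ hD)
          have h1 : min γ ((c - c') / c) * c ≤ (c - c') / c * c :=
            mul_le_mul_of_nonneg_right (min_le_right _ _) hc.le
          rw [div_mul_cancel₀ _ hc.ne'] at h1
          linarith
        · refine (h a ha ha0 f hf ho).trans (mul_le_mul_of_nonneg_right ?_ hD)
          exact mul_le_mul_of_nonneg_right (by linarith [min_le_left γ ((c - c') / c)]) hc.le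
  obtain ⟨M, hM, hMe⟩ := span_lower A hspan
  set NA : ℝ := ∑ a ∈ A, ‖a‖ ^ 2 with hNA
  have hNA0 : 0 ≤ NA := Finset.sum_nonneg fun a _ => by positivity
  set l : ℝ := 1 / c with hl
  have hl0 : 0 < l := by positivity
  have hlc : l * c = 1 := by rw [hl]; field_simp
  set M1 : ℝ := l + 1 + 2 * l * (M * NA / γ) + 4 * l with hM1
  have hM10 : 0 < M1 := by positivity
  set ε : ℝ := 1 / (2 * (2 * M1 / κ + 4)) with hε'
  have hε : 0 < ε := by positivity
  have hε1 : ε * (2 * M1 / κ + 4) = 1 / 2 := by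
    rw [hε']; field_simp
  have hεlt : ε < 1 := by
    have : 0 ≤ ε * (2 * M1 / κ) := by positivity
    nlinarith
  refine ⟨(1 - ε) * c, mul_pos (by linarith) hc, by nlinarith, ?_⟩
  intro f hf
  by_contra hcon
  push Not at hcon
  have hD0 := Df_nonneg V f
  have hD : 0 < Df V f f := by
    rcases hD0.eq_or_lt with h0 | h0
    · have := hP f hf
      rw [← h0] at this hcon
      linarith
    · exact h0
  set D := Df V f f with hDdef
  -- the mean of the gradient
  set e : Eu n := WithLp.toLp 2 (fun j => Ex V (pd j f)) with he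
  have hej : ∀ j, e j = Ex V (pd j f) := fun j => rfl
  have hea : ∀ a : Eu n, inner ℝ e a = Ex V (fun x => fderiv ℝ f x a) := by
    intro a
    have h1 : inner ℝ e a = ∑ j, Ex V (fun x => a j * pd j f x) := by
      rw [PiLp.inner_apply]
      refine Finset.sum_congr rfl fun j _ => ?_
      rw [Ex_const_mul, hej]
      simp only [RCLike.inner_apply, conj_trivial]
    rw [h1]
    unfold Ex
    rw [← integral_finsetSum _ fun j _ => (((hf.pd j).const_mul (a j)).int hV)]
    refine integral_congr_ae (ae_of_all _ fun x => ?_)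
    show ∑ j, a j * pd j f x * Real.exp (-V x) = fderiv ℝ f x a * Real.exp (-V x)
    rw [← Finset.sum_mul]
    congr 1
    conv_rhs => rw [← sum_ej a]
    rw [map_sum]
    refine Finset.sum_congr rfl fun j _ => ?_
    rw [map_smul, smul_eq_mul]
    rfl
  have hfe : (1 - ε) * c * Df V f f ≤ Ex V (fun x => f x ^ 2) - (Ex V f) ^ 2 := hcon.le
  have hesq : ‖e‖ ^ 2 ≤ ε * (M * NA / γ) * D := by
    refine (hMe e).trans ?_
    have h1 : ∑ a ∈ A, inner ℝ e a ^ 2 ≤ ∑ a ∈ A, ‖a‖ ^ 2 * (ε / γ * D) := by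
      refine Finset.sum_le_sum fun a ha => ?_
      rw [hea]
      exact odd_part hU (hA a ha) hc hP hγ (hgap a ha) hf hfe hε.le
    rw [← Finset.sum_mul, ← hNA] at h1
    calc M * ∑ a ∈ A, inner ℝ e a ^ 2 ≤ M * (NA * (ε / γ * D)) :=
          mul_le_mul_of_nonneg_left h1 hM.le
      _ = ε * (M * NA / γ) * D := by ring
  -- the regularisation
  obtain ⟨u, hu, -, h1, h2, -, -⟩ := stepR hU hc hP ∅ (by simp) hf (by simp) (ε := ε * D)
    (by positivity)
  rw [← hl] at h1 h2
  have hSf : Sf V l f ≤ ε * D := by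
    unfold Sf
    have h3 : l * ((1 - ε) * c * D) ≤ l * (Ex V (fun x => f x ^ 2) - (Ex V f) ^ 2) :=
      mul_le_mul_of_nonneg_left hfe hl0.le
    have h4 : l * ((1 - ε) * c * D) = (l * c) * ((1 - ε) * D) := by ring
    rw [h4, hlc] at h3
    rw [← hDdef]
    linarith
  -- lower bound for the sum
  have h5 : ∀ j, - (l * (Ex V (pd j u)) ^ 2) ≤
      Df V (pd j u) (pd j u) - l * Ex V (fun x => pd j u x ^ 2) := by
    intro j
    have h6 := mul_le_mul_of_nonneg_left (hP (pd j u) (hu.pd j)) hl0.le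
    have h7 : l * (c * Df V (pd j u) (pd j u)) = Df V (pd j u) (pd j u) := by
      rw [← mul_assoc, hlc, one_mul]
    rw [h7] at h6
    linarith
  have hd : TT (fun x => f x - u x) := hf.sub hu
  have h8 : ∀ j, (Ex V (pd j u)) ^ 2 ≤ 2 * (e j) ^ 2 +
      2 * Ex V (fun x => pd j (fun x => f x - u x) x * pd j (fun x => f x - u x) x) := by
    intro j
    have h9 := mean_sq_le hU (hd.pd j).continuous (hd.pd j).cs
    have h10 : Ex V (pd j (fun x => f x - u x)) = e j - Ex V (pd j u) := by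
      rw [hej]
      have : (pd j (fun x => f x - u x)) = fun x => pd j f x - pd j u x :=
        funext fun x => pd_sub hf.differentiable hu.differentiable j x
      rw [this, Ex_sub ((hf.pd j).int hV) ((hu.pd j).int hV)]
    rw [h10] at h9
    have h11 : (fun x => pd j (fun x => f x - u x) x ^ 2) =
        fun x => pd j (fun x => f x - u x) x * pd j (fun x => f x - u x) x := funext fun x => sq _
    rw [h11] at h9
    nlinarith [sq_nonneg (2 * e j - Ex V (pd j u))]
  have h12 : ∑ j, (Ex V (pd j u)) ^ 2 ≤ 2 * ‖e‖ ^ 2 +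
      2 * Df V (fun x => f x - u x) (fun x => f x - u x) := by
    refine (Finset.sum_le_sum fun j _ => h8 j).trans (le_of_eq ?_)
    rw [Finset.sum_add_distrib, ← Finset.mul_sum, ← Finset.mul_sum, EuclideanSpace.norm_sq_eq]
    simp only [Real.norm_eq_abs, sq_abs]
    rfl
  have h13 : - (l * ∑ j, (Ex V (pd j u)) ^ 2) ≤
      ∑ j, (Df V (pd j u) (pd j u) - l * Ex V (fun x => pd j u x ^ 2)) := by
    rw [Finset.mul_sum, ← Finset.sum_neg_distrib]
    exact Finset.sum_le_sum fun j _ => h5 j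
  have h14 : Df V (fun x => f x - u x) (fun x => f x - u x) ≤ 2 * (ε * D) := by linarith
  have h15 : ∑ j, (Ex V (pd j u)) ^ 2 ≤ 2 * (ε * (M * NA / γ) * D) + 4 * (ε * D) := by linarith
  have h16 : l * ∑ j, (Ex V (pd j u)) ^ 2 ≤ l * (2 * (ε * (M * NA / γ) * D) + 4 * (ε * D)) :=
    mul_le_mul_of_nonneg_left h15 hl0.le
  have h17 : l * Sf V l f ≤ l * (ε * D) := mul_le_mul_of_nonneg_left hSf hl0.le
  have h18 : κ * Df V u u ≤ M1 * (ε * D) := by
    have : M1 * (ε * D) = l * (ε * D) + ε * D +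
        l * (2 * (ε * (M * NA / γ) * D) + 4 * (ε * D)) := by
      rw [hM1]; ring
    rw [this]
    linarith
  have h19 : Df V u u ≤ M1 * (ε * D) / κ := by
    rw [le_div_iff₀ hκ]
    linarith
  -- `D ≤ 2 Df u + 2 Df (f - u)`
  have h20 : D ≤ 2 * Df V u u + 2 * Df V (fun x => f x - u x) (fun x => f x - u x) := by
    have g1 := Df_add hV hd hu
    have g2 := Df_sub hV hd hu
    have g3 : (fun x => (fun x => f x - u x) x + u x) = f := by
      funext x; simp
    rw [g3] at g1
    have g4 := Df_nonneg V (fun x => (fun x => f x - u x) x - u x)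
    linarith
  have h21 : D ≤ (ε * (2 * M1 / κ + 4)) * D := by
    have : (ε * (2 * M1 / κ + 4)) * D = 2 * (M1 * (ε * D) / κ) + 4 * (ε * D) := by ring
    rw [this]
    linarith
  rw [hε1] at h21
  linarith

theorem mainR (hU : GP V κ Λ S) {c0 : ℝ} (hc0 : 0 < c0) (h0 : HP V c0) (A : Finset (Eu n))
    (hA : ∀ a ∈ A, ∀ x, V (RA a x) = V x) (hspan : Submodule.span ℝ (A : Set (Eu n)) = ⊤) :
    HP V (10 ^ 14 * S) := by
  have hS := hU.Spos
  set B : Set ℝ := {c | 0 < c ∧ HP V c} with hB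
  have hne : B.Nonempty := ⟨c0, hc0, h0⟩
  have hbdd : BddBelow B := ⟨0, fun c hc => hc.1.le⟩
  have hmono : ∀ {c c' : ℝ}, HP V c → c ≤ c' → HP V c' := fun h hcc f hf =>
    (h f hf).trans (mul_le_mul_of_nonneg_right hcc (Df_nonneg V f))
  by_contra hcon
  -- all elements are above the threshold
  have hab : ∀ c ∈ B, 10 ^ 14 * S ≤ c := by
    intro c hc
    by_contra h
    push Not at h
    exact hcon (hmono hc.2 h.le)
  set c1 := sInf B with hc1
  have h1 : 10 ^ 14 * S ≤ c1 := le_csInf hne hab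
  have h2 : 0 < c1 := by nlinarith
  have h3 : HP V c1 := by
    intro f hf
    have hD := Df_nonneg V f
    by_contra h
    push Not at h
    rcases hD.eq_or_lt with h0' | h0'
    · have := h0 f hf
      rw [← h0'] at this h
      linarith
    · have h4 : c1 < (Ex V (fun x => f x ^ 2) - (Ex V f) ^ 2) / Df V f f := by
        rw [lt_div_iff₀ h0']; exact h
      obtain ⟨c, hc, hlt⟩ := exists_lt_of_csInf_lt hne h4
      have h5 := hc.2 f hf
      rw [lt_div_iff₀ h0'] at hlt
      linarith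
  obtain ⟨c', hc'0, hc', hP'⟩ := improve_constR hU h2 h3 h1 A hA hspan
  have h6 : c1 ≤ c' := csInf_le hbdd ⟨hc'0, hP'⟩
  linarith

end Pool.Agent.Lib.MP_6d896a_gt.UC.UR
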