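import Mathlib
import Pool.Agent.Lib.MP_6d896a_gt.UR.Defs
import Pool.Agent.Lib.MP_6d896a_gt.FP.Codim
import Pool.Agent.Lib.MP_6d896a_gt.FP.Image

/-!
From log-concave measures invariant under reflections spanning the space to measures invariant
under some reflections, and to their linear images: the loss is proportional to the codimension.
-/

set_option autoImplicit false

namespace Pool.Agent.Lib.MP_6d896a_gt.UC.UR

open MeasureTheory ProbabilityTheory Set Filter
open scoped ENNReal Topology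

private lemma rc_RA_apply {n : ℕ} (a x : Eu n) :
    RA a x = x - (2 * inner ℝ a x / ‖a‖ ^ 2) • a := by
  unfold RA
  rw [Submodule.reflection_orthogonal_apply, Submodule.reflection_singleton_apply]
  simp only [RCLike.ofReal_real_eq_id, id_eq, neg_sub]
  rw [two_smul, ← add_smul]
  congr 2
  ring

private lemma ap_mono {E : Type*} [NormedAddCommGroup E] [NormedSpace ℝ E] [MeasurableSpace E]
    {μ : Measure E} {K K' : ℝ} (h : FP.AP μ K) (hK : K ≤ K') : FP.AP μ K' := by
  intro f hf hl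
  refine (h f hf hl).trans ?_
  exact mul_le_mul_of_nonneg_right hK (integral_nonneg fun x => variance_nonneg _ _)

/-- the affine invariant inequality for log-concave measures invariant under reflections -/
theorem refl_ap_codim {K : ℝ} (hK : 0 < K)
    (hap : ∀ (n : ℕ) (ν : Measure (EuclideanSpace ℝ (Fin n))) [IsProbabilityMeasure ν],
      FP.PLm ν → ∀ A : Finset (EuclideanSpace ℝ (Fin n)), (∀ a ∈ A, ν.map (RA a) = ν) →
      Submodule.span ℝ (A : Set (EuclideanSpace ℝ (Fin n))) = ⊤ → FP.AP ν K) :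
    ∃ D : ℝ, 1 ≤ D ∧
    ∀ (N : ℕ) (μ : Measure (Eu N)) [IsProbabilityMeasure μ], FP.PLm μ →
      ∀ A : Set (Eu N), (∀ a ∈ A, μ.map (RA a) = μ) → ∀ d : ℕ,
      N ≤ Module.finrank ℝ (Submodule.span ℝ A) + d → FP.AP μ (D * (K + d)) := by
  obtain ⟨C, hC, hcod⟩ := FP.ap_codim
  refine ⟨C, hC, ?_⟩
  intro N μ _ hpl A hinv d hd
  set W := Submodule.span ℝ A with hW
  set J : W ≃ₗᵢ[ℝ] Eu (Module.finrank ℝ W) := (stdOrthonormalBasis ℝ W).repr with hJ
  set P : Eu N →L[ℝ] Eu (Module.finrank ℝ W) :=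
    (J : W →L[ℝ] Eu (Module.finrank ℝ W)).comp W.orthogonalProjectionOnto with hP
  have hPm : Measurable P := P.continuous.measurable
  have hPx : ∀ x, P x = J (W.orthogonalProjectionOnto x) := fun x => rfl
  have hpr : ∀ a (ha : a ∈ W), W.orthogonalProjectionOnto a = ⟨a, ha⟩ := fun a ha =>
    W.orthogonalProjectionOnto_mem_subspace_eq_self ⟨a, ha⟩
  have hprob : IsProbabilityMeasure (μ.map P) :=
    Measure.isProbabilityMeasure_map hPm.aemeasurable
  -- the kernel
  have hker : Module.finrank ℝ (P : Eu N →ₗ[ℝ] Eu (Module.finrank ℝ W)).ker ≤ d := by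
    have h1 : (P : Eu N →ₗ[ℝ] Eu (Module.finrank ℝ W)).ker = Wᗮ := by
      ext x
      rw [LinearMap.mem_ker]
      show P x = 0 ↔ _
      rw [hPx, LinearIsometryEquiv.map_eq_zero_iff,
        Submodule.orthogonalProjectionOnto_eq_zero_iff]
    rw [h1]
    have h2 := Submodule.finrank_add_finrank_orthogonal W
    rw [finrank_euclideanSpace, Fintype.card_fin] at h2
    omega
  -- the reflections of the image
  have hPA : ∀ a ∈ A, ∀ x, P (RA a x) = RA (P a) (P x) := by
    intro a ha x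
    have haW : a ∈ W := Submodule.subset_span ha
    have h1 : inner ℝ (P a) (P x) = inner ℝ a x := by
      rw [hPx, hPx, J.inner_map_map, hpr a haW]
      exact Submodule.inner_orthogonalProjectionOnto_eq_of_mem_left ⟨a, haW⟩ x
    have h2 : ‖P a‖ = ‖a‖ := by
      rw [hPx, J.norm_map, hpr a haW]
      rfl
    rw [rc_RA_apply, rc_RA_apply, map_sub, map_smul, h1, h2]
  have hinv' : ∀ a ∈ A, (μ.map P).map (RA (P a)) = μ.map P := by
    intro a ha
    rw [Measure.map_map (RA (P a)).continuous.measurable hPm]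
    have h1 : (RA (P a) : Eu _ → Eu _) ∘ P = P ∘ (RA a : Eu N → Eu N) := by
      funext x
      exact (hPA a ha x).symm
    rw [h1, ← Measure.map_map hPm (RA a).continuous.measurable, hinv a ha]
  have hspan : Submodule.span ℝ (P '' A) = ⊤ := by
    have h1 : Submodule.map (P : Eu N →ₗ[ℝ] Eu (Module.finrank ℝ W)) W =
        Submodule.span ℝ (P '' A) :=
      Submodule.map_span (P : Eu N →ₗ[ℝ] Eu (Module.finrank ℝ W)) A
    rw [← h1, eq_top_iff]
    intro y _
    refine ⟨(J.symm y : W), (J.symm y).2, ?_⟩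
    show P (J.symm y : W) = y
    rw [hPx, hpr _ (J.symm y).2]
    exact J.apply_symm_apply y
  obtain ⟨A', hA', hspan'⟩ := (Submodule.fg_span_iff_fg_span_finset_subset (R := ℝ) (P '' A)).1
    (IsNoetherian.noetherian _)
  have hAP : FP.AP (μ.map P) K := by
    refine hap _ (μ.map P) (hpl.map (P : Eu N →ₗ[ℝ] Eu (Module.finrank ℝ W)) hPm) A'
      (fun a' ha' => ?_) (by rw [← hspan', hspan])
    obtain ⟨a, ha, rfl⟩ := hA' ha'
    exact hinv' a ha
  refine ap_mono (hcod N _ μ hpl P K hK hAP) ?_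
  have : ((Module.finrank ℝ (P : Eu N →ₗ[ℝ] Eu (Module.finrank ℝ W)).ker : ℕ) : ℝ) ≤ d := by
    exact_mod_cast hker
  exact mul_le_mul_of_nonneg_left (by linarith) (by linarith)

/-- the final statement, from the affine invariant inequality for measures invariant under
reflections which span the space -/
theorem refl_cheeger_codim {K : ℝ} (hK : 1 ≤ K)
    (hap : ∀ (n : ℕ) (ν : Measure (EuclideanSpace ℝ (Fin n))) [IsProbabilityMeasure ν],
      FP.PLm ν → ∀ A : Finset (EuclideanSpace ℝ (Fin n)), (∀ a ∈ A, ν.map (RA a) = ν) →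
      Submodule.span ℝ (A : Set (EuclideanSpace ℝ (Fin n))) = ⊤ → FP.AP ν K) :
    ∃ C : ℝ, 0 < C ∧ ∀ (N d : ℕ) (μ : Measure (EuclideanSpace ℝ (Fin N)))
    [IsProbabilityMeasure μ], FP.PLm μ →
    ∀ A : Set (EuclideanSpace ℝ (Fin N)), (∀ a ∈ A, μ.map (RA a) = μ) →
    N ≤ Module.finrank ℝ (Submodule.span ℝ A) + d →
    ∀ (n : ℕ) (T : EuclideanSpace ℝ (Fin N) →ₗ[ℝ] EuclideanSpace ℝ (Fin n)) (s : ℝ), 0 < s →
    (∀ θ : EuclideanSpace ℝ (Fin n), ‖θ‖ = 1 → Var[fun x => inner ℝ x θ; μ.map T] ≤ s) →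
    ∀ S : Set (EuclideanSpace ℝ (Fin n)), MeasurableSet S →
      ENNReal.ofReal (C / Real.sqrt ((d + 1) * s)) * min (μ.map T S) (μ.map T Sᶜ) ≤
        Filter.liminf
          (fun ε : ℝ => (μ.map T (Metric.thickening ε S) - μ.map T S) / ENNReal.ofReal ε)
          (𝓝[>] 0) := by
  obtain ⟨D, hD, hap'⟩ := refl_ap_codim (by linarith : 0 < K) hap
  obtain ⟨c, hc, hch⟩ := FP.cheeger_image
  have hDK : 1 ≤ D * K := one_le_mul_of_one_le_of_one_le hD hK
  refine ⟨c / Real.sqrt (D * K), by positivity, ?_⟩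
  intro N d μ _ hpl A hinv hNd n T s hs hvar S hS
  have hd0 : (0 : ℝ) ≤ d := Nat.cast_nonneg d
  have hapm : FP.AP μ (D * K * (d + 1)) := by
    refine ap_mono (hap' N μ hpl A hinv d hNd) ?_
    rw [mul_assoc]
    refine mul_le_mul_of_nonneg_left ?_ (by linarith)
    nlinarith
  have hD1 : 1 ≤ D * K * (d + 1) := one_le_mul_of_one_le_of_one_le hDK (by linarith)
  refine le_trans (le_of_eq ?_)
    (hch (EuclideanSpace ℝ (Fin N)) μ hpl _ hD1 hapm n T s hs hvar S hS)
  congr 2
  rw [mul_assoc (D * K), Real.sqrt_mul (by positivity) ((d + 1) * s), div_div]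

end Pool.Agent.Lib.MP_6d896a_gt.UC.UR
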