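import Mathlib
import Pool.Agent.Lib.MP_6d896a_gt.Ex18
import Pool.Agent.Lib.MP_6d896a_gt.UR.Defs

/-!
From log-concave measures invariant under reflections spanning the space to measures invariant
under some reflections, and to their linear images.
-/

set_option autoImplicit false

namespace Pool.Agent.Lib.MP_6d896a_gt.UC.UR

open MeasureTheory ProbabilityTheory Set Filter Pool.Agent.Lib.MP_6d896a_gt.FP
  Pool.Agent.Lib.MP_6d896a_gt.EX
open scoped ENNReal Topology

private lemma rf_RA_apply {n : ℕ} (a x : Eu n) :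
    RA a x = x - (2 * inner ℝ a x / ‖a‖ ^ 2) • a := by
  unfold RA
  rw [Submodule.reflection_orthogonal_apply, Submodule.reflection_singleton_apply]
  simp only [RCLike.ofReal_real_eq_id, id_eq, neg_sub]
  rw [two_smul, ← add_smul]
  congr 2
  ring

private lemma rf_fG_inv {N : ℕ} {O : Eu N ≃ₗᵢ[ℝ] Eu N} {μ : Measure (Eu N)}
    (h : μ.map O = μ) (d : ℝ) (x : Eu N) : fG μ d (O x) = fG μ d x := by
  unfold fG
  have hk : Continuous (fun z : Eu N => gk d (O x - z)) :=
    (gk_continuous d).comp (continuous_const.sub continuous_id)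
  conv_lhs => rw [← h]
  rw [integral_map O.continuous.measurable.aemeasurable hk.aestronglyMeasurable]
  congr 1
  funext z
  rw [← map_sub]
  unfold gk
  rw [LinearIsometryEquiv.norm_map]

/-- coordinates adapted to a subspace -/
private lemma rf_coord {N : ℕ} (W : Submodule ℝ (Eu N)) :
    ∃ (e : (Fin (N - Module.finrank ℝ W) ⊕ Fin (Module.finrank ℝ W) → ℝ) ≃L[ℝ] Eu N)
      (J : Eu (Module.finrank ℝ W) ≃ₗᵢ[ℝ] W),
      ∀ y : Fin (N - Module.finrank ℝ W) → ℝ, ∃ u ∈ Wᗮ, ∀ x : Eu (Module.finrank ℝ W),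
        e (Sum.elim y (EuclideanSpace.equiv (Fin _) ℝ x)) = u + (J x : Eu N) := by
  have hN : Module.finrank ℝ W + Module.finrank ℝ Wᗮ = N := by
    rw [Submodule.finrank_add_finrank_orthogonal, finrank_euclideanSpace, Fintype.card_fin]
  have hk : Module.finrank ℝ Wᗮ = N - Module.finrank ℝ W := by omega
  set b1 : OrthonormalBasis (Fin (N - Module.finrank ℝ W)) ℝ Wᗮ :=
    (stdOrthonormalBasis ℝ Wᗮ).reindex (finCongr hk) with hb1
  set b2 : OrthonormalBasis (Fin (Module.finrank ℝ W)) ℝ W := stdOrthonormalBasis ℝ W with hb2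
  have hc : IsCompl Wᗮ W := (Submodule.isCompl_orthogonal W).symm
  set e : (Fin (N - Module.finrank ℝ W) ⊕ Fin (Module.finrank ℝ W) → ℝ) ≃ₗ[ℝ] Eu N :=
    ((LinearEquiv.sumArrowLequivProdArrow _ _ ℝ ℝ).trans
      (((EuclideanSpace.equiv _ ℝ).symm.toLinearEquiv.trans b1.repr.symm.toLinearEquiv).prodCongr
        ((EuclideanSpace.equiv _ ℝ).symm.toLinearEquiv.trans b2.repr.symm.toLinearEquiv))).trans
      (Submodule.prodEquivOfIsCompl Wᗮ W hc) with he
  refine ⟨e.toContinuousLinearEquiv, b2.repr.symm, fun y => ?_⟩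
  refine ⟨(b1.repr.symm ((EuclideanSpace.equiv _ ℝ).symm y) : Wᗮ), SetLike.coe_mem _,
    fun x => ?_⟩
  rfl

/-- the affine invariant inequality for densities on `ℝ^N` invariant under reflections -/
private theorem rf_dens {K : ℝ} (hK : 1 ≤ K)
    (hap : ∀ (n : ℕ) (ν : Measure (EuclideanSpace ℝ (Fin n))) [IsProbabilityMeasure ν],
      FP.PLm ν → ∀ A : Finset (EuclideanSpace ℝ (Fin n)), (∀ a ∈ A, ν.map (RA a) = ν) →
      Submodule.span ℝ (A : Set (EuclideanSpace ℝ (Fin n))) = ⊤ → FP.AP ν K)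
    {C : ℝ} (hC : 1 ≤ C) (hfib : FibreStat C)
    (N : ℕ) (A : Set (Eu N)) (ρ : Eu N → ℝ) (hρ : LCd ρ)
    (h0 : ∫⁻ x, ENNReal.ofReal (ρ x) ≠ 0) (ht : ∫⁻ x, ENNReal.ofReal (ρ x) ≠ ∞)
    (hinv : ∀ a ∈ A, ∀ x : Eu N, ρ (RA a x) = ρ x) :
    AP (dens ρ) (C ^ (N - Module.finrank ℝ (Submodule.span ℝ A)) * K) := by
  classical
  set W := Submodule.span ℝ A with hW
  obtain ⟨e, J, heJ⟩ := rf_coord W
  refine AP.lin (E := Fin (N - Module.finrank ℝ W) ⊕ Fin (Module.finrank ℝ W) → ℝ)
    (F := Eu N) e ?_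
  obtain ⟨h0', ht'⟩ := lint_lin_ne e h0 ht
  have hρ' : LCd (fun z => ρ (e z)) := by
    have := LCd.lin (e : (Fin (N - Module.finrank ℝ W) ⊕ Fin (Module.finrank ℝ W) → ℝ) →L[ℝ]
      Eu N) 0 hρ
    simpa using this
  refine base_iter hC hfib _ (Fin (Module.finrank ℝ W)) (fun z => ρ (e z)) hρ' h0' ht' _ hK
    fun y hy0 hyt => ?_
  have hlc : LCd (fun x : Fin (Module.finrank ℝ W) → ℝ => ρ (e (Sum.elim y x))) := by
    refine hρ'.comp_linear (fun x : Fin (Module.finrank ℝ W) → ℝ =>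
      (Sum.elim y x : Fin (N - Module.finrank ℝ W) ⊕ Fin (Module.finrank ℝ W) → ℝ)) ?_ ?_
    · refine measurable_pi_lambda _ fun w => ?_
      rcases w with w | w
      · exact measurable_const
      · exact measurable_pi_apply w
    · intro x z a b hab
      funext w
      rcases w with w | w
      · show y w = a * y w + b * y w
        rw [← add_mul, hab, one_mul]
      · rfl
  set ε : Eu (Module.finrank ℝ W) ≃L[ℝ] (Fin (Module.finrank ℝ W) → ℝ) :=
    EuclideanSpace.equiv (Fin (Module.finrank ℝ W)) ℝ with hε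
  refine AP.lin (E := Eu (Module.finrank ℝ W)) (F := Fin (Module.finrank ℝ W) → ℝ) ε ?_
  obtain ⟨hz0, hzt⟩ := lint_lin_ne ε hy0 hyt
  have hlc' : LCd (fun x : Eu (Module.finrank ℝ W) => ρ (e (Sum.elim y (ε x)))) := by
    have := LCd.lin (ε : Eu (Module.finrank ℝ W) →L[ℝ] (Fin (Module.finrank ℝ W) → ℝ)) 0 hlc
    simpa using this
  have : IsProbabilityMeasure
      (dens (fun x : Eu (Module.finrank ℝ W) => ρ (e (Sum.elim y (ε x))))) :=
    dens_prob hz0 hzt
  -- the reflections of the fibre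
  set A' : Set (Eu (Module.finrank ℝ W)) := {a' | (J a' : Eu N) ∈ A} with hA'
  have hspan : Submodule.span ℝ A' = ⊤ := by
    set L : Eu (Module.finrank ℝ W) →ₗ[ℝ] Eu N := W.subtype ∘ₗ J.toLinearEquiv.toLinearMap with hL
    have hLinj : Function.Injective L := by
      rw [hL]
      exact (Subtype.val_injective).comp J.injective
    have himg : L '' A' = A := by
      ext a
      constructor
      · rintro ⟨a', ha', rfl⟩
        exact ha'
      · intro ha
        have haW : a ∈ W := Submodule.subset_span ha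
        refine ⟨J.symm ⟨a, haW⟩, ?_, ?_⟩
        · show (J (J.symm ⟨a, haW⟩) : Eu N) ∈ A
          rw [J.apply_symm_apply]
          exact ha
        · show (J (J.symm ⟨a, haW⟩) : Eu N) = a
          rw [J.apply_symm_apply]
    have h1 : Submodule.map L (Submodule.span ℝ A') = W := by
      rw [Submodule.map_span, himg]
    rw [eq_top_iff]
    intro x _
    have h2 : L x ∈ Submodule.map L (Submodule.span ℝ A') := by
      rw [h1]
      exact (J x).2
    obtain ⟨x', hx', hxx⟩ := h2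
    rw [← hLinj hxx]
    exact hx'
  obtain ⟨A'', hA'', hspan'⟩ := (Submodule.fg_span_iff_fg_span_finset_subset (R := ℝ) A').1
    (IsNoetherian.noetherian _)
  refine hap _ _ (hlc'.plm hz0 hzt) A'' (fun a' ha' => ?_) (by rw [← hspan', hspan])
  have ha : (J a' : Eu N) ∈ A := hA'' ha'
  obtain ⟨u, hu, hue⟩ := heJ y
  have hR : ∀ x : Eu (Module.finrank ℝ W),
      ρ (e (Sum.elim y (ε (RA a' x)))) = ρ (e (Sum.elim y (ε x))) := by
    intro x
    rw [← hinv _ ha (e (Sum.elim y (ε x)))]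
    congr 1
    rw [hε, hue, hue, rf_RA_apply, rf_RA_apply]
    have h1 : inner ℝ (J a' : Eu N) u = 0 :=
      (Submodule.mem_orthogonal W u).1 hu _ (J a').2
    have h2 : inner ℝ (J a' : Eu N) (J x : Eu N) = inner ℝ a' x := by
      rw [← Submodule.coe_inner, J.inner_map_map]
    have h3 : ‖(J a' : Eu N)‖ = ‖a'‖ := J.norm_map a'
    rw [inner_add_right, h1, h2, h3, zero_add, map_sub, map_smul]
    push_cast
    rw [add_sub_assoc]
  have h1 := dens_lin (RA a').toContinuousLinearEquiv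
    (fun x : Eu (Module.finrank ℝ W) => ρ (e (Sum.elim y (ε x))))
  have h2 : (fun x : Eu (Module.finrank ℝ W) =>
      ρ (e (Sum.elim y (ε ((RA a').toContinuousLinearEquiv x))))) =
      fun x => ρ (e (Sum.elim y (ε x))) := funext fun x => hR x
  rw [h2] at h1
  exact h1

/-- the affine invariant inequality for log-concave measures invariant under reflections -/
private theorem rf_ap {K : ℝ} (hK : 1 ≤ K)
    (hap : ∀ (n : ℕ) (ν : Measure (EuclideanSpace ℝ (Fin n))) [IsProbabilityMeasure ν],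
      FP.PLm ν → ∀ A : Finset (EuclideanSpace ℝ (Fin n)), (∀ a ∈ A, ν.map (RA a) = ν) →
      Submodule.span ℝ (A : Set (EuclideanSpace ℝ (Fin n))) = ⊤ → FP.AP ν K) :
    ∃ D : ℝ, 1 ≤ D ∧
    ∀ (N : ℕ) (μ : Measure (Eu N)) [IsProbabilityMeasure μ], FP.PLm μ →
      ∀ A : Set (Eu N), (∀ a ∈ A, μ.map (RA a) = μ) →
      FP.AP μ (D ^ (N - Module.finrank ℝ (Submodule.span ℝ A) + 1)) := by
  obtain ⟨C, hC, hfib⟩ := fibreStat
  refine ⟨max C K, hC.trans (le_max_left _ _), ?_⟩
  intro N μ _ hpl A hinv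
  have hD : 1 ≤ max C K := hC.trans (le_max_left _ _)
  have hD1 : 1 ≤ (max C K) ^ (N - Module.finrank ℝ (Submodule.span ℝ A) + 1) := one_le_pow₀ hD
  refine ap_of_cv hpl.sq_integrable (by linarith) fun t ht => ?_
  set d : ℝ := 1 / (2 * t ^ 2) with hd
  have hd0 : 0 < d := by positivity
  have hcv : FP.cv μ t = volume.withDensity (fun x => ENNReal.ofReal (fG μ d x)) := cv_eq ht rfl
  have hmass : ∫⁻ x, ENNReal.ofReal (fG μ d x) = 1 := by
    have h1 : IsProbabilityMeasure (FP.cv μ t) := by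
      unfold FP.cv
      exact Measure.isProbabilityMeasure_map (by fun_prop)
    have h2 := h1.measure_univ
    rw [hcv, withDensity_apply _ MeasurableSet.univ, Measure.restrict_univ] at h2
    exact h2
  have hdens : FP.cv μ t = dens (fG μ d) := by
    unfold dens
    rw [hmass, inv_one, one_smul, hcv]
  have hlc : LCd (fG μ d) := by
    refine ⟨fun x => integral_nonneg fun z => (gk_pos hd0 _).le, fG_measurable,
      fun x y a b ha hb hab => ?_⟩
    have := fG_logconcave hd0 hpl x y hb (by linarith : b < 1)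
    rwa [show 1 - b = a by linarith] at this
  rw [hdens]
  have h0 : ∫⁻ x, ENNReal.ofReal (fG μ d x) ≠ 0 := by rw [hmass]; simp
  have htt : ∫⁻ x, ENNReal.ofReal (fG μ d x) ≠ ∞ := by rw [hmass]; simp
  have hmain := rf_dens hK hap hC hfib N A (fG μ d) hlc h0 htt
    (fun a ha x => rf_fG_inv (hinv a ha) d x)
  refine AP.mono hmain ?_
  rw [pow_succ]
  exact mul_le_mul (pow_le_pow_left₀ (by linarith) (le_max_left _ _) _) (le_max_right _ _)
    (by linarith) (by positivity)

/-- the final statement, from the affine invariant inequality for measures invariant under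
reflections which span the space -/
theorem refl_cheeger_of {K : ℝ} (hK : 1 ≤ K)
    (hap : ∀ (n : ℕ) (ν : Measure (EuclideanSpace ℝ (Fin n))) [IsProbabilityMeasure ν],
      FP.PLm ν → ∀ A : Finset (EuclideanSpace ℝ (Fin n)), (∀ a ∈ A, ν.map (RA a) = ν) →
      Submodule.span ℝ (A : Set (EuclideanSpace ℝ (Fin n))) = ⊤ → FP.AP ν K) :
    ∃ C : ℝ, 0 < C ∧ ∀ (N d : ℕ) (μ : Measure (EuclideanSpace ℝ (Fin N)))
    [IsProbabilityMeasure μ], FP.PLm μ →
    ∀ A : Set (EuclideanSpace ℝ (Fin N)), (∀ a ∈ A, μ.map (RA a) = μ) →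
    N ≤ Module.finrank ℝ (Submodule.span ℝ A) + d →
    ∀ (n : ℕ) (T : EuclideanSpace ℝ (Fin N) →ₗ[ℝ] EuclideanSpace ℝ (Fin n)) (s : ℝ), 0 < s →
    (∀ θ : EuclideanSpace ℝ (Fin n), ‖θ‖ = 1 → Var[fun x => inner ℝ x θ; μ.map T] ≤ s) →
    ∀ S : Set (EuclideanSpace ℝ (Fin n)), MeasurableSet S →
      ENNReal.ofReal (C ^ (d + 1) / Real.sqrt s) * min (μ.map T S) (μ.map T Sᶜ) ≤
        Filter.liminf
          (fun ε : ℝ => (μ.map T (Metric.thickening ε S) - μ.map T S) / ENNReal.ofReal ε)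
          (𝓝[>] 0) := by
  obtain ⟨D, hD, hap'⟩ := rf_ap hK hap
  obtain ⟨c, hc, hch⟩ := cheeger_image
  set c' : ℝ := min c 1 with hc'
  have hc'0 : 0 < c' := lt_min hc one_pos
  have hsD : 1 ≤ Real.sqrt D := by
    rw [Real.one_le_sqrt]
    exact hD
  refine ⟨c' / Real.sqrt D, by positivity, ?_⟩
  intro N d μ _ hpl A hinv hNd n T s hs hvar S hS
  have hapm : AP μ (D ^ (d + 1)) := by
    refine AP.mono (hap' N μ hpl A hinv) ?_
    exact pow_le_pow_right₀ hD (Nat.add_le_add_right (Nat.sub_le_iff_le_add'.2 hNd) 1)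
  have hD1 : 1 ≤ D ^ (d + 1) := one_le_pow₀ hD
  refine le_trans ?_ (hch (EuclideanSpace ℝ (Fin N)) μ hpl _ hD1 hapm n T s hs hvar S hS)
  refine mul_le_mul_left ?_ _
  apply ENNReal.ofReal_le_ofReal
  have hsq : Real.sqrt (D ^ (d + 1) * s) = (Real.sqrt D) ^ (d + 1) * Real.sqrt s := by
    rw [Real.sqrt_mul (by positivity)]
    congr 1
    rw [Real.sqrt_eq_iff_mul_self_eq (by positivity) (by positivity), ← mul_pow,
      Real.mul_self_sqrt (by linarith)]
  rw [hsq, div_pow, div_div]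
  apply div_le_div_of_nonneg_right _ (by positivity)
  calc c' ^ (d + 1) ≤ c' ^ 1 := pow_le_pow_of_le_one hc'0.le (min_le_right _ _) (by omega)
    _ = c' := pow_one _
    _ ≤ c := min_le_left _ _

end Pool.Agent.Lib.MP_6d896a_gt.UC.UR
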